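import Pool.Agent.Lib.Pe3602a.Defs

/-!
# The metrics `δᵢⱼ + uᵢ uⱼ`, `u = (a(x₀), b(x₁), 0, …, 0)`
-/

open MeasureTheory Filter Topology
open scoped ContDiff ENNReal

namespace Pool.Agent.Lib.Pe3602a

/-- The covector field `u = (a(x₀), b(x₁), 0, …, 0)`. -/
noncomputable def uvec {m : ℕ} (a b : ℝ → ℝ) (x : Fin (m + 2) → ℝ) (i : Fin (m + 2)) : ℝ :=
  if i = 0 then a (x 0) else if i = 1 then b (x 1) else 0

/-- The metric `δᵢⱼ + uᵢ uⱼ` with `u = (a(x₀), b(x₁), 0, …, 0)`. -/
noncomputable def gmet (m : ℕ) (a b : ℝ → ℝ) : MetricField (m + 2) :=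
  fun x => 1 + Matrix.vecMulVec (uvec a b x) (uvec a b x)

/-- `W² = 1 + |u|²`. -/
noncomputable def W2 {m : ℕ} (a b : ℝ → ℝ) (x : Fin (m + 2) → ℝ) : ℝ :=
  1 + a (x 0) ^ 2 + b (x 1) ^ 2

section

variable {m : ℕ} {a b : ℝ → ℝ}

theorem W2_pos (x : Fin (m + 2) → ℝ) : 0 < W2 a b x := by
  unfold W2; positivity

theorem one_le_W2 (x : Fin (m + 2) → ℝ) : 1 ≤ W2 a b x := by
  unfold W2; nlinarith [sq_nonneg (a (x 0)), sq_nonneg (b (x 1))]

theorem sum_two (f : Fin (m + 2) → ℝ) (hf : ∀ i, i ≠ 0 → i ≠ 1 → f i = 0) :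
    ∑ i, f i = f 0 + f 1 := by
  have h01 : (0 : Fin (m + 2)) ≠ 1 := by simp
  rw [Fintype.sum_eq_add 0 1 h01 (fun i hi => hf i hi.1 hi.2)]

theorem uvec_zero (x : Fin (m + 2) → ℝ) : uvec a b x 0 = a (x 0) := by simp [uvec]

theorem uvec_one (x : Fin (m + 2) → ℝ) : uvec a b x 1 = b (x 1) := by simp [uvec]

theorem uvec_other (x : Fin (m + 2) → ℝ) {i : Fin (m + 2)} (h0 : i ≠ 0) (h1 : i ≠ 1) :
    uvec a b x i = 0 := by simp [uvec, h0, h1]

theorem uvec_dot (x : Fin (m + 2) → ℝ) : ∑ i, uvec a b x i * uvec a b x i = W2 a b x - 1 := by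
  rw [sum_two]
  · rw [uvec_zero, uvec_one, W2]; ring
  · intro i h0 h1; simp [uvec_other x h0 h1]

theorem gmet_apply (x : Fin (m + 2) → ℝ) (i j : Fin (m + 2)) :
    gmet m a b x i j = (if i = j then 1 else 0) + uvec a b x i * uvec a b x j := by
  simp [gmet, Matrix.vecMulVec_apply, Matrix.one_apply]

theorem gmet_det (x : Fin (m + 2) → ℝ) : (gmet m a b x).det = W2 a b x := by
  have : gmet m a b x = 1 + Matrix.replicateCol Unit (uvec a b x) *
      Matrix.replicateRow Unit (uvec a b x) := by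
    rw [gmet, Matrix.vecMulVec_eq Unit]
  rw [this, Matrix.det_one_add_replicateCol_mul_replicateRow]
  have := uvec_dot (a := a) (b := b) x
  simp only [dotProduct]
  linarith

/-- The inverse metric. -/
theorem gmet_inv (x : Fin (m + 2) → ℝ) :
    (gmet m a b x)⁻¹ = 1 - (W2 a b x)⁻¹ • Matrix.vecMulVec (uvec a b x) (uvec a b x) := by
  apply Matrix.inv_eq_right_inv
  have hW := (W2_pos (a := a) (b := b) x).ne'
  have key : Matrix.vecMulVec (uvec a b x) (uvec a b x) *
      Matrix.vecMulVec (uvec a b x) (uvec a b x) =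
      (W2 a b x - 1) • Matrix.vecMulVec (uvec a b x) (uvec a b x) := by
    ext i j
    simp only [Matrix.mul_apply, Matrix.vecMulVec_apply, Matrix.smul_apply, smul_eq_mul]
    rw [← uvec_dot (a := a) (b := b) x, Finset.sum_mul]
    apply Finset.sum_congr rfl
    intro k _; ring
  rw [gmet, add_mul, mul_sub, mul_sub, one_mul, one_mul, mul_one, Matrix.mul_smul, key, smul_smul]
  have : (W2 a b x)⁻¹ * (W2 a b x - 1) = 1 - (W2 a b x)⁻¹ := by field_simp
  rw [this, sub_smul, one_smul]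
  abel

theorem gmet_inv_apply (x : Fin (m + 2) → ℝ) (i j : Fin (m + 2)) :
    (gmet m a b x)⁻¹ i j =
      (if i = j then 1 else 0) - uvec a b x i * uvec a b x j / W2 a b x := by
  rw [gmet_inv]
  simp only [Matrix.sub_apply, Matrix.one_apply, Matrix.smul_apply, Matrix.vecMulVec_apply,
    smul_eq_mul]
  ring

theorem gmet_quad (x w : Fin (m + 2) → ℝ) :
    ∑ i, ∑ j, gmet m a b x i j * w i * w j =
      ∑ i, w i ^ 2 + (a (x 0) * w 0 + b (x 1) * w 1) ^ 2 := by
  have h1 : ∑ i, uvec a b x i * w i = a (x 0) * w 0 + b (x 1) * w 1 := by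
    rw [sum_two]
    · rw [uvec_zero, uvec_one]
    · intro i h0 h1; simp [uvec_other x h0 h1]
  have h2 : ∀ i, ∑ j, gmet m a b x i j * w i * w j =
      w i ^ 2 + (uvec a b x i * w i) * (a (x 0) * w 0 + b (x 1) * w 1) := by
    intro i
    rw [← h1, Finset.mul_sum]
    have : ∀ j, gmet m a b x i j * w i * w j =
        (if i = j then w i * w j else 0) + uvec a b x i * w i * (uvec a b x j * w j) := by
      intro j
      rw [gmet_apply]
      split_ifs <;> ring
    simp only [this, Finset.sum_add_distrib, Finset.sum_ite_eq, Finset.mem_univ, if_true]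
    ring
  simp only [h2, Finset.sum_add_distrib, ← Finset.sum_mul, h1]
  ring

theorem gmet_posDef (x : Fin (m + 2) → ℝ) : (gmet m a b x).PosDef := by
  refine Matrix.PosDef.of_dotProduct_mulVec_pos ?_ ?_
  · ext i j
    simp only [Matrix.conjTranspose_apply, star_trivial, gmet_apply]
    by_cases h : i = j
    · subst h; ring
    · rw [if_neg h, if_neg (Ne.symm h)]; ring
  · intro w hw
    have h := gmet_quad (a := a) (b := b) x w
    have e : star w ⬝ᵥ Matrix.mulVec (gmet m a b x) w =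
        ∑ i, ∑ j, gmet m a b x i j * w i * w j := by
      simp only [dotProduct, Matrix.mulVec, star_trivial, Pi.star_apply]
      apply Finset.sum_congr rfl
      intro i _
      rw [Finset.mul_sum]
      apply Finset.sum_congr rfl
      intro j _
      ring
    rw [e, h]
    have : 0 < ∑ i, w i ^ 2 := by
      obtain ⟨i, hi⟩ := Function.ne_iff.mp hw
      have hi' : w i ≠ 0 := by simpa using hi
      have : 0 < w i ^ 2 := by positivity
      exact lt_of_lt_of_le this (Finset.single_le_sum (f := fun i => w i ^ 2)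
        (fun j _ => sq_nonneg (w j)) (Finset.mem_univ i))
    positivity

theorem uvec_contDiff {k : ℕ∞ω} (ha : ContDiff ℝ k a) (hb : ContDiff ℝ k b) (i : Fin (m + 2)) :
    ContDiff ℝ k fun x : Fin (m + 2) → ℝ => uvec a b x i := by
  unfold uvec
  split_ifs
  · exact ha.comp (contDiff_apply ℝ ℝ (0 : Fin (m + 2)))
  · exact hb.comp (contDiff_apply ℝ ℝ (1 : Fin (m + 2)))
  · exact contDiff_const

theorem gmet_isRiemannianMetric (ha : ContDiff ℝ ∞ a) (hb : ContDiff ℝ ∞ b) :
    IsRiemannianMetric (gmet m a b) := by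
  refine ⟨fun i j => ?_, gmet_posDef⟩
  have : (fun x => gmet m a b x i j) =
      fun x => (if i = j then (1 : ℝ) else 0) + uvec a b x i * uvec a b x j := by
    funext x; exact gmet_apply x i j
  rw [this]
  exact contDiff_const.add ((uvec_contDiff ha hb i).mul (uvec_contDiff ha hb j))

end

end Pool.Agent.Lib.Pe3602a
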