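import Pool.Agent.Lib.Pe3602a.Curv

/-!
# Curvature of the metrics `δᵢⱼ + uᵢ uⱼ`, `u = (a(x₀), b(x₁), 0, …, 0)`
-/

open MeasureTheory Filter Topology
open scoped ContDiff ENNReal

namespace Pool.Agent.Lib.Pe3602a

theorem hasDerivAt_sq' {b : ℝ → ℝ} {b' t : ℝ} (hb : HasDerivAt b b' t) :
    HasDerivAt (fun s => b s ^ 2) (2 * b t * b') t := by
  have h := hb.mul hb
  have e : (b * b) = fun s => b s ^ 2 := by
    funext s; simp [pow_two]
  rw [e] at h
  convert! h using 1
  ring

section general

variable {n : ℕ}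

theorem pd_eq_deriv {f : (Fin n → ℝ) → ℝ} {x : Fin n → ℝ} (hf : DifferentiableAt ℝ f x)
    (i : Fin n) : pd i f x = deriv (fun t => f (Function.update x i t)) (x i) := by
  have h1 : HasFDerivAt f (fderiv ℝ f x) (Function.update x i (x i)) := by
    rw [Function.update_eq_self]; exact hf.hasFDerivAt
  have h2 := h1.comp_hasDerivAt (x i) (hasDerivAt_update x i (x i))
  exact h2.deriv.symm

theorem pd_mul {f h : (Fin n → ℝ) → ℝ} {x : Fin n → ℝ} (hf : DifferentiableAt ℝ f x)
    (hh : DifferentiableAt ℝ h x) (i : Fin n) :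
    pd i (fun y => f y * h y) x = f x * pd i h x + h x * pd i f x := by
  unfold pd
  rw [fderiv_fun_mul hf hh]
  simp [smul_eq_mul]

theorem pd_const_add {h : (Fin n → ℝ) → ℝ} {x : Fin n → ℝ} (c : ℝ) (i : Fin n) :
    pd i (fun y => c + h y) x = pd i h x := by
  unfold pd
  rw [fderiv_const_add]

theorem pd_const (c : ℝ) (x : Fin n → ℝ) (i : Fin n) : pd i (fun _ => c) x = 0 := by
  unfold pd
  rw [fderiv_fun_const]; simp

end general

section

variable {m : ℕ} {a b : ℝ → ℝ}

/-- The vector `(a'(x₀), b'(x₁), 0, …, 0)`. -/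
noncomputable def svec {m : ℕ} (a b : ℝ → ℝ) (x : Fin (m + 2) → ℝ) (i : Fin (m + 2)) : ℝ :=
  if i = 0 then deriv a (x 0) else if i = 1 then deriv b (x 1) else 0

theorem svec_zero (x : Fin (m + 2) → ℝ) : svec a b x 0 = deriv a (x 0) := by simp [svec]

theorem svec_one (x : Fin (m + 2) → ℝ) : svec a b x 1 = deriv b (x 1) := by simp [svec]

theorem svec_other (x : Fin (m + 2) → ℝ) {i : Fin (m + 2)} (h0 : i ≠ 0) (h1 : i ≠ 1) :
    svec a b x i = 0 := by simp [svec, h0, h1]

theorem uvec_differentiable (ha : Differentiable ℝ a) (hb : Differentiable ℝ b)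
    (i : Fin (m + 2)) : Differentiable ℝ fun x : Fin (m + 2) → ℝ => uvec a b x i := by
  unfold uvec
  split_ifs
  · exact ha.comp (differentiable_apply (0 : Fin (m + 2)))
  · exact hb.comp (differentiable_apply (1 : Fin (m + 2)))
  · exact differentiable_const _

theorem pd_uvec (ha : Differentiable ℝ a) (hb : Differentiable ℝ b)
    (i j : Fin (m + 2)) (x : Fin (m + 2) → ℝ) :
    pd i (fun y => uvec a b y j) x = if i = j then svec a b x i else 0 := by
  rw [pd_eq_deriv ((uvec_differentiable ha hb j) x)]
  by_cases hij : i = j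
  · subst hij
    rw [if_pos rfl]
    unfold uvec svec
    by_cases h0 : i = 0
    · subst h0; simp
    · by_cases h1 : i = 1
      · subst h1; simp
      · simp [h0, h1]
  · rw [if_neg hij]
    have : (fun t => uvec a b (Function.update x i t) j) = fun _ => uvec a b x j := by
      funext t
      unfold uvec
      by_cases h0 : j = 0
      · subst h0
        simp [Ne.symm hij]
      · by_cases h1 : j = 1
        · subst h1
          simp [Ne.symm hij]
        · simp [h0, h1]
    rw [this, deriv_const]

theorem pd_gmet (ha : Differentiable ℝ a) (hb : Differentiable ℝ b)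
    (i j l : Fin (m + 2)) (x : Fin (m + 2) → ℝ) :
    pd l (fun y => gmet m a b y i j) x =
      (if l = i then svec a b x l * uvec a b x j else 0) +
      (if l = j then svec a b x l * uvec a b x i else 0) := by
  have : (fun x => gmet m a b x i j) =
      fun x => (if i = j then (1 : ℝ) else 0) + uvec a b x i * uvec a b x j := by
    funext x; exact gmet_apply x i j
  rw [this, pd_const_add, pd_mul (uvec_differentiable ha hb i x) (uvec_differentiable ha hb j x),
    pd_uvec ha hb, pd_uvec ha hb]
  split_ifs <;> ring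

theorem christoffel_gmet (ha : Differentiable ℝ a) (hb : Differentiable ℝ b)
    (k i j : Fin (m + 2)) (x : Fin (m + 2) → ℝ) :
    christoffel (gmet m a b) k i j x =
      if i = j then svec a b x i * uvec a b x k / W2 a b x else 0 := by
  unfold christoffel
  have hW := (W2_pos (a := a) (b := b) x).ne'
  by_cases hij : i = j
  · subst hij
    rw [if_pos rfl]
    have : ∀ l, (gmet m a b x)⁻¹ k l *
        (pd i (fun y => gmet m a b y i l) x + pd i (fun y => gmet m a b y i l) x -
          pd l (fun y => gmet m a b y i i) x) =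
        (if k = l then 2 * svec a b x i * uvec a b x l else 0) -
          2 * svec a b x i * uvec a b x k / W2 a b x * (uvec a b x l * uvec a b x l) := by
      intro l
      rw [gmet_inv_apply, pd_gmet ha hb, pd_gmet ha hb]
      by_cases hil : i = l
      · subst hil
        simp only [if_true]
        split_ifs <;> ring
      · rw [if_pos rfl, if_neg hil, if_neg (Ne.symm hil)]
        split_ifs <;> ring
    simp only [this, Finset.sum_sub_distrib, Finset.sum_ite_eq, Finset.mem_univ, if_true,
      ← Finset.mul_sum, uvec_dot]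
    field_simp
    ring
  · rw [if_neg hij]
    have : ∀ l, (gmet m a b x)⁻¹ k l *
        (pd i (fun y => gmet m a b y j l) x + pd j (fun y => gmet m a b y i l) x -
          pd l (fun y => gmet m a b y i j) x) = 0 := by
      intro l
      rw [pd_gmet ha hb, pd_gmet ha hb, pd_gmet ha hb]
      by_cases hil : l = i
      · subst hil
        simp [hij, Ne.symm hij]
      · by_cases hjl : l = j
        · subst hjl
          simp [hij, Ne.symm hij]
        · simp [hij, Ne.symm hij, hil, hjl, Ne.symm hil, Ne.symm hjl]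
    simp [this]

/-- The functions `sᵢ uₖ / W²`. -/
noncomputable def psi {m : ℕ} (a b : ℝ → ℝ) (i k : Fin (m + 2)) (x : Fin (m + 2) → ℝ) : ℝ :=
  svec a b x i * uvec a b x k / W2 a b x

theorem svec_differentiable (ha : Differentiable ℝ (deriv a)) (hb : Differentiable ℝ (deriv b))
    (i : Fin (m + 2)) : Differentiable ℝ fun x : Fin (m + 2) → ℝ => svec a b x i := by
  unfold svec
  split_ifs
  · exact ha.comp (differentiable_apply (0 : Fin (m + 2)))
  · exact hb.comp (differentiable_apply (1 : Fin (m + 2)))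
  · exact differentiable_const _

theorem W2_differentiable (ha : Differentiable ℝ a) (hb : Differentiable ℝ b) :
    Differentiable ℝ fun x : Fin (m + 2) → ℝ => W2 a b x := by
  unfold W2
  exact ((differentiable_const _).add
    ((ha.comp (differentiable_apply (0 : Fin (m + 2)))).pow 2)).add
    ((hb.comp (differentiable_apply (1 : Fin (m + 2)))).pow 2)

theorem psi_differentiable (ha : Differentiable ℝ a) (hb : Differentiable ℝ b)
    (ha' : Differentiable ℝ (deriv a)) (hb' : Differentiable ℝ (deriv b))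
    (i k : Fin (m + 2)) : Differentiable ℝ (psi a b i k : (Fin (m + 2) → ℝ) → ℝ) := by
  intro x
  have h : (psi a b i k : (Fin (m + 2) → ℝ) → ℝ) =
      fun x => svec a b x i * uvec a b x k * (W2 a b x)⁻¹ := by
    funext y; simp only [psi, div_eq_mul_inv]
  rw [h]
  exact (((svec_differentiable ha' hb' i) x).mul ((uvec_differentiable ha hb k) x)).mul
    ((W2_differentiable ha hb x).inv (W2_pos x).ne')

theorem psi_other_left {i : Fin (m + 2)} (h0 : i ≠ 0) (h1 : i ≠ 1) (k : Fin (m + 2)) :
    (psi a b i k : (Fin (m + 2) → ℝ) → ℝ) = fun _ => 0 := by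
  funext x; simp [psi, svec_other x h0 h1]

theorem psi_other_right {k : Fin (m + 2)} (h0 : k ≠ 0) (h1 : k ≠ 1) (i : Fin (m + 2)) :
    (psi a b i k : (Fin (m + 2) → ℝ) → ℝ) = fun _ => 0 := by
  funext x; simp [psi, uvec_other x h0 h1]

/-- `psi` depends on the first two coordinates only. -/
theorem pd_psi_other (ha : Differentiable ℝ a) (hb : Differentiable ℝ b)
    (ha' : Differentiable ℝ (deriv a)) (hb' : Differentiable ℝ (deriv b))
    (i k : Fin (m + 2)) {l : Fin (m + 2)} (h0 : l ≠ 0) (h1 : l ≠ 1) (x : Fin (m + 2) → ℝ) :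
    pd l (psi a b i k) x = 0 := by
  rw [pd_eq_deriv ((psi_differentiable ha hb ha' hb' i k) x)]
  have : (fun t => psi a b i k (Function.update x l t)) = fun _ => psi a b i k x := by
    funext t
    simp [psi, uvec, svec, W2, Ne.symm h0, Ne.symm h1]
  rw [this, deriv_const]

theorem pd_zero_psi_zero_one (ha : Differentiable ℝ a) (hb : Differentiable ℝ b)
    (ha' : Differentiable ℝ (deriv a)) (hb' : Differentiable ℝ (deriv b))
    (x : Fin (m + 2) → ℝ) :
    pd 1 (psi a b 0 1) x = deriv a (x 0) * deriv b (x 1) / W2 a b x -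
      2 * deriv a (x 0) * deriv b (x 1) * b (x 1) ^ 2 / W2 a b x ^ 2 := by
  rw [pd_eq_deriv ((psi_differentiable ha hb ha' hb' 0 1) x)]
  have hW := (W2_pos (a := a) (b := b) x).ne'
  have e : (fun t => psi a b 0 1 (Function.update x 1 t)) =
      fun t => deriv a (x 0) * b t / (1 + a (x 0) ^ 2 + b t ^ 2) := by
    funext t
    simp [psi, uvec, svec, W2]
  rw [e]
  have h : HasDerivAt (fun t => deriv a (x 0) * b t / (1 + a (x 0) ^ 2 + b t ^ 2))
      ((deriv a (x 0) * deriv b (x 1) * (1 + a (x 0) ^ 2 + b (x 1) ^ 2) -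
        deriv a (x 0) * b (x 1) * (2 * b (x 1) * deriv b (x 1))) /
        (1 + a (x 0) ^ 2 + b (x 1) ^ 2) ^ 2) (x 1) := by
    have hb1 := (hb (x 1)).hasDerivAt
    have hn := hb1.const_mul (deriv a (x 0))
    have hd : HasDerivAt (fun t => 1 + a (x 0) ^ 2 + b t ^ 2) (2 * b (x 1) * deriv b (x 1)) (x 1) :=
      (hasDerivAt_sq' hb1).const_add (1 + a (x 0) ^ 2)
    exact hn.div hd hW
  rw [h.deriv]
  change _ = deriv a (x 0) * deriv b (x 1) / (1 + a (x 0) ^ 2 + b (x 1) ^ 2) -
      2 * deriv a (x 0) * deriv b (x 1) * b (x 1) ^ 2 / (1 + a (x 0) ^ 2 + b (x 1) ^ 2) ^ 2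
  have hW' : (1 + a (x 0) ^ 2 + b (x 1) ^ 2) ≠ 0 := hW
  field_simp

theorem pd_zero_psi_one_zero (ha : Differentiable ℝ a) (hb : Differentiable ℝ b)
    (ha' : Differentiable ℝ (deriv a)) (hb' : Differentiable ℝ (deriv b))
    (x : Fin (m + 2) → ℝ) :
    pd 0 (psi a b 1 0) x = deriv a (x 0) * deriv b (x 1) / W2 a b x -
      2 * deriv a (x 0) * deriv b (x 1) * a (x 0) ^ 2 / W2 a b x ^ 2 := by
  rw [pd_eq_deriv ((psi_differentiable ha hb ha' hb' 1 0) x)]
  have hW := (W2_pos (a := a) (b := b) x).ne'
  have e : (fun t => psi a b 1 0 (Function.update x 0 t)) =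
      fun t => deriv b (x 1) * a t / (1 + a t ^ 2 + b (x 1) ^ 2) := by
    funext t
    simp [psi, uvec, svec, W2]
  rw [e]
  have h : HasDerivAt (fun t => deriv b (x 1) * a t / (1 + a t ^ 2 + b (x 1) ^ 2))
      ((deriv b (x 1) * deriv a (x 0) * (1 + a (x 0) ^ 2 + b (x 1) ^ 2) -
        deriv b (x 1) * a (x 0) * (2 * a (x 0) * deriv a (x 0))) /
        (1 + a (x 0) ^ 2 + b (x 1) ^ 2) ^ 2) (x 0) := by
    have ha1 := (ha (x 0)).hasDerivAt
    have hn := ha1.const_mul (deriv b (x 1))
    have hd : HasDerivAt (fun t => 1 + a t ^ 2 + b (x 1) ^ 2) (2 * a (x 0) * deriv a (x 0)) (x 0) :=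
      ((hasDerivAt_sq' ha1).const_add 1).add_const (b (x 1) ^ 2)
    exact hn.div hd hW
  rw [h.deriv]
  change _ = deriv a (x 0) * deriv b (x 1) / (1 + a (x 0) ^ 2 + b (x 1) ^ 2) -
      2 * deriv a (x 0) * deriv b (x 1) * a (x 0) ^ 2 / (1 + a (x 0) ^ 2 + b (x 1) ^ 2) ^ 2
  have hW' : (1 + a (x 0) ^ 2 + b (x 1) ^ 2) ≠ 0 := hW
  field_simp

theorem pd_one_psi_zero_zero (ha : Differentiable ℝ a) (hb : Differentiable ℝ b)
    (ha' : Differentiable ℝ (deriv a)) (hb' : Differentiable ℝ (deriv b))
    (x : Fin (m + 2) → ℝ) :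
    pd 1 (psi a b 0 0) x =
      - (2 * deriv a (x 0) * deriv b (x 1) * (a (x 0) * b (x 1))) / W2 a b x ^ 2 := by
  rw [pd_eq_deriv ((psi_differentiable ha hb ha' hb' 0 0) x)]
  have hW := (W2_pos (a := a) (b := b) x).ne'
  have e : (fun t => psi a b 0 0 (Function.update x 1 t)) =
      fun t => deriv a (x 0) * a (x 0) / (1 + a (x 0) ^ 2 + b t ^ 2) := by
    funext t
    simp [psi, uvec, svec, W2]
  rw [e]
  have h : HasDerivAt (fun t => deriv a (x 0) * a (x 0) / (1 + a (x 0) ^ 2 + b t ^ 2))
      ((0 * (1 + a (x 0) ^ 2 + b (x 1) ^ 2) -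
        deriv a (x 0) * a (x 0) * (2 * b (x 1) * deriv b (x 1))) /
        (1 + a (x 0) ^ 2 + b (x 1) ^ 2) ^ 2) (x 1) := by
    have hb1 := (hb (x 1)).hasDerivAt
    have hd : HasDerivAt (fun t => 1 + a (x 0) ^ 2 + b t ^ 2) (2 * b (x 1) * deriv b (x 1)) (x 1) :=
      (hasDerivAt_sq' hb1).const_add (1 + a (x 0) ^ 2)
    exact (hasDerivAt_const (x 1) (deriv a (x 0) * a (x 0))).div hd hW
  rw [h.deriv]
  change _ = - (2 * deriv a (x 0) * deriv b (x 1) * (a (x 0) * b (x 1))) /
    (1 + a (x 0) ^ 2 + b (x 1) ^ 2) ^ 2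
  have hW' : (1 + a (x 0) ^ 2 + b (x 1) ^ 2) ≠ 0 := hW
  field_simp
  ring

theorem pd_zero_psi_one_one (ha : Differentiable ℝ a) (hb : Differentiable ℝ b)
    (ha' : Differentiable ℝ (deriv a)) (hb' : Differentiable ℝ (deriv b))
    (x : Fin (m + 2) → ℝ) :
    pd 0 (psi a b 1 1) x =
      - (2 * deriv a (x 0) * deriv b (x 1) * (a (x 0) * b (x 1))) / W2 a b x ^ 2 := by
  rw [pd_eq_deriv ((psi_differentiable ha hb ha' hb' 1 1) x)]
  have hW := (W2_pos (a := a) (b := b) x).ne'
  have e : (fun t => psi a b 1 1 (Function.update x 0 t)) =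
      fun t => deriv b (x 1) * b (x 1) / (1 + a t ^ 2 + b (x 1) ^ 2) := by
    funext t
    simp [psi, uvec, svec, W2]
  rw [e]
  have h : HasDerivAt (fun t => deriv b (x 1) * b (x 1) / (1 + a t ^ 2 + b (x 1) ^ 2))
      ((0 * (1 + a (x 0) ^ 2 + b (x 1) ^ 2) -
        deriv b (x 1) * b (x 1) * (2 * a (x 0) * deriv a (x 0))) /
        (1 + a (x 0) ^ 2 + b (x 1) ^ 2) ^ 2) (x 0) := by
    have ha1 := (ha (x 0)).hasDerivAt
    have hd : HasDerivAt (fun t => 1 + a t ^ 2 + b (x 1) ^ 2) (2 * a (x 0) * deriv a (x 0)) (x 0) :=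
      ((hasDerivAt_sq' ha1).const_add 1).add_const (b (x 1) ^ 2)
    exact (hasDerivAt_const (x 0) (deriv b (x 1) * b (x 1))).div hd hW
  rw [h.deriv]
  change _ = - (2 * deriv a (x 0) * deriv b (x 1) * (a (x 0) * b (x 1))) /
    (1 + a (x 0) ^ 2 + b (x 1) ^ 2) ^ 2
  have hW' : (1 + a (x 0) ^ 2 + b (x 1) ^ 2) ≠ 0 := hW
  field_simp
  ring

theorem christoffel_gmet_fun (ha : Differentiable ℝ a) (hb : Differentiable ℝ b)
    (k i j : Fin (m + 2)) :
    christoffel (gmet m a b) k i j = if i = j then psi a b i k else fun _ => 0 := by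
  funext x
  rw [christoffel_gmet ha hb]
  split_ifs <;> rfl

theorem sum_svec_uvec (x : Fin (m + 2) → ℝ) :
    ∑ l, svec a b x l * uvec a b x l * uvec a b x l =
      deriv a (x 0) * a (x 0) ^ 2 + deriv b (x 1) * b (x 1) ^ 2 := by
  rw [sum_two]
  · rw [uvec_zero, uvec_one, svec_zero, svec_one]; ring
  · intro i h0 h1; simp [uvec_other x h0 h1]

theorem ricci_gmet_aux (ha : Differentiable ℝ a) (hb : Differentiable ℝ b)
    (i j : Fin (m + 2)) (x : Fin (m + 2) → ℝ) :
    ricci (gmet m a b) i j x =
      (if i = j then pd 0 (psi a b i 0) x + pd 1 (psi a b i 1) x else 0) -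
        pd j (psi a b i i) x +
      ((if i = j then svec a b x i *
          (deriv a (x 0) * a (x 0) ^ 2 + deriv b (x 1) * b (x 1) ^ 2) / W2 a b x ^ 2 else 0) -
        svec a b x j * svec a b x i * uvec a b x i * uvec a b x j / W2 a b x ^ 2) := by
  unfold ricci
  have hW := (W2_pos (a := a) (b := b) x).ne'
  rw [Finset.sum_add_distrib, Finset.sum_sub_distrib]
  congr 1
  · congr 1
    · by_cases hij : i = j
      · subst hij
        simp only [if_true, christoffel_gmet_fun ha hb]
        rw [sum_two]
        intro k h0 h1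
        rw [psi_other_right h0 h1, pd_const]
      · simp only [christoffel_gmet_fun ha hb, if_neg hij, pd_const, Finset.sum_const_zero]
    · have : ∀ k, pd j (christoffel (gmet m a b) k i k) x =
          if i = k then pd j (psi a b i i) x else 0 := by
        intro k
        rw [christoffel_gmet_fun ha hb]
        by_cases hik : i = k
        · subst hik; simp
        · rw [if_neg hik, if_neg hik, pd_const]
      simp only [this, Finset.sum_ite_eq, Finset.mem_univ, if_true]
  · rw [Finset.sum_congr rfl (fun k _ => Finset.sum_sub_distrib _ _), Finset.sum_sub_distrib]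
    congr 1
    · rw [Finset.sum_comm]
      simp only [christoffel_gmet_fun ha hb]
      by_cases hij : i = j
      · subst hij
        simp only [if_true]
        have : ∀ l, ∑ k, (if k = l then psi a b k k else fun _ => 0) x * psi a b i l x =
            psi a b l l x * psi a b i l x := by
          intro l
          rw [Finset.sum_eq_single l]
          · simp
          · intro k _ hk; simp [hk]
          · simp
        have this' : ∀ l, ∑ k, (if k = l then psi a b k k else fun _ => 0) x * psi a b i l x =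
            psi a b l l x * psi a b i l x := this
        have h2 : ∀ l : Fin (m + 2), psi a b l l x * psi a b i l x =
            svec a b x i / W2 a b x ^ 2 * (svec a b x l * uvec a b x l * uvec a b x l) := by
          intro l; unfold psi; field_simp
        have h3 : ∀ l : Fin (m + 2), ∑ k, (if k = l then psi a b k k else fun _ => 0) x * psi a b i l x =
            svec a b x i / W2 a b x ^ 2 * (svec a b x l * uvec a b x l * uvec a b x l) := by
          intro l; rw [this', h2]
        have h4 : ∀ l k : Fin (m + 2), (if k = l then psi a b k k else fun _ => 0) x * psi a b i l x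
            = (if k = l then psi a b k k else fun _ => 0) x * psi a b i l x := fun _ _ => rfl
        calc ∑ l, ∑ k, (if k = l then psi a b k k else fun _ => 0) x * psi a b i l x
            = ∑ l, svec a b x i / W2 a b x ^ 2 * (svec a b x l * uvec a b x l * uvec a b x l) :=
              Finset.sum_congr rfl (fun l _ => h3 l)
          _ = _ := by
              rw [← Finset.mul_sum, sum_svec_uvec]; ring
      · simp only [if_neg hij, mul_zero, Finset.sum_const_zero]
    · simp only [christoffel_gmet_fun ha hb]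
      have h1 : ∀ k l : Fin (m + 2), (if j = l then psi a b j k else fun _ => 0) x *
          (if i = k then psi a b i l else fun _ => 0) x =
          if i = k then (if j = l then psi a b j i x * psi a b i j x else 0) else 0 := by
        intro k l
        by_cases hik : i = k
        · by_cases hjl : j = l
          · subst hik; subst hjl; simp
          · simp [hjl]
        · simp [hik]
      simp only [h1, Finset.sum_ite_eq, Finset.mem_univ, if_true]
      have : ∑ k : Fin (m + 2), (∑ l : Fin (m + 2),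
          if i = k then (if j = l then psi a b j i x * psi a b i j x else 0) else 0) =
          psi a b j i x * psi a b i j x := by
        rw [Finset.sum_eq_single i]
        · simp
        · intro k _ hk; simp [Ne.symm hk]
        · simp
      first
        | rw [this]
        | skip
      unfold psi
      field_simp

end

end Pool.Agent.Lib.Pe3602a
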