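import Pool.Agent.Lib.Pe3602a.Curv2

/-!
# Ricci and scalar curvature of the metrics `δᵢⱼ + uᵢ uⱼ`
-/

open MeasureTheory Filter Topology
open scoped ContDiff ENNReal

namespace Pool.Agent.Lib.Pe3602a

variable {m : ℕ} {a b : ℝ → ℝ}

theorem ricci_gmet_zero_zero (ha : Differentiable ℝ a) (hb : Differentiable ℝ b)
    (ha' : Differentiable ℝ (deriv a)) (hb' : Differentiable ℝ (deriv b))
    (x : Fin (m + 2) → ℝ) :
    ricci (gmet m a b) 0 0 x =
      deriv a (x 0) * deriv b (x 1) / W2 a b x ^ 2 * (1 + a (x 0) ^ 2) := by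
  have hW := (W2_pos (a := a) (b := b) x).ne'
  rw [ricci_gmet_aux ha hb, if_pos rfl, if_pos rfl, pd_zero_psi_zero_one ha hb ha' hb',
    svec_zero, uvec_zero]
  have e : a (x 0) ^ 2 = W2 a b x - 1 - b (x 1) ^ 2 := by unfold W2; ring
  field_simp
  rw [e]
  ring

theorem ricci_gmet_one_one (ha : Differentiable ℝ a) (hb : Differentiable ℝ b)
    (ha' : Differentiable ℝ (deriv a)) (hb' : Differentiable ℝ (deriv b))
    (x : Fin (m + 2) → ℝ) :
    ricci (gmet m a b) 1 1 x =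
      deriv a (x 0) * deriv b (x 1) / W2 a b x ^ 2 * (1 + b (x 1) ^ 2) := by
  have hW := (W2_pos (a := a) (b := b) x).ne'
  rw [ricci_gmet_aux ha hb, if_pos rfl, if_pos rfl, pd_zero_psi_one_zero ha hb ha' hb',
    svec_one, uvec_one]
  have e : b (x 1) ^ 2 = W2 a b x - 1 - a (x 0) ^ 2 := by unfold W2; ring
  field_simp
  rw [e]
  ring

theorem ricci_gmet_zero_one (ha : Differentiable ℝ a) (hb : Differentiable ℝ b)
    (ha' : Differentiable ℝ (deriv a)) (hb' : Differentiable ℝ (deriv b))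
    (x : Fin (m + 2) → ℝ) :
    ricci (gmet m a b) 0 1 x =
      deriv a (x 0) * deriv b (x 1) / W2 a b x ^ 2 * (a (x 0) * b (x 1)) := by
  have hW := (W2_pos (a := a) (b := b) x).ne'
  have h01 : (0 : Fin (m + 2)) ≠ 1 := by simp
  rw [ricci_gmet_aux ha hb, if_neg h01, if_neg h01, pd_one_psi_zero_zero ha hb ha' hb',
    svec_zero, svec_one, uvec_zero, uvec_one]
  field_simp
  ring

theorem ricci_gmet_one_zero (ha : Differentiable ℝ a) (hb : Differentiable ℝ b)
    (ha' : Differentiable ℝ (deriv a)) (hb' : Differentiable ℝ (deriv b))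
    (x : Fin (m + 2) → ℝ) :
    ricci (gmet m a b) 1 0 x =
      deriv a (x 0) * deriv b (x 1) / W2 a b x ^ 2 * (a (x 0) * b (x 1)) := by
  have hW := (W2_pos (a := a) (b := b) x).ne'
  have h10 : (1 : Fin (m + 2)) ≠ 0 := by simp
  rw [ricci_gmet_aux ha hb, if_neg h10, if_neg h10, pd_zero_psi_one_one ha hb ha' hb',
    svec_zero, svec_one, uvec_zero, uvec_one]
  field_simp
  ring

theorem ricci_gmet_other_left (ha : Differentiable ℝ a) (hb : Differentiable ℝ b)
    {i : Fin (m + 2)} (h0 : i ≠ 0) (h1 : i ≠ 1) (j : Fin (m + 2)) (x : Fin (m + 2) → ℝ) :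
    ricci (gmet m a b) i j x = 0 := by
  rw [ricci_gmet_aux ha hb, psi_other_left h0 h1, psi_other_left h0 h1, psi_other_left h0 h1,
    svec_other x h0 h1]
  simp [pd_const]

theorem ricci_gmet_other_right (ha : Differentiable ℝ a) (hb : Differentiable ℝ b)
    (ha' : Differentiable ℝ (deriv a)) (hb' : Differentiable ℝ (deriv b))
    {j : Fin (m + 2)} (h0 : j ≠ 0) (h1 : j ≠ 1) (i : Fin (m + 2)) (x : Fin (m + 2) → ℝ) :
    ricci (gmet m a b) i j x = 0 := by
  by_cases hij : i = j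
  · subst hij; exact ricci_gmet_other_left ha hb h0 h1 i x
  · rw [ricci_gmet_aux ha hb, if_neg hij, if_neg hij, pd_psi_other ha hb ha' hb' i i h0 h1,
      svec_other x h0 h1]
    simp

theorem sum_sum_two (f : Fin (m + 2) → Fin (m + 2) → ℝ)
    (hf : ∀ i j, (i ≠ 0 ∧ i ≠ 1) ∨ (j ≠ 0 ∧ j ≠ 1) → f i j = 0) :
    ∑ i, ∑ j, f i j = f 0 0 + f 0 1 + (f 1 0 + f 1 1) := by
  rw [sum_two]
  · rw [sum_two, sum_two]
    · intro j h0 h1; exact hf _ _ (Or.inr ⟨h0, h1⟩)
    · intro j h0 h1; exact hf _ _ (Or.inr ⟨h0, h1⟩)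
  · intro i h0 h1
    exact Finset.sum_eq_zero (fun j _ => hf _ _ (Or.inl ⟨h0, h1⟩))

/-- The Ricci quadratic form. -/
theorem ricci_gmet_quad (ha : Differentiable ℝ a) (hb : Differentiable ℝ b)
    (ha' : Differentiable ℝ (deriv a)) (hb' : Differentiable ℝ (deriv b))
    (x w : Fin (m + 2) → ℝ) :
    ∑ i, ∑ j, ricci (gmet m a b) i j x * w i * w j =
      deriv a (x 0) * deriv b (x 1) / W2 a b x ^ 2 *
        (w 0 ^ 2 + w 1 ^ 2 + (a (x 0) * w 0 + b (x 1) * w 1) ^ 2) := by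
  rw [sum_sum_two]
  · rw [ricci_gmet_zero_zero ha hb ha' hb', ricci_gmet_zero_one ha hb ha' hb',
      ricci_gmet_one_zero ha hb ha' hb', ricci_gmet_one_one ha hb ha' hb']
    ring
  · rintro i j (⟨h0, h1⟩ | ⟨h0, h1⟩)
    · rw [ricci_gmet_other_left ha hb h0 h1]; ring
    · rw [ricci_gmet_other_right ha hb ha' hb' h0 h1]; ring

/-- The scalar curvature. -/
theorem scal_gmet (ha : Differentiable ℝ a) (hb : Differentiable ℝ b)
    (ha' : Differentiable ℝ (deriv a)) (hb' : Differentiable ℝ (deriv b))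
    (x : Fin (m + 2) → ℝ) :
    scal (gmet m a b) x = 2 * (deriv a (x 0) * deriv b (x 1)) / W2 a b x ^ 2 := by
  unfold scal
  have hW := (W2_pos (a := a) (b := b) x).ne'
  have h01 : (0 : Fin (m + 2)) ≠ 1 := by simp
  have h10 : (1 : Fin (m + 2)) ≠ 0 := by simp
  rw [sum_sum_two]
  · rw [ricci_gmet_zero_zero ha hb ha' hb', ricci_gmet_zero_one ha hb ha' hb',
      ricci_gmet_one_zero ha hb ha' hb', ricci_gmet_one_one ha hb ha' hb',
      gmet_inv_apply, gmet_inv_apply, gmet_inv_apply, gmet_inv_apply, if_pos rfl, if_pos rfl,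
      if_neg h01, if_neg h10, uvec_zero, uvec_one]
    field_simp
    unfold W2
    ring
  · rintro i j (⟨h0, h1⟩ | ⟨h0, h1⟩)
    · rw [ricci_gmet_other_left ha hb h0 h1]; ring
    · rw [ricci_gmet_other_right ha hb ha' hb' h0 h1]; ring

theorem ricciGe_gmet (ha : Differentiable ℝ a) (hb : Differentiable ℝ b)
    (ha' : Differentiable ℝ (deriv a)) (hb' : Differentiable ℝ (deriv b))
    (ha0 : ∀ t, 0 ≤ deriv a t) (hb0 : ∀ t, 0 ≤ deriv b t) (lam : ℝ) (hlam : 0 ≤ lam) :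
    RicciGe (gmet m a b) lam := by
  intro x w
  rw [ricci_gmet_quad ha hb ha' hb', gmet_quad]
  have h1 : 0 ≤ deriv a (x 0) * deriv b (x 1) / W2 a b x ^ 2 *
        (w 0 ^ 2 + w 1 ^ 2 + (a (x 0) * w 0 + b (x 1) * w 1) ^ 2) := by
    have := ha0 (x 0)
    have := hb0 (x 1)
    positivity
  have h2 : 0 ≤ ∑ i, w i ^ 2 + (a (x 0) * w 0 + b (x 1) * w 1) ^ 2 := by positivity
  nlinarith [mul_nonneg hlam h2]

theorem scal_mul_sqrt_det (ha : Differentiable ℝ a) (hb : Differentiable ℝ b)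
    (ha' : Differentiable ℝ (deriv a)) (hb' : Differentiable ℝ (deriv b))
    (x : Fin (m + 2) → ℝ) :
    scal (gmet m a b) x * √(gmet m a b x).det =
      deriv a (x 0) * (2 * deriv b (x 1) / (W2 a b x * √(W2 a b x))) := by
  rw [scal_gmet ha hb ha' hb', gmet_det]
  have hW := W2_pos (a := a) (b := b) x
  have hs : 0 < √(W2 a b x) := Real.sqrt_pos.mpr hW
  have hss : √(W2 a b x) * √(W2 a b x) = W2 a b x := Real.mul_self_sqrt hW.le
  field_simp
  rw [pow_two, hss]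

end Pool.Agent.Lib.Pe3602a
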