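import Mathlib

/-!
# Riemannian metrics on coordinate space, their curvature, distance and volume,
and pointed Gromov-Hausdorff approximations
-/

open MeasureTheory Filter Topology
open scoped ContDiff ENNReal

namespace Pool.Agent.Lib.Pe3602a

/-- A matrix-valued function on coordinate space `ℝⁿ = (Fin n → ℝ)`. -/
abbrev MetricField (n : ℕ) := (Fin n → ℝ) → Matrix (Fin n) (Fin n) ℝ

/-- `g` is a smooth Riemannian metric on `ℝⁿ`: its entries are smooth functions, and at every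
point the matrix is symmetric and positive definite. -/
def IsRiemannianMetric {n : ℕ} (g : MetricField n) : Prop :=
  (∀ i j, ContDiff ℝ ∞ fun x => g x i j) ∧ ∀ x, (g x).PosDef

/-- The partial derivative `∂ᵢ f`. -/
noncomputable def pd {n : ℕ} (i : Fin n) (f : (Fin n → ℝ) → ℝ) (x : Fin n → ℝ) : ℝ :=
  fderiv ℝ f x (Pi.single i 1)

/-- The Christoffel symbols `Γᵏᵢⱼ = ½ gᵏˡ (∂ᵢ gⱼₗ + ∂ⱼ gᵢₗ - ∂ₗ gᵢⱼ)` of the metric `g`. -/
noncomputable def christoffel {n : ℕ} (g : MetricField n) (k i j : Fin n) (x : Fin n → ℝ) : ℝ :=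
  (1 / 2) * ∑ l, (g x)⁻¹ k l *
    (pd i (fun y => g y j l) x + pd j (fun y => g y i l) x - pd l (fun y => g y i j) x)

/-- The Ricci tensor
`Ricᵢⱼ = ∂ₖ Γᵏᵢⱼ - ∂ⱼ Γᵏᵢₖ + Γᵏₖₗ Γˡᵢⱼ - Γᵏⱼₗ Γˡᵢₖ` of the metric `g`. -/
noncomputable def ricci {n : ℕ} (g : MetricField n) (i j : Fin n) (x : Fin n → ℝ) : ℝ :=
  ∑ k, (pd k (christoffel g k i j) x - pd j (christoffel g k i k) x +
    ∑ l, (christoffel g k k l x * christoffel g l i j x -
      christoffel g k j l x * christoffel g l i k x))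

/-- The scalar curvature `gⁱʲ Ricᵢⱼ` of the metric `g`. -/
noncomputable def scal {n : ℕ} (g : MetricField n) (x : Fin n → ℝ) : ℝ :=
  ∑ i, ∑ j, (g x)⁻¹ i j * ricci g i j x

/-- The Riemannian distance: the infimum of the lengths `∫₀¹ √(g(γ', γ'))` of `C¹` curves `γ`
from `x` to `y`. -/
noncomputable def rdist {n : ℕ} (g : MetricField n) (x y : Fin n → ℝ) : ℝ :=
  sInf {L : ℝ | ∃ γ : ℝ → (Fin n → ℝ), ContDiff ℝ 1 γ ∧ γ 0 = x ∧ γ 1 = y ∧
    L = ∫ t in (0 : ℝ)..1, √(∑ i, ∑ j, g (γ t) i j * deriv γ t i * deriv γ t j)}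

/-- The open ball of centre `x` and radius `r` for the Riemannian distance. -/
def rball {n : ℕ} (g : MetricField n) (x : Fin n → ℝ) (r : ℝ) : Set (Fin n → ℝ) :=
  {y | rdist g x y < r}

/-- `(ℝⁿ, g)` is complete: each Cauchy sequence of the Riemannian distance converges. -/
def IsCompleteMetric {n : ℕ} (g : MetricField n) : Prop :=
  ∀ u : ℕ → (Fin n → ℝ), (∀ ε > 0, ∃ N, ∀ m ≥ N, ∀ k ≥ N, rdist g (u m) (u k) < ε) →
    ∃ a, Tendsto (fun m => rdist g (u m) a) atTop (𝓝 0)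

/-- The Ricci curvature of `g` is bounded below by `-lam`: `Ric(w, w) ≥ -lam g(w, w)`. -/
def RicciGe {n : ℕ} (g : MetricField n) (lam : ℝ) : Prop :=
  ∀ x w : Fin n → ℝ,
    -lam * ∑ i, ∑ j, g x i j * w i * w j ≤ ∑ i, ∑ j, ricci g i j x * w i * w j

/-- The Riemannian volume `∫_A √(det g) dx`. -/
noncomputable def rvol {n : ℕ} (g : MetricField n) (A : Set (Fin n → ℝ)) : ℝ≥0∞ :=
  ∫⁻ x in A, ENNReal.ofReal (√(g x).det)

/-- The maps `φ j`, defined on the balls `B(0, 1 / ε j)` of `(ℝⁿ, g j)`, are pointed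
Gromov-Hausdorff approximations from `(ℝⁿ, g j, 0)` to `(X, q)`, with errors `ε j` tending to
zero. They are Borel, so that measures can be transported by them. -/
structure IsGHApprox {n : ℕ} (g : ℕ → MetricField n) {X : Type} [MetricSpace X]
    [MeasurableSpace X] (q : X) (φ : ℕ → (Fin n → ℝ) → X) (ε : ℕ → ℝ) : Prop where
  eps_pos : ∀ j, 0 < ε j
  eps_lim : Tendsto ε atTop (𝓝 0)
  borel : ∀ j, Measurable (φ j)
  base : ∀ j, dist (φ j 0) q ≤ ε j
  distortion : ∀ j, ∀ a ∈ rball (g j) 0 (1 / ε j), ∀ b ∈ rball (g j) 0 (1 / ε j),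
    |dist (φ j a) (φ j b) - rdist (g j) a b| ≤ ε j
  onto : ∀ j, ∀ y, dist q y < 1 / ε j - ε j →
    ∃ a ∈ rball (g j) 0 (1 / ε j), dist (φ j a) y ≤ ε j

end Pool.Agent.Lib.Pe3602a
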