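import Pool.Agent.Lib.Pe3602a.Defs

/-!
# Basic properties of the Riemannian distance
-/

open MeasureTheory Filter Topology Set
open scoped ContDiff ENNReal

namespace Pool.Agent.Lib.Pe3602a

variable {n : ℕ}

/-- The norm of a tangent vector. -/
noncomputable def gnorm (g : MetricField n) (x w : Fin n → ℝ) : ℝ :=
  √(∑ i, ∑ j, g x i j * w i * w j)

/-- The metric tensor is continuous. -/
def ContMetric (g : MetricField n) : Prop := ∀ i j, Continuous fun x => g x i j

/-- The length of a curve. -/
noncomputable def glen (g : MetricField n) (γ : ℝ → (Fin n → ℝ)) : ℝ :=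
  ∫ t in (0 : ℝ)..1, gnorm g (γ t) (deriv γ t)

theorem gnorm_nonneg (g : MetricField n) (x w : Fin n → ℝ) : 0 ≤ gnorm g x w :=
  Real.sqrt_nonneg _

theorem gnorm_smul (g : MetricField n) (x w : Fin n → ℝ) {c : ℝ} (hc : 0 ≤ c) :
    gnorm g x (c • w) = c * gnorm g x w := by
  unfold gnorm
  have : ∑ i, ∑ j, g x i j * (c • w) i * (c • w) j = c ^ 2 * ∑ i, ∑ j, g x i j * w i * w j := by
    rw [Finset.mul_sum]
    apply Finset.sum_congr rfl; intro i _
    rw [Finset.mul_sum]
    apply Finset.sum_congr rfl; intro j _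
    simp only [Pi.smul_apply, smul_eq_mul]; ring
  rw [this, Real.sqrt_mul (sq_nonneg c), Real.sqrt_sq hc]

theorem gnorm_neg (g : MetricField n) (x w : Fin n → ℝ) :
    gnorm g x (-w) = gnorm g x w := by
  unfold gnorm
  congr 1
  apply Finset.sum_congr rfl; intro i _
  apply Finset.sum_congr rfl; intro j _
  simp only [Pi.neg_apply]; ring

theorem continuous_gnorm {g : MetricField n} (hg : ContMetric g) :
    Continuous fun p : (Fin n → ℝ) × (Fin n → ℝ) => gnorm g p.1 p.2 := by
  unfold gnorm
  apply Continuous.sqrt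
  apply continuous_finsetSum
  intro i _
  apply continuous_finsetSum
  intro j _
  exact (((hg i j).comp continuous_fst).mul ((continuous_apply i).comp continuous_snd)).mul
    ((continuous_apply j).comp continuous_snd)

theorem continuous_speed {g : MetricField n} (hg : ContMetric g) {γ : ℝ → (Fin n → ℝ)}
    (hγ : ContDiff ℝ 1 γ) : Continuous fun t => gnorm g (γ t) (deriv γ t) := by
  have h1 : Continuous (deriv γ) := hγ.continuous_deriv le_rfl
  exact (continuous_gnorm hg).comp (hγ.continuous.prodMk h1)

theorem glen_nonneg (g : MetricField n) (γ : ℝ → (Fin n → ℝ)) : 0 ≤ glen g γ :=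
  intervalIntegral.integral_nonneg zero_le_one (fun _ _ => gnorm_nonneg _ _ _)

theorem rdist_eq (g : MetricField n) (x y : Fin n → ℝ) :
    rdist g x y = sInf {L : ℝ | ∃ γ : ℝ → (Fin n → ℝ), ContDiff ℝ 1 γ ∧ γ 0 = x ∧ γ 1 = y ∧
      L = glen g γ} := rfl

theorem bddBelow_lengths (g : MetricField n) (x y : Fin n → ℝ) :
    BddBelow {L : ℝ | ∃ γ : ℝ → (Fin n → ℝ), ContDiff ℝ 1 γ ∧ γ 0 = x ∧ γ 1 = y ∧
      L = glen g γ} := by
  refine ⟨0, ?_⟩
  rintro L ⟨γ, -, -, -, rfl⟩
  exact glen_nonneg g γ

/-- The segment from `x` to `y`. -/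
def seg (x y : Fin n → ℝ) (t : ℝ) : Fin n → ℝ := x + t • (y - x)

theorem contDiff_seg (x y : Fin n → ℝ) : ContDiff ℝ 1 (seg x y) := by
  unfold seg
  fun_prop

theorem deriv_seg (x y : Fin n → ℝ) (t : ℝ) : deriv (seg x y) t = y - x := by
  have h : HasDerivAt (seg x y) (y - x) t := by
    have := ((hasDerivAt_id t).smul_const (y - x)).const_add x
    rw [one_smul] at this
    exact this
  exact h.deriv

theorem lengths_nonempty (g : MetricField n) (x y : Fin n → ℝ) :
    {L : ℝ | ∃ γ : ℝ → (Fin n → ℝ), ContDiff ℝ 1 γ ∧ γ 0 = x ∧ γ 1 = y ∧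
      L = glen g γ}.Nonempty :=
  ⟨_, seg x y, contDiff_seg x y, by simp [seg], by simp [seg], rfl⟩

theorem rdist_le_glen (g : MetricField n) {γ : ℝ → (Fin n → ℝ)} (hγ : ContDiff ℝ 1 γ) :
    rdist g (γ 0) (γ 1) ≤ glen g γ :=
  csInf_le (bddBelow_lengths g _ _) ⟨γ, hγ, rfl, rfl, rfl⟩

theorem le_rdist (g : MetricField n) {x y : Fin n → ℝ} {c : ℝ}
    (h : ∀ γ : ℝ → (Fin n → ℝ), ContDiff ℝ 1 γ → γ 0 = x → γ 1 = y → c ≤ glen g γ) :
    c ≤ rdist g x y := by
  apply le_csInf (lengths_nonempty g x y)
  rintro L ⟨γ, hγ, h0, h1, rfl⟩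
  exact h γ hγ h0 h1

theorem exists_glen_lt (g : MetricField n) {x y : Fin n → ℝ} {c : ℝ} (h : rdist g x y < c) :
    ∃ γ : ℝ → (Fin n → ℝ), ContDiff ℝ 1 γ ∧ γ 0 = x ∧ γ 1 = y ∧ glen g γ < c := by
  obtain ⟨L, ⟨γ, hγ, h0, h1, rfl⟩, hL⟩ := exists_lt_of_csInf_lt (lengths_nonempty g x y) h
  exact ⟨γ, hγ, h0, h1, hL⟩

theorem rdist_nonneg (g : MetricField n) (x y : Fin n → ℝ) : 0 ≤ rdist g x y :=
  le_rdist g (fun γ _ _ _ => glen_nonneg g γ)

theorem glen_mono {g g' : MetricField n} (hg : ContMetric g) (hg' : ContMetric g') {C : ℝ}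
    (h : ∀ x w, gnorm g x w ≤ C * gnorm g' x w) {γ : ℝ → (Fin n → ℝ)} (hγ : ContDiff ℝ 1 γ) :
    glen g γ ≤ C * glen g' γ := by
  unfold glen
  rw [← intervalIntegral.integral_const_mul]
  apply intervalIntegral.integral_mono_on zero_le_one
  · exact (continuous_speed hg hγ).intervalIntegrable _ _
  · exact ((continuous_speed hg' hγ).const_mul C).intervalIntegrable _ _
  · intro t _; exact h _ _

theorem rdist_mono {g g' : MetricField n} (hg : ContMetric g) (hg' : ContMetric g') {C : ℝ}
    (hC : 0 ≤ C) (h : ∀ x w, gnorm g x w ≤ C * gnorm g' x w) (x y : Fin n → ℝ) :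
    rdist g x y ≤ C * rdist g' x y := by
  rcases hC.eq_or_lt with rfl | hC
  · have h0 := rdist_le_glen g (contDiff_seg x y)
    have h1 := glen_mono hg hg' h (contDiff_seg x y)
    have e0 : seg x y 0 = x := by simp [seg]
    have e1 : seg x y 1 = y := by simp [seg]
    rw [e0, e1] at h0
    linarith
  · rw [mul_comm, ← div_le_iff₀ hC]
    apply le_rdist
    intro γ hγ h0 h1
    rw [div_le_iff₀ hC, mul_comm, ← h0, ← h1]
    exact (rdist_le_glen g hγ).trans (glen_mono hg hg' h hγ)

/-- Lower bound by the coordinate distance. -/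
theorem dist_le_rdist {g : MetricField n} (hg : ContMetric g)
    (h : ∀ x w i, |w i| ≤ gnorm g x w) (x y : Fin n → ℝ) : dist x y ≤ rdist g x y := by
  apply le_rdist
  intro γ hγ h0 h1
  rw [dist_pi_le_iff (glen_nonneg g γ)]
  intro i
  have hγi : ContDiff ℝ 1 fun t => γ t i := (contDiff_apply ℝ ℝ i).comp hγ
  have hd : ∀ t, deriv (fun t => γ t i) t = deriv γ t i := by
    intro t
    have := (hasDerivAt_pi.mp ((hγ.differentiable one_ne_zero) t).hasDerivAt) i
    exact this.deriv
  have e : y i - x i = ∫ t in (0 : ℝ)..1, deriv (fun t => γ t i) t := by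
    rw [intervalIntegral.integral_deriv_eq_sub (fun t _ => (hγi.differentiable one_ne_zero) t)
      ((hγi.continuous_deriv le_rfl).intervalIntegrable _ _), h0, h1]
  rw [dist_comm, Real.dist_eq, e]
  have h2 := intervalIntegral.norm_integral_le_integral_norm (μ := volume)
    (f := fun t => deriv (fun t => γ t i) t) zero_le_one
  rw [Real.norm_eq_abs] at h2
  refine h2.trans ?_
  apply intervalIntegral.integral_mono_on zero_le_one
  · exact (hγi.continuous_deriv le_rfl).norm.intervalIntegrable _ _
  · exact (continuous_speed hg hγ).intervalIntegrable _ _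
  · intro t _
    rw [hd, Real.norm_eq_abs]
    exact h _ _ _

/-- Upper bound by the segment. -/
theorem rdist_le_seg {g : MetricField n} (hg : ContMetric g) {x y : Fin n → ℝ} {C : ℝ}
    (h : ∀ z, gnorm g z (y - x) ≤ C) : rdist g x y ≤ C := by
  have h0 := rdist_le_glen g (contDiff_seg x y)
  have e0 : seg x y 0 = x := by simp [seg]
  have e1 : seg x y 1 = y := by simp [seg]
  rw [e0, e1] at h0
  refine h0.trans ?_
  have : glen g (seg x y) ≤ ∫ t in (0 : ℝ)..1, C := by
    apply intervalIntegral.integral_mono_on zero_le_one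
    · exact (continuous_speed hg (contDiff_seg x y)).intervalIntegrable _ _
    · exact continuous_const.intervalIntegrable _ _
    · intro t _
      rw [deriv_seg]; exact h _
  simpa using this

theorem rdist_self {g : MetricField n} (hg : ContMetric g) (x : Fin n → ℝ) :
    rdist g x x = 0 := by
  apply le_antisymm _ (rdist_nonneg g x x)
  apply rdist_le_seg hg
  intro z
  simp [gnorm]

theorem rdist_comm_le {g : MetricField n} (x y : Fin n → ℝ) :
    rdist g y x ≤ rdist g x y := by
  apply le_rdist
  intro γ hγ h0 h1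
  have hη : ContDiff ℝ 1 (fun t : ℝ => γ (1 - t)) := hγ.comp (contDiff_const.sub contDiff_id)
  have h2 := rdist_le_glen g hη
  simp only [sub_zero, sub_self, h0, h1] at h2
  refine h2.trans (le_of_eq ?_)
  unfold glen
  have hd : ∀ t, deriv (fun t : ℝ => γ (1 - t)) t = - deriv γ (1 - t) := by
    intro t
    have h3 : HasDerivAt (fun t : ℝ => 1 - t) (-1) t := by
      simpa using (hasDerivAt_id t).const_sub 1
    have h4 := (((hγ.differentiable one_ne_zero) (1 - t)).hasDerivAt).scomp t h3
    have h5 := h4.deriv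
    simp only [neg_smul, one_smul] at h5
    exact h5
  simp only [hd, gnorm_neg]
  rw [intervalIntegral.integral_comp_sub_left (fun t => gnorm g (γ t) (deriv γ t)) 1]
  simp

theorem rdist_comm (g : MetricField n) (x y : Fin n → ℝ) : rdist g x y = rdist g y x :=
  le_antisymm (rdist_comm_le y x) (rdist_comm_le x y)

/-- Reparametrised concatenation. -/
theorem rdist_triangle {g : MetricField n} (hg : ContMetric g) (x y z : Fin n → ℝ) :
    rdist g x z ≤ rdist g x y + rdist g y z := by
  apply le_of_forall_pos_lt_add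
  intro ε hε
  obtain ⟨γ₁, hγ₁, h10, h11, hl1⟩ := exists_glen_lt g (c := rdist g x y + ε / 2)
    (x := x) (y := y) (by linarith)
  obtain ⟨γ₂, hγ₂, h20, h21, hl2⟩ := exists_glen_lt g (c := rdist g y z + ε / 2)
    (x := y) (y := z) (by linarith)
  have hS : ContDiff ℝ 1 Real.smoothTransition := Real.smoothTransition.contDiff
  have hu1 : ContDiff ℝ 1 (fun t : ℝ => Real.smoothTransition (2 * t)) :=
    hS.comp (contDiff_const.mul contDiff_id)
  have hu2 : ContDiff ℝ 1 (fun t : ℝ => Real.smoothTransition (2 * t - 1)) :=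
    hS.comp ((contDiff_const.mul contDiff_id).sub contDiff_const)
  set γ : ℝ → (Fin n → ℝ) := fun t => γ₁ (Real.smoothTransition (2 * t)) +
    (γ₂ (Real.smoothTransition (2 * t - 1)) - y) with hγdef
  have hγ : ContDiff ℝ 1 γ := (hγ₁.comp hu1).add ((hγ₂.comp hu2).sub contDiff_const)
  have hγ0 : γ 0 = x := by
    simp only [hγdef, mul_zero, Real.smoothTransition.zero, zero_sub]
    rw [Real.smoothTransition.zero_of_nonpos (by norm_num), h10, h20]; simp
  have hγ1 : γ 1 = z := by
    simp only [hγdef, mul_one]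
    rw [Real.smoothTransition.one_of_one_le (by norm_num),
      Real.smoothTransition.one_of_one_le (by norm_num), h11, h21]; simp
  have hmain : glen g γ = glen g γ₁ + glen g γ₂ := by
    have hc := continuous_speed hg hγ
    unfold glen
    rw [← intervalIntegral.integral_add_adjacent_intervals (b := 1 / 2)
      (hc.intervalIntegrable _ _) (hc.intervalIntegrable _ _)]
    congr 1
    · -- first half
      have e1 : ∀ t ∈ Ioo (0 : ℝ) (1 / 2), gnorm g (γ t) (deriv γ t) =
          (fun s => gnorm g (γ₁ s) (deriv γ₁ s)) (Real.smoothTransition (2 * t)) *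
            deriv (fun t : ℝ => Real.smoothTransition (2 * t)) t := by
        intro t ht
        have hev : γ =ᶠ[𝓝 t] fun s => γ₁ (Real.smoothTransition (2 * s)) := by
          filter_upwards [Ioo_mem_nhds ht.1 ht.2] with s hs
          simp only [hγdef]
          rw [Real.smoothTransition.zero_of_nonpos (x := 2 * s - 1) (by linarith [hs.2]), h20]
          simp
        rw [hev.deriv_eq, hev.eq_of_nhds]
        have hd := ((hγ₁.differentiable one_ne_zero)
          (Real.smoothTransition (2 * t))).hasDerivAt.scomp t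
          ((hu1.differentiable one_ne_zero) t).hasDerivAt
        have hd' : deriv (fun s => γ₁ (Real.smoothTransition (2 * s))) t =
            deriv (fun t : ℝ => Real.smoothTransition (2 * t)) t •
              deriv γ₁ (Real.smoothTransition (2 * t)) := hd.deriv
        rw [hd', gnorm_smul, mul_comm]
        have hmono : Monotone (fun t : ℝ => Real.smoothTransition (2 * t)) :=
          Real.smoothTransition.monotone.comp (fun a b h => by simpa using h)
        exact hmono.deriv_nonneg
      rw [intervalIntegral.integral_congr_Ioo_of_le (by norm_num) e1]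
      have := intervalIntegral.integral_comp_mul_deriv (a := 0) (b := 1 / 2)
        (f := fun t : ℝ => Real.smoothTransition (2 * t))
        (f' := deriv (fun t : ℝ => Real.smoothTransition (2 * t)))
        (g := fun s => gnorm g (γ₁ s) (deriv γ₁ s))
        (fun t _ => ((hu1.differentiable one_ne_zero) t).hasDerivAt)
        (hu1.continuous_deriv le_rfl).continuousOn (continuous_speed hg hγ₁)
      simp only [Function.comp_def] at this
      rw [this]
      simp only [mul_zero, Real.smoothTransition.zero]
      rw [show (2 : ℝ) * (1 / 2) = 1 by norm_num, Real.smoothTransition.one]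
    · -- second half
      have e1 : ∀ t ∈ Ioo (1 / 2 : ℝ) 1, gnorm g (γ t) (deriv γ t) =
          (fun s => gnorm g (γ₂ s) (deriv γ₂ s)) (Real.smoothTransition (2 * t - 1)) *
            deriv (fun t : ℝ => Real.smoothTransition (2 * t - 1)) t := by
        intro t ht
        have hev : γ =ᶠ[𝓝 t] fun s => γ₂ (Real.smoothTransition (2 * s - 1)) := by
          filter_upwards [Ioo_mem_nhds ht.1 ht.2] with s hs
          simp only [hγdef]
          rw [Real.smoothTransition.one_of_one_le (x := 2 * s) (by linarith [hs.1]), h11]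
          simp
        rw [hev.deriv_eq, hev.eq_of_nhds]
        have hd := ((hγ₂.differentiable one_ne_zero)
          (Real.smoothTransition (2 * t - 1))).hasDerivAt.scomp t
          ((hu2.differentiable one_ne_zero) t).hasDerivAt
        have hd' : deriv (fun s => γ₂ (Real.smoothTransition (2 * s - 1))) t =
            deriv (fun t : ℝ => Real.smoothTransition (2 * t - 1)) t •
              deriv γ₂ (Real.smoothTransition (2 * t - 1)) := hd.deriv
        rw [hd', gnorm_smul, mul_comm]
        have hmono : Monotone (fun t : ℝ => Real.smoothTransition (2 * t - 1)) :=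
          Real.smoothTransition.monotone.comp (fun a b h => by simpa using h)
        exact hmono.deriv_nonneg
      rw [intervalIntegral.integral_congr_Ioo_of_le (by norm_num) e1]
      have := intervalIntegral.integral_comp_mul_deriv (a := 1 / 2) (b := 1)
        (f := fun t : ℝ => Real.smoothTransition (2 * t - 1))
        (f' := deriv (fun t : ℝ => Real.smoothTransition (2 * t - 1)))
        (g := fun s => gnorm g (γ₂ s) (deriv γ₂ s))
        (fun t _ => ((hu2.differentiable one_ne_zero) t).hasDerivAt)
        (hu2.continuous_deriv le_rfl).continuousOn (continuous_speed hg hγ₂)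
      simp only [Function.comp_def] at this
      rw [this]
      rw [show (2 : ℝ) * (1 / 2) - 1 = 0 by norm_num, show (2 : ℝ) * 1 - 1 = 1 by norm_num,
        Real.smoothTransition.one, Real.smoothTransition.zero]
  have := rdist_le_glen g hγ
  rw [hγ0, hγ1, hmain] at this
  linarith

end Pool.Agent.Lib.Pe3602a
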