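import Pool.Agent.Lib.Pe3602a.Main2

/-!
# The limit space exists
-/

open MeasureTheory Measure Filter Topology Set
open scoped ContDiff ENNReal NNReal

namespace Pool.Agent.Lib.Pe3602a

/-- The carrier of the limit space. -/
def XLim (m : ℕ) : Type := Fin (m + 2) → ℝ

/-- The identity map into the limit space. -/
def toXLim {m : ℕ} (x : Fin (m + 2) → ℝ) : XLim m := x

/-- The metric of the limit space. -/
@[reducible] noncomputable def xlimMetric (m : ℕ) {a b : ℝ → ℝ} (ha : Continuous a)
    (hb : Continuous b) : MetricSpace (XLim m) where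
  dist x y := rdist (gmet m a b) x y
  dist_self x := rdist_self (contMetric_gmet ha hb) x
  dist_comm x y := rdist_comm (gmet m a b) x y
  dist_triangle x y z := rdist_triangle (contMetric_gmet ha hb) x y z
  eq_of_dist_eq_zero {x y} h := by
    have h1 := dist_le_rdist_gmet (m := m) ha hb x y
    have h2 : dist (α := Fin (m + 2) → ℝ) x y ≤ 0 := by
      refine h1.trans (le_of_eq ?_)
      exact h
    exact (dist_le_zero (γ := Fin (m + 2) → ℝ)).mp h2

theorem exists_limit_space {m : ℕ} {δ : ℝ} (ν : Measure ℝ) [IsProbabilityMeasure ν]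
    (hδ : 0 < δ) (hν : ∀ x, ν {x} = 0) (hI : ν (Icc 0 2)ᶜ = 0) :
    ∃ (X : Type) (_ : MetricSpace X) (_ : CompleteSpace X) (_ : MeasurableSpace X)
      (_ : BorelSpace X) (q : X) (φ : ℕ → (Fin (m + 2) → ℝ) → X) (ε : ℕ → ℝ),
      IsGHApprox (gseq m ν δ) q φ ε := by
  obtain ⟨τ, hτ0, hτlim, hτ⟩ := exists_tau ν hν hI
  have hac : Continuous (ainf ν δ) := continuous_ainf ν hν
  have hbc : Continuous (bfun δ) := continuous_bfun
  letI M : MetricSpace (XLim m) := xlimMetric m hac hbc
  letI B : MeasurableSpace (XLim m) := borel (XLim m)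
  haveI hB : BorelSpace (XLim m) := ⟨rfl⟩
  have hdist : ∀ x y : XLim m, dist x y = rdist (gmet m (ainf ν δ) (bfun δ)) x y := fun _ _ => rfl
  have hup := rdist_gmet_le (m := m) hac hbc (abs_ainf_le ν hδ.le) (abs_bfun_le hδ.le)
  have hlow := dist_le_rdist_gmet (m := m) hac hbc
  -- comparison of the distances
  set η : ℕ → ℝ := fun j => δ * τ j with hη
  have hη0 : ∀ j, 0 ≤ η j := fun j => mul_nonneg hδ.le (hτ0 j)
  have hηlim : Tendsto η atTop (𝓝 0) := by
    have := hτlim.const_mul δ
    rwa [mul_zero] at this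
  have hab : ∀ j t, |afun ν δ j t - ainf ν δ t| ≤ η j := by
    intro j t
    unfold afun ainf
    rw [← mul_sub, abs_mul, abs_of_pos hδ]
    exact mul_le_mul_of_nonneg_left (hτ j t) hδ.le
  have hba : ∀ j t, |ainf ν δ t - afun ν δ j t| ≤ η j := by
    intro j t; rw [abs_sub_comm]; exact hab j t
  have hc1 : ∀ j x y, rdist (gseq m ν δ j) x y ≤
      (1 + η j) * rdist (gmet m (ainf ν δ) (bfun δ)) x y := by
    intro j x y
    exact rdist_mono (contMetric_gmet (continuous_afun ν j) hbc) (contMetric_gmet hac hbc)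
      (by linarith [hη0 j]) (fun x w => gnorm_gmet_compare (hab j) x w) x y
  have hc2 : ∀ j x y, rdist (gmet m (ainf ν δ) (bfun δ)) x y ≤
      (1 + η j) * rdist (gseq m ν δ j) x y := by
    intro j x y
    exact rdist_mono (contMetric_gmet hac hbc) (contMetric_gmet (continuous_afun ν j) hbc)
      (by linarith [hη0 j]) (fun x w => gnorm_gmet_compare (hba j) x w) x y
  -- the errors
  set ε : ℕ → ℝ := fun j => 2 * √(η j) * (1 + η j) + 1 / ((j : ℝ) + 1) with hε
  have hεpos : ∀ j, 0 < ε j := by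
    intro j
    have := hη0 j
    simp only [hε]
    positivity
  have hεsq : ∀ j, 4 * η j * (1 + η j) ^ 2 ≤ ε j ^ 2 := by
    intro j
    have h0 := hη0 j
    have h1 : 2 * √(η j) * (1 + η j) ≤ ε j := by
      simp only [hε]
      have : (0 : ℝ) ≤ 1 / ((j : ℝ) + 1) := by positivity
      linarith
    have h2 : (2 * √(η j) * (1 + η j)) ^ 2 ≤ ε j ^ 2 :=
      pow_le_pow_left₀ (by positivity) h1 2
    have h3 : (2 * √(η j) * (1 + η j)) ^ 2 = 4 * η j * (1 + η j) ^ 2 := by
      rw [mul_pow, mul_pow, Real.sq_sqrt h0]; ring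
    linarith
  have hεlim : Tendsto ε atTop (𝓝 0) := by
    have h1 : Tendsto (fun j => 2 * √(η j) * (1 + η j)) atTop (𝓝 (2 * √0 * (1 + 0))) :=
      (hηlim.sqrt.const_mul 2).mul (tendsto_const_nhds.add hηlim)
    have h2 := h1.add (tendsto_one_div_add_atTop_nhds_zero_nat (𝕜 := ℝ))
    rw [Real.sqrt_zero, mul_zero, zero_mul, zero_add] at h2
    exact h2
  have hcont : Continuous (toXLim (m := m)) := by
    rw [continuous_iff_continuousAt]
    intro x
    rw [ContinuousAt, tendsto_iff_dist_tendsto_zero]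
    have h1 : Tendsto (fun y : Fin (m + 2) → ℝ => CL m (2 * δ) * dist y x) (𝓝 x)
        (𝓝 (CL m (2 * δ) * 0)) :=
      (tendsto_iff_dist_tendsto_zero.mp tendsto_id).const_mul _
    rw [mul_zero] at h1
    exact squeeze_zero (fun y => dist_nonneg) (fun y => hup y x) h1
  have hcomplete : CompleteSpace (XLim m) := by
    apply Metric.complete_of_cauchySeq_tendsto
    intro u hu
    have h1 := isCompleteMetric_of_biLipschitz hlow hup u (by
      intro e he
      rw [Metric.cauchySeq_iff] at hu
      obtain ⟨N, hN⟩ := hu e he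
      exact ⟨N, fun i hi j hj => hN i hi j hj⟩)
    obtain ⟨a, ha⟩ := h1
    refine ⟨a, ?_⟩
    rw [tendsto_iff_dist_tendsto_zero]
    exact ha
  refine ⟨XLim m, M, hcomplete, B, hB, toXLim 0, fun _ => toXLim, ε,
    ⟨hεpos, hεlim, fun j => ?_, fun j => ?_, ?_, ?_⟩⟩
  · exact hcont.measurable
  · rw [dist_self]; exact (hεpos j).le
  · intro j a ha b hb
    have h0 := hη0 j
    have hej := hεpos j
    have ha' : rdist (gseq m ν δ j) 0 a < 1 / ε j := ha
    have hb' : rdist (gseq m ν δ j) 0 b < 1 / ε j := hb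
    have hdab : rdist (gseq m ν δ j) a b ≤ 2 / ε j := by
      have h1 := rdist_triangle (contMetric_gmet (m := m) (continuous_afun (δ := δ) ν j) hbc) a 0 b
      rw [rdist_comm _ a 0] at h1
      have h2 : rdist (gseq m ν δ j) a b ≤ rdist (gseq m ν δ j) 0 a + rdist (gseq m ν δ j) 0 b := h1
      have h3 : 2 / ε j = 1 / ε j + 1 / ε j := by ring
      linarith
    have hnn := rdist_nonneg (gseq m ν δ j) a b
    have h1 := hc1 j a b
    have h2 := hc2 j a b
    have h3 := rdist_nonneg (gmet m (ainf ν δ) (bfun δ)) a b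
    have hbound : η j * (1 + η j) * rdist (gseq m ν δ j) a b ≤ ε j := by
      calc η j * (1 + η j) * rdist (gseq m ν δ j) a b ≤ η j * (1 + η j) * (2 / ε j) :=
            mul_le_mul_of_nonneg_left hdab (by positivity)
        _ = (2 * η j * (1 + η j)) / ε j := by ring
        _ ≤ ε j := by
            rw [div_le_iff₀ hej, ← pow_two]
            refine le_trans ?_ (hεsq j)
            nlinarith [mul_nonneg h0 h0, mul_nonneg (mul_nonneg h0 h0) h0]
    change |rdist (gmet m (ainf ν δ) (bfun δ)) a b - rdist (gseq m ν δ j) a b| ≤ ε j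
    rw [abs_le]
    constructor
    · -- d_j - d_∞ ≤ η d_∞ ≤ η (1+η) d_j
      have h4 : η j * rdist (gmet m (ainf ν δ) (bfun δ)) a b ≤
          η j * ((1 + η j) * rdist (gseq m ν δ j) a b) := mul_le_mul_of_nonneg_left h2 h0
      nlinarith
    · have h4 : η j * rdist (gseq m ν δ j) a b ≤ η j * (1 + η j) * rdist (gseq m ν δ j) a b := by
        apply mul_le_mul_of_nonneg_right _ hnn
        nlinarith
      nlinarith
  · intro j y hy
    refine ⟨(show Fin (m + 2) → ℝ from y), ?_, ?_⟩
    · change rdist (gseq m ν δ j) 0 y < 1 / ε j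
      have hy' : rdist (gmet m (ainf ν δ) (bfun δ)) 0 y < 1 / ε j - ε j := hy
      have h0 := hη0 j
      have hej := hεpos j
      have h1 := hc1 j 0 y
      have h3 := rdist_nonneg (gmet m (ainf ν δ) (bfun δ)) 0 y
      have h4 : rdist (gmet m (ainf ν δ) (bfun δ)) 0 y ≤ 1 / ε j := by linarith
      have h5 : η j * rdist (gmet m (ainf ν δ) (bfun δ)) 0 y ≤ ε j := by
        calc η j * rdist (gmet m (ainf ν δ) (bfun δ)) 0 y ≤ η j * (1 / ε j) :=
              mul_le_mul_of_nonneg_left h4 h0
          _ = η j / ε j := by ring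
          _ ≤ ε j := by
            rw [div_le_iff₀ hej, ← pow_two]
            refine le_trans ?_ (hεsq j)
            nlinarith [mul_nonneg h0 h0, mul_nonneg (mul_nonneg h0 h0) h0]
      linarith
    · change dist (toXLim y) (toXLim y) ≤ ε j
      rw [dist_self]; exact (hεpos j).le

end Pool.Agent.Lib.Pe3602a
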