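import Mathlib

/-!
# A measure which is not of the form `R dμ₀ + θ dμ₁ + w dμ₂`
-/

open MeasureTheory Measure Filter Topology Set
open scoped ContDiff ENNReal NNReal

namespace Pool.Agent.Lib.Pe3602a

variable {X : Type} [MetricSpace X] [ProperSpace X] [MeasurableSpace X] [BorelSpace X]

/-- Approximations of the indicator of a compact set. -/
noncomputable def apx (K : Set X) (k : ℕ) (y : X) : ℝ :=
  ((thickenedIndicator (δ := 1 / ((k : ℝ) + 1)) (by positivity) K y : ℝ≥0) : ℝ)

theorem continuous_apx (K : Set X) (k : ℕ) : Continuous (apx K k) := by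
  unfold apx
  exact NNReal.continuous_coe.comp (thickenedIndicator _ K).continuous

theorem apx_nonneg (K : Set X) (k : ℕ) (y : X) : 0 ≤ apx K k y := NNReal.coe_nonneg _

theorem apx_le_one (K : Set X) (k : ℕ) (y : X) : apx K k y ≤ 1 := by
  unfold apx
  exact_mod_cast thickenedIndicator_le_one _ K y

theorem apx_zero {K : Set X} {k : ℕ} {y : X} (hy : y ∉ Metric.cthickening 1 K) :
    apx K k y = 0 := by
  unfold apx
  rw [thickenedIndicator_zero]
  · rfl
  · intro h
    apply hy
    have h1 : Metric.thickening (1 / ((k : ℝ) + 1)) K ⊆ Metric.cthickening 1 K := by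
      refine (Metric.thickening_subset_cthickening _ _).trans (Metric.cthickening_mono ?_ K)
      rw [div_le_one (by positivity)]
      have : (0 : ℝ) ≤ k := by positivity
      linarith
    exact h1 h

theorem hasCompactSupport_apx {K : Set X} (hK : IsCompact K) (k : ℕ) :
    HasCompactSupport (apx K k) := by
  apply HasCompactSupport.intro (hK.cthickening (r := 1))
  intro y hy
  exact apx_zero hy

theorem tendsto_apx {K : Set X} (hK : IsCompact K) (y : X) :
    Tendsto (fun k => apx K k y) atTop (𝓝 (K.indicator (fun _ => (1 : ℝ)) y)) := by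
  have h1 := thickenedIndicator_tendsto_indicator_closure
    (δseq := fun k : ℕ => 1 / ((k : ℝ) + 1)) (fun k => by positivity)
    tendsto_one_div_add_atTop_nhds_zero_nat K
  rw [hK.isClosed.closure_eq] at h1
  have h2 := (tendsto_pi_nhds.mp h1) y
  have h3 := (NNReal.continuous_coe.tendsto _).comp h2
  have e : K.indicator (fun _ => (1 : ℝ)) y = ((K.indicator (fun _ => (1 : ℝ≥0)) y : ℝ≥0) : ℝ) := by
    by_cases hy : y ∈ K <;> simp [hy]
  rw [e]
  exact h3

theorem tendsto_integral_apx {μ : Measure X} {f : X → ℝ} (hf : LocallyIntegrable f μ)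
    {K : Set X} (hK : IsCompact K) :
    Tendsto (fun k => ∫ y, apx K k y * f y ∂μ) atTop (𝓝 (∫ y in K, f y ∂μ)) := by
  have hK1 : IsCompact (Metric.cthickening 1 K) := hK.cthickening
  have hint : IntegrableOn f (Metric.cthickening 1 K) μ := hf.integrableOn_isCompact hK1
  have hm1 : MeasurableSet (Metric.cthickening 1 K) := hK1.measurableSet
  rw [← integral_indicator hK.measurableSet]
  have e : ∀ k y, apx K k y * f y =
      apx K k y * (Metric.cthickening 1 K).indicator f y := by
    intro k y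
    by_cases hy : y ∈ Metric.cthickening 1 K
    · rw [indicator_of_mem hy]
    · rw [apx_zero hy, zero_mul, zero_mul]
  simp only [e]
  apply tendsto_integral_of_dominated_convergence
    (fun y => ‖(Metric.cthickening 1 K).indicator f y‖)
  · intro k
    exact (continuous_apx K k).aestronglyMeasurable.mul
      (hint.integrable_indicator hm1).aestronglyMeasurable
  · exact (hint.integrable_indicator hm1).norm
  · intro k
    filter_upwards with y
    rw [norm_mul, Real.norm_eq_abs (apx K k y), abs_of_nonneg (apx_nonneg K k y)]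
    exact mul_le_of_le_one_left (norm_nonneg _) (apx_le_one K k y)
  · filter_upwards with y
    have h1 := (tendsto_apx hK y).mul_const ((Metric.cthickening 1 K).indicator f y)
    have h2 : K.indicator (fun _ => (1 : ℝ)) y * (Metric.cthickening 1 K).indicator f y =
        K.indicator f y := by
      by_cases hy : y ∈ K
      · have hy1 : y ∈ Metric.cthickening 1 K := Metric.self_subset_cthickening K hy
        simp [hy, hy1]
      · simp [hy]
    rw [h2] at h1
    exact h1

/-- If `μ₁` is such that sets of finite `μ₁` measure are, up to `μ₁` null sets, contained in `M`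
null sets, then a locally integrable function vanishes `μ₁`-almost everywhere outside an `M` null
set. -/
theorem exists_null_of_locallyIntegrable {M μ₁ : Measure X} (q : X)
    (h1 : ∀ T, MeasurableSet T → μ₁ T < ⊤ → ∃ N, MeasurableSet N ∧ M N = 0 ∧ μ₁ (T \ N) = 0)
    {θ : X → ℝ} (hθ : LocallyIntegrable θ μ₁) :
    ∃ N, MeasurableSet N ∧ M N = 0 ∧ ∀ K, MeasurableSet K → Disjoint K N →
      ∫ y in K, θ y ∂μ₁ = 0 := by
  -- level sets
  have key : ∀ k j : ℕ, ∃ N, MeasurableSet N ∧ M N = 0 ∧
      μ₁ ((Metric.closedBall q k ∩ {y | 1 / ((j : ℝ) + 1) ≤ ‖θ y‖}) \ N) = 0 := by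
    intro k j
    have hint : IntegrableOn θ (Metric.closedBall q k) μ₁ :=
      hθ.integrableOn_isCompact (isCompact_closedBall _ _)
    have h2 := hint.measure_norm_ge_lt_top (ε := 1 / ((j : ℝ) + 1)) (by positivity)
    set L : Set X := {y | 1 / ((j : ℝ) + 1) ≤ ‖θ y‖} with hL
    set T := toMeasurable (μ₁.restrict (Metric.closedBall q k)) L with hT
    have hTm : MeasurableSet T := measurableSet_toMeasurable _ _
    have h3 : μ₁ (T ∩ Metric.closedBall q k) < ⊤ := by
      have : (μ₁.restrict (Metric.closedBall q k)) T < ⊤ := by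
        rw [hT, measure_toMeasurable]; exact h2
      rwa [restrict_apply hTm] at this
    obtain ⟨N, hN1, hN2, hN3⟩ := h1 _ (hTm.inter measurableSet_closedBall) h3
    refine ⟨N, hN1, hN2, ?_⟩
    apply measure_mono_null _ hN3
    intro y hy
    exact ⟨⟨subset_toMeasurable _ _ hy.1.2, hy.1.1⟩, hy.2⟩
  choose N hNm hNM hN1 using key
  refine ⟨⋃ k, ⋃ j, N k j, MeasurableSet.iUnion (fun k => MeasurableSet.iUnion (fun j => hNm k j)),
    ?_, ?_⟩
  · rw [measure_iUnion_null_iff]
    intro k
    rw [measure_iUnion_null_iff]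
    intro j
    exact hNM k j
  · intro K hK hdisj
    apply setIntegral_eq_zero_of_ae_eq_zero
    rw [ae_iff]
    apply measure_mono_null (t := ⋃ k : ℕ, ⋃ j : ℕ,
      (Metric.closedBall q k ∩ {y | 1 / ((j : ℝ) + 1) ≤ ‖θ y‖}) \ N k j)
    · intro y hy
      simp only [mem_ofPred_eq, Classical.not_imp] at hy
      obtain ⟨hyK, hyθ⟩ := hy
      obtain ⟨k, hk⟩ := exists_nat_ge (dist y q)
      obtain ⟨j, hj⟩ := exists_nat_one_div_lt (norm_pos_iff.mpr hyθ)
      simp only [mem_iUnion]
      refine ⟨k, j, ⟨⟨?_, ?_⟩, ?_⟩⟩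
      · rw [Metric.mem_closedBall]; exact hk
      · exact hj.le
      · intro hN
        exact Set.disjoint_left.mp hdisj hyK (mem_iUnion.mpr ⟨k, mem_iUnion.mpr ⟨j, hN⟩⟩)
    · rw [measure_iUnion_null_iff]
      intro k
      rw [measure_iUnion_null_iff]
      intro j
      exact hN1 k j

/-- The main representation obstruction. -/
theorem not_form {M μ₀ μ₁ μ₂ : Measure X} [IsFiniteMeasureOnCompacts M] (hM : M ≠ 0) (q : X)
    (h0 : ∃ Z, MeasurableSet Z ∧ μ₀ Z = 0 ∧ M Zᶜ = 0)
    (h1 : ∀ T, MeasurableSet T → μ₁ T < ⊤ → ∃ N, MeasurableSet N ∧ M N = 0 ∧ μ₁ (T \ N) = 0)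
    (h2 : ∀ T, MeasurableSet T → μ₂ T < ⊤ → ∃ N, MeasurableSet N ∧ M N = 0 ∧ μ₂ (T \ N) = 0)
    {R θ w : X → ℝ} (hR : LocallyIntegrable R μ₀) (hθ : LocallyIntegrable θ μ₁)
    (hw : LocallyIntegrable w μ₂) :
    ¬ ∀ f : X → ℝ, Continuous f → HasCompactSupport f →
      ∫ y, f y ∂M = ∫ y, f y * R y ∂μ₀ + ∫ y, f y * θ y ∂μ₁ + ∫ y, f y * w y ∂μ₂ := by
  intro H
  obtain ⟨Z, hZm, hZ0, hZM⟩ := h0
  obtain ⟨N₁, hN₁m, hN₁M, hN₁⟩ := exists_null_of_locallyIntegrable q h1 hθ
  obtain ⟨N₂, hN₂m, hN₂M, hN₂⟩ := exists_null_of_locallyIntegrable q h2 hw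
  -- equality on compact sets
  have hK : ∀ K : Set X, IsCompact K → (M K).toReal =
      ∫ y in K, R y ∂μ₀ + ∫ y in K, θ y ∂μ₁ + ∫ y in K, w y ∂μ₂ := by
    intro K hK
    have hl1 : LocallyIntegrable (fun _ : X => (1 : ℝ)) M := locallyIntegrable_const _
    have t0 := tendsto_integral_apx hl1 hK
    have t1 := tendsto_integral_apx hR hK
    have t2 := tendsto_integral_apx hθ hK
    have t3 := tendsto_integral_apx hw hK
    have t4 := (t1.add t2).add t3
    have e : ∀ k, ∫ y, apx K k y * 1 ∂M =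
        ∫ y, apx K k y * R y ∂μ₀ + ∫ y, apx K k y * θ y ∂μ₁ + ∫ y, apx K k y * w y ∂μ₂ := by
      intro k
      simp only [mul_one]
      exact H _ (continuous_apx K k) (hasCompactSupport_apx hK k)
    simp only [e] at t0
    have t5 := tendsto_nhds_unique t0 t4
    rw [← t5]
    simp [Measure.real]
  -- the good set
  set A : Set X := Z \ (N₁ ∪ N₂) with hA
  have hAm : MeasurableSet A := hZm.diff (hN₁m.union hN₂m)
  have hAc : M Aᶜ = 0 := by
    have : Aᶜ ⊆ Zᶜ ∪ (N₁ ∪ N₂) := by
      intro y hy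
      by_cases h : y ∈ Z
      · right
        by_contra hc
        exact hy ⟨h, hc⟩
      · left; exact h
    apply measure_mono_null this
    rw [measure_union_null_iff, measure_union_null_iff]
    exact ⟨hZM, hN₁M, hN₂M⟩
  obtain ⟨k, hk⟩ : ∃ k : ℕ, M (A ∩ Metric.closedBall q k) ≠ 0 := by
    by_contra hcon
    push Not at hcon
    apply hM
    rw [← measure_univ_eq_zero]
    have hcov : (univ : Set X) ⊆ Aᶜ ∪ ⋃ k : ℕ, (A ∩ Metric.closedBall q k) := by
      intro y _
      by_cases h : y ∈ A
      · right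
        obtain ⟨k, hk⟩ := exists_nat_ge (dist y q)
        exact mem_iUnion.mpr ⟨k, h, by rw [Metric.mem_closedBall]; exact hk⟩
      · left; exact h
    apply measure_mono_null hcov
    rw [measure_union_null_iff, measure_iUnion_null_iff]
    exact ⟨hAc, hcon⟩
  have hfin : M (A ∩ Metric.closedBall q k) ≠ ⊤ :=
    ((measure_mono inter_subset_right).trans_lt
      (isCompact_closedBall (x := q) (r := k)).measure_lt_top).ne
  obtain ⟨K, hKA, hKc, hKpos⟩ := (hAm.inter
    (measurableSet_closedBall (x := q) (ε := k))).exists_lt_isCompact_of_ne_top hfin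
    (pos_iff_ne_zero.mpr hk)
  have hKA' : K ⊆ A := hKA.trans inter_subset_left
  have hd1 : Disjoint K N₁ := by
    rw [Set.disjoint_left]
    intro y hy hN
    exact (hKA' hy).2 (Or.inl hN)
  have hd2 : Disjoint K N₂ := by
    rw [Set.disjoint_left]
    intro y hy hN
    exact (hKA' hy).2 (Or.inr hN)
  have hK0 : μ₀ K = 0 := measure_mono_null (fun y hy => (hKA' hy).1) hZ0
  have := hK K hKc
  rw [hN₁ K hKc.measurableSet hd1, hN₂ K hKc.measurableSet hd2, setIntegral_measure_zero _ hK0,
    add_zero, add_zero] at this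
  have hpos : 0 < (M K).toReal := ENNReal.toReal_pos hKpos.ne' hKc.measure_lt_top.ne
  linarith

end Pool.Agent.Lib.Pe3602a
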