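import Pool.Agent.Lib.Pe3602a.Dist

/-!
# Gromov-Hausdorff approximations of uniformly bi-Lipschitz metrics subconverge
-/

open MeasureTheory Filter Topology Set
open scoped ContDiff ENNReal

namespace Pool.Agent.Lib.Pe3602a

section

variable {n : ℕ} {g : ℕ → MetricField n} {C : ℝ}
  {X : Type} [MetricSpace X] [MeasurableSpace X] {q : X}
  {φ : ℕ → (Fin n → ℝ) → X} {ε : ℕ → ℝ}

theorem eventually_mem_rball (hup : ∀ j x y, rdist (g j) x y ≤ C * dist x y)
    (hC : 0 ≤ C) (H : IsGHApprox g q φ ε) (R : ℝ) :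
    ∀ᶠ j in atTop, ∀ a : Fin n → ℝ, ‖a‖ ≤ R → a ∈ rball (g j) 0 (1 / ε j) := by
  have h1 : ∀ᶠ j in atTop, ε j < 1 / (C * |R| + 1) :=
    H.eps_lim.eventually (gt_mem_nhds (by positivity))
  filter_upwards [h1] with j hj a ha
  have hε := H.eps_pos j
  have h2 : rdist (g j) 0 a ≤ C * |R| := by
    refine (hup j 0 a).trans ?_
    rw [dist_zero_left]
    exact mul_le_mul_of_nonneg_left (ha.trans (le_abs_self R)) hC
  have h3 : C * |R| + 1 < 1 / ε j := by
    rw [lt_div_iff₀ hε]
    rw [lt_div_iff₀ (by positivity)] at hj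
    linarith
  change rdist (g j) 0 a < 1 / ε j
  linarith

/-- Closed balls about the base point are compact in a complete limit. -/
theorem isCompact_closedBall_base [CompleteSpace X]
    (hlow : ∀ j x y, dist x y ≤ rdist (g j) x y)
    (hup : ∀ j x y, rdist (g j) x y ≤ C * dist x y) (hC : 0 < C)
    (H : IsGHApprox g q φ ε) (r : ℝ) : IsCompact (Metric.closedBall q r) := by
  refine TotallyBounded.isCompact_of_isClosed ?_ Metric.isClosed_closedBall
  rw [Metric.totallyBounded_iff]
  intro δ hδ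
  -- choose a good index
  have h1 : ∀ᶠ j in atTop, ε j < δ / 4 := H.eps_lim.eventually (gt_mem_nhds (by linarith))
  have h2 : ∀ᶠ j in atTop, ε j < 1 / (|r| + 2) :=
    H.eps_lim.eventually (gt_mem_nhds (by positivity))
  have h2' : ∀ᶠ j in atTop, ε j < 1 := H.eps_lim.eventually (gt_mem_nhds (by norm_num))
  have h3 := eventually_mem_rball hup hC.le H (|r| + 3)
  obtain ⟨j, hj1, hj2, hj2', hj3⟩ := (h1.and (h2.and (h2'.and h3))).exists
  have hε := H.eps_pos j
  have hr2 : |r| + 2 < 1 / ε j := by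
    rw [lt_div_iff₀ hε]
    rw [lt_div_iff₀ (by positivity)] at hj2
    linarith
  -- net in the compact ball
  have hρ : 0 < δ / (4 * C) := by positivity
  obtain ⟨t, htsub, htcov⟩ := (isCompact_closedBall (0 : Fin n → ℝ) (|r| + 3)).elim_nhds_subcover
    (fun x => Metric.ball x (δ / (4 * C))) (fun x _ => Metric.ball_mem_nhds x hρ)
  refine ⟨φ j '' (t : Set (Fin n → ℝ)), t.finite_toSet.image _, ?_⟩
  intro y hy
  rw [Metric.mem_closedBall] at hy
  obtain ⟨a, ha, hay⟩ := H.onto j y (by
    rw [dist_comm]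
    have := le_abs_self r
    linarith)
  have h0 : (0 : Fin n → ℝ) ∈ rball (g j) 0 (1 / ε j) := hj3 0 (by simp; positivity)
  have hd := H.distortion j 0 h0 a ha
  have hbase := H.base j
  have hna : ‖a‖ ≤ |r| + 3 := by
    have e1 : ‖a‖ ≤ rdist (g j) 0 a := by
      have := hlow j 0 a
      rwa [dist_zero_left] at this
    have e2 := (abs_le.mp hd).1
    have e3 : dist (φ j 0) (φ j a) ≤ dist (φ j 0) q + dist q y + dist y (φ j a) :=
      dist_triangle4 _ _ _ _
    rw [dist_comm y] at e3
    rw [dist_comm y q] at hy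
    have e4 := le_abs_self r
    linarith
  have hmem : a ∈ Metric.closedBall (0 : Fin n → ℝ) (|r| + 3) := by
    rw [Metric.mem_closedBall, dist_zero_right]; exact hna
  have hcov := htcov hmem
  simp only [mem_iUnion, exists_prop] at hcov
  obtain ⟨b, hbt, hab⟩ := hcov
  rw [Metric.mem_ball] at hab
  have hbn : ‖b‖ ≤ |r| + 3 := by
    have := htsub b hbt
    rwa [Metric.mem_closedBall, dist_zero_right] at this
  have hbb := hj3 b hbn
  have haa := hj3 a hna
  have hd2 := H.distortion j a haa b hbb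
  have e5 := (abs_le.mp hd2).2
  have e6 : rdist (g j) a b ≤ δ / 4 := by
    refine (hup j a b).trans ?_
    have : C * dist a b ≤ C * (δ / (4 * C)) := mul_le_mul_of_nonneg_left hab.le hC.le
    refine this.trans (le_of_eq ?_)
    field_simp
  simp only [mem_iUnion, exists_prop]
  refine ⟨φ j b, ⟨b, hbt, rfl⟩, ?_⟩
  rw [Metric.mem_ball]
  have e7 : dist y (φ j b) ≤ dist y (φ j a) + dist (φ j a) (φ j b) := dist_triangle _ _ _
  rw [dist_comm y (φ j a)] at e7
  linarith

theorem properSpace_of_approx [CompleteSpace X]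
    (hlow : ∀ j x y, dist x y ≤ rdist (g j) x y)
    (hup : ∀ j x y, rdist (g j) x y ≤ C * dist x y) (hC : 0 < C)
    (H : IsGHApprox g q φ ε) : ProperSpace X := by
  refine ⟨fun x r => ?_⟩
  apply (isCompact_closedBall_base hlow hup hC H (dist x q + r)).of_isClosed_subset
    Metric.isClosed_closedBall
  intro y hy
  rw [Metric.mem_closedBall] at hy ⊢
  have := dist_triangle y x q
  linarith

/-- Subsequential limit of the approximations. -/
theorem gh_limit [CompleteSpace X]
    (hlow : ∀ j x y, dist x y ≤ rdist (g j) x y)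
    (hup : ∀ j x y, rdist (g j) x y ≤ C * dist x y) (hC : 0 < C)
    (H : IsGHApprox g q φ ε) :
    ∃ l : ℕ → ℕ, StrictMono l ∧ ∃ Ψ : (Fin n → ℝ) → X,
      (∀ a b, dist a b ≤ dist (Ψ a) (Ψ b) ∧ dist (Ψ a) (Ψ b) ≤ C * dist a b) ∧
      ∀ (a : Fin n → ℝ) (u : ℕ → (Fin n → ℝ)), Tendsto u atTop (𝓝 a) →
        Tendsto (fun i => φ (l i) (u i)) atTop (𝓝 (Ψ a)) := by
  classical
  -- eventual distortion estimates on bounded sets
  have hdist : ∀ R : ℝ, ∀ᶠ j in atTop, ∀ a b : Fin n → ℝ, ‖a‖ ≤ R → ‖b‖ ≤ R →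
      dist a b - ε j ≤ dist (φ j a) (φ j b) ∧ dist (φ j a) (φ j b) ≤ C * dist a b + ε j := by
    intro R
    filter_upwards [eventually_mem_rball hup hC.le H R] with j hj a b ha hb
    have hd := H.distortion j a (hj a ha) b (hj b hb)
    have h1 := (abs_le.mp hd).1
    have h2 := (abs_le.mp hd).2
    have h3 := hlow j a b
    have h4 := hup j a b
    constructor <;> linarith
  -- countable dense sequence
  obtain ⟨s, hs⟩ := TopologicalSpace.exists_dense_seq (Fin n → ℝ)
  -- boundedness
  set Rm : ℕ → ℝ := fun m => C * ‖s m‖ + 2 with hRm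
  have hbd : ∀ m, ∀ᶠ j in atTop, φ j (s m) ∈ Metric.closedBall q (Rm m) := by
    intro m
    have h1 : ∀ᶠ j in atTop, ε j < 1 := H.eps_lim.eventually (gt_mem_nhds (by norm_num))
    filter_upwards [hdist ‖s m‖, h1] with j hj hj1
    have h2 := (hj (s m) 0 le_rfl (by simp)).2
    have h3 := H.base j
    rw [Metric.mem_closedBall]
    have h4 := dist_triangle (φ j (s m)) (φ j 0) q
    rw [dist_zero_right] at h2
    simp only [hRm]
    linarith
  set ψ : ℕ → ℕ → X := fun j m => if φ j (s m) ∈ Metric.closedBall q (Rm m) then φ j (s m) else q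
    with hψ
  have hψmem : ∀ j, ψ j ∈ Set.pi univ (fun m => Metric.closedBall q (Rm m)) := by
    intro j m _
    simp only [hψ]
    split_ifs with h
    · exact h
    · rw [Metric.mem_closedBall, dist_self]
      simp only [hRm]
      positivity
  have hcomp : IsCompact (Set.pi univ (fun m => Metric.closedBall q (Rm m))) :=
    isCompact_univ_pi (fun m => isCompact_closedBall_base hlow hup hC H _)
  obtain ⟨ψ0, -, l, hl, hlim⟩ := hcomp.tendsto_subseq hψmem
  have hlim' : ∀ m, Tendsto (fun i => φ (l i) (s m)) atTop (𝓝 (ψ0 m)) := by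
    intro m
    have h1 : Tendsto (fun i => ψ (l i) m) atTop (𝓝 (ψ0 m)) := (tendsto_pi_nhds.mp hlim) m
    apply h1.congr'
    filter_upwards [hl.tendsto_atTop.eventually (hbd m)] with i hi
    simp only [hψ, if_pos hi]
  have hεl : Tendsto (fun i => ε (l i)) atTop (𝓝 0) := H.eps_lim.comp hl.tendsto_atTop
  -- Cauchy property for each point
  have hcauchy : ∀ a : Fin n → ℝ, CauchySeq fun i => φ (l i) a := by
    intro a
    rw [Metric.cauchySeq_iff]
    intro δ hδ
    obtain ⟨m, hm⟩ : ∃ m, dist a (s m) < min 1 (δ / (6 * C)) :=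
      (Metric.denseRange_iff.mp hs) a _ (lt_min one_pos (by positivity))
    have hm1 : dist a (s m) < 1 := hm.trans_le (min_le_left _ _)
    have hm2 : C * dist a (s m) < δ / 6 := by
      have := hm.trans_le (min_le_right _ _)
      calc C * dist a (s m) < C * (δ / (6 * C)) := mul_lt_mul_of_pos_left this hC
        _ = δ / 6 := by field_simp
    have hsm : ‖s m‖ ≤ ‖a‖ + 1 := by
      have := norm_le_norm_add_norm_sub a (s m)
      have h2 : ‖s m - a‖ = dist a (s m) := by rw [dist_comm, dist_eq_norm]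
      have h3 : ‖s m‖ ≤ ‖a‖ + ‖s m - a‖ := by
        calc ‖s m‖ = ‖a + (s m - a)‖ := by congr 1; abel
          _ ≤ _ := norm_add_le _ _
      linarith
    have h1 := hl.tendsto_atTop.eventually (hdist (‖a‖ + 1))
    have h2 : ∀ᶠ i in atTop, ε (l i) < δ / 6 := hεl.eventually (gt_mem_nhds (by linarith))
    have h3 : ∀ᶠ i in atTop, dist (φ (l i) (s m)) (ψ0 m) < δ / 6 :=
      (hlim' m).eventually (Metric.ball_mem_nhds _ (by linarith))
    obtain ⟨N, hN⟩ := (eventually_atTop).mp (h1.and (h2.and h3))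
    refine ⟨N, fun i hi i' hi' => ?_⟩
    obtain ⟨p1, p2, p3⟩ := hN i hi
    obtain ⟨p1', p2', p3'⟩ := hN i' hi'
    have e1 := (p1 a (s m) (by linarith) hsm).2
    have e2 := (p1' a (s m) (by linarith) hsm).2
    have e3 : dist (φ (l i) a) (φ (l i') a) ≤ dist (φ (l i) a) (φ (l i) (s m)) +
      dist (φ (l i) (s m)) (φ (l i') (s m)) + dist (φ (l i') (s m)) (φ (l i') a) :=
      dist_triangle4 _ _ _ _
    have e4 : dist (φ (l i) (s m)) (φ (l i') (s m)) ≤
        dist (φ (l i) (s m)) (ψ0 m) + dist (φ (l i') (s m)) (ψ0 m) := dist_triangle_right _ _ _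
    rw [dist_comm (φ (l i') (s m)) (φ (l i') a)] at e3
    linarith
  choose Ψ hΨ using fun a => cauchySeq_tendsto_of_complete (hcauchy a)
  refine ⟨l, hl, Ψ, ?_, ?_⟩
  · intro a b
    have h1 := hl.tendsto_atTop.eventually (hdist (max ‖a‖ ‖b‖))
    have hlimd : Tendsto (fun i => dist (φ (l i) a) (φ (l i) b)) atTop (𝓝 (dist (Ψ a) (Ψ b))) :=
      (hΨ a).dist (hΨ b)
    constructor
    · have h2 : Tendsto (fun i => dist a b - ε (l i)) atTop (𝓝 (dist a b - 0)) :=
        tendsto_const_nhds.sub hεl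
      rw [sub_zero] at h2
      apply le_of_tendsto_of_tendsto h2 hlimd
      filter_upwards [h1] with i hi
      exact (hi a b (le_max_left _ _) (le_max_right _ _)).1
    · have h2 : Tendsto (fun i => C * dist a b + ε (l i)) atTop (𝓝 (C * dist a b + 0)) :=
        tendsto_const_nhds.add hεl
      rw [add_zero] at h2
      apply le_of_tendsto_of_tendsto hlimd h2
      filter_upwards [h1] with i hi
      exact (hi a b (le_max_left _ _) (le_max_right _ _)).2
  · intro a u hu
    rw [tendsto_iff_dist_tendsto_zero]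
    have h1 := hl.tendsto_atTop.eventually (hdist (‖a‖ + 1))
    have hu1 : ∀ᶠ i in atTop, ‖u i‖ ≤ ‖a‖ + 1 := by
      have := hu.norm
      have h2 : ∀ᶠ i in atTop, ‖u i‖ < ‖a‖ + 1 := this.eventually (gt_mem_nhds (by linarith))
      exact h2.mono (fun i hi => hi.le)
    have hz : Tendsto (fun i => (C * dist (u i) a + ε (l i)) + dist (φ (l i) a) (Ψ a)) atTop
        (𝓝 ((C * 0 + 0) + 0)) := by
      apply Tendsto.add
      · apply Tendsto.add _ hεl
        exact (tendsto_iff_dist_tendsto_zero.mp hu).const_mul C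
      · exact tendsto_iff_dist_tendsto_zero.mp (hΨ a)
    simp only [mul_zero, add_zero] at hz
    apply squeeze_zero' (Eventually.of_forall fun i => dist_nonneg) _ hz
    filter_upwards [h1, hu1] with i hi hui
    have e1 := (hi (u i) a hui (by linarith)).2
    have e2 := dist_triangle (φ (l i) (u i)) (φ (l i) a) (Ψ a)
    linarith

end

end Pool.Agent.Lib.Pe3602a
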