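import Pool.Agent.Lib.Pe3602a.Dist
import Pool.Agent.Lib.Pe3602a.Curv3

/-!
# Distance, completeness and volume of the metrics `δᵢⱼ + uᵢ uⱼ`
-/

open MeasureTheory Filter Topology Set
open scoped ContDiff ENNReal Pointwise

namespace Pool.Agent.Lib.Pe3602a

section

variable {m : ℕ} {a b a' : ℝ → ℝ}

theorem contMetric_gmet (ha : Continuous a) (hb : Continuous b) : ContMetric (gmet m a b) := by
  intro i j
  have : (fun x => gmet m a b x i j) =
      fun x => (if i = j then (1 : ℝ) else 0) + uvec a b x i * uvec a b x j := by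
    funext x; exact gmet_apply x i j
  rw [this]
  have hu : ∀ k, Continuous fun x : Fin (m + 2) → ℝ => uvec a b x k := by
    intro k
    have := uvec_contDiff (m := m) (k := 0) (contDiff_zero.mpr ha) (contDiff_zero.mpr hb) k
    exact this.continuous
  exact continuous_const.add ((hu i).mul (hu j))

theorem gnorm_gmet (x w : Fin (m + 2) → ℝ) :
    gnorm (gmet m a b) x w = √(∑ i, w i ^ 2 + (a (x 0) * w 0 + b (x 1) * w 1) ^ 2) := by
  unfold gnorm
  rw [gmet_quad]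

theorem abs_le_gnorm_gmet (x w : Fin (m + 2) → ℝ) (i : Fin (m + 2)) :
    |w i| ≤ gnorm (gmet m a b) x w := by
  rw [gnorm_gmet]
  apply Real.abs_le_sqrt
  have h1 : w i ^ 2 ≤ ∑ i, w i ^ 2 :=
    Finset.single_le_sum (f := fun i => w i ^ 2) (fun j _ => sq_nonneg (w j)) (Finset.mem_univ i)
  have h2 := sq_nonneg (a (x 0) * w 0 + b (x 1) * w 1)
  linarith

theorem two_le_sum (w : Fin (m + 2) → ℝ) : w 0 ^ 2 + w 1 ^ 2 ≤ ∑ i, w i ^ 2 := by
  have h01 : (0 : Fin (m + 2)) ≠ 1 := by simp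
  rw [← Finset.sum_pair (f := fun i => w i ^ 2) h01]
  exact Finset.sum_le_sum_of_subset_of_nonneg (Finset.subset_univ _)
    (fun i _ _ => sq_nonneg (w i))

theorem gnorm_gmet_le {L : ℝ} (ha : ∀ t, |a t| ≤ L) (hb : ∀ t, |b t| ≤ L)
    (x w : Fin (m + 2) → ℝ) :
    gnorm (gmet m a b) x w ≤ √(1 + 2 * L ^ 2) * √(∑ i, w i ^ 2) := by
  rw [gnorm_gmet, ← Real.sqrt_mul (by positivity)]
  apply Real.sqrt_le_sqrt
  have h1 := two_le_sum w
  have h2 : a (x 0) ^ 2 ≤ L ^ 2 := sq_le_sq' (abs_le.mp (ha _)).1 (abs_le.mp (ha _)).2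
  have h3 : b (x 1) ^ 2 ≤ L ^ 2 := sq_le_sq' (abs_le.mp (hb _)).1 (abs_le.mp (hb _)).2
  have h4 : (a (x 0) * w 0 + b (x 1) * w 1) ^ 2 ≤
      2 * (a (x 0) ^ 2 * w 0 ^ 2) + 2 * (b (x 1) ^ 2 * w 1 ^ 2) := by
    nlinarith [sq_nonneg (a (x 0) * w 0 - b (x 1) * w 1)]
  have h5 : a (x 0) ^ 2 * w 0 ^ 2 ≤ L ^ 2 * w 0 ^ 2 := mul_le_mul_of_nonneg_right h2 (sq_nonneg _)
  have h6 : b (x 1) ^ 2 * w 1 ^ 2 ≤ L ^ 2 * w 1 ^ 2 := mul_le_mul_of_nonneg_right h3 (sq_nonneg _)
  nlinarith [mul_le_mul_of_nonneg_left h1 (sq_nonneg L)]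

theorem sqrt_add_sq_le (S p r : ℝ) (hS : 0 ≤ S) :
    √(S + (p + r) ^ 2) ≤ √(S + p ^ 2) + |r| := by
  rw [Real.sqrt_le_left (by positivity)]
  have h1 : |p| ≤ √(S + p ^ 2) := by
    apply Real.abs_le_sqrt
    linarith
  have h2 := Real.sq_sqrt (show 0 ≤ S + p ^ 2 by positivity)
  have h3 : p * r ≤ |p| * |r| := by rw [← abs_mul]; exact le_abs_self _
  have h4 : |p| * |r| ≤ √(S + p ^ 2) * |r| := mul_le_mul_of_nonneg_right h1 (abs_nonneg r)
  nlinarith [sq_abs r]

theorem gnorm_gmet_compare {τ : ℝ} (h : ∀ t, |a t - a' t| ≤ τ) (x w : Fin (m + 2) → ℝ) :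
    gnorm (gmet m a b) x w ≤ (1 + τ) * gnorm (gmet m a' b) x w := by
  have h1 := sqrt_add_sq_le (∑ i, w i ^ 2) (a' (x 0) * w 0 + b (x 1) * w 1)
    ((a (x 0) - a' (x 0)) * w 0) (by positivity)
  have h2 : |(a (x 0) - a' (x 0)) * w 0| ≤ τ * gnorm (gmet m a' b) x w := by
    rw [abs_mul]
    exact mul_le_mul (h _) (abs_le_gnorm_gmet x w 0) (abs_nonneg _)
      ((abs_nonneg _).trans (h 0))
  rw [gnorm_gmet, show a (x 0) * w 0 + b (x 1) * w 1 =
    a' (x 0) * w 0 + b (x 1) * w 1 + (a (x 0) - a' (x 0)) * w 0 by ring]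
  rw [gnorm_gmet] at h2 ⊢
  linarith

theorem sqrt_sum_sq_le (w : Fin (m + 2) → ℝ) : √(∑ i, w i ^ 2) ≤ √((m : ℝ) + 2) * ‖w‖ := by
  rw [Real.sqrt_le_left (by positivity), mul_pow, Real.sq_sqrt (by positivity)]
  calc ∑ i, w i ^ 2 ≤ ∑ _i : Fin (m + 2), ‖w‖ ^ 2 := by
        apply Finset.sum_le_sum
        intro i _
        have := norm_le_pi_norm w i
        rw [Real.norm_eq_abs] at this
        rw [← sq_abs]
        exact pow_le_pow_left₀ (abs_nonneg _) this 2
    _ = ((m : ℝ) + 2) * ‖w‖ ^ 2 := by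
        rw [Finset.sum_const, Finset.card_univ, Fintype.card_fin]
        simp

/-- The bi-Lipschitz constant. -/
noncomputable def CL (m : ℕ) (L : ℝ) : ℝ := √(1 + 2 * L ^ 2) * √((m : ℝ) + 2)

theorem CL_pos (m : ℕ) (L : ℝ) : 0 < CL m L := by
  unfold CL
  positivity

theorem dist_le_rdist_gmet (ha : Continuous a) (hb : Continuous b) (x y : Fin (m + 2) → ℝ) :
    dist x y ≤ rdist (gmet m a b) x y :=
  dist_le_rdist (contMetric_gmet ha hb) (fun x w i => abs_le_gnorm_gmet x w i) x y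

theorem rdist_gmet_le_euclid (hac : Continuous a) (hbc : Continuous b) {L : ℝ}
    (ha : ∀ t, |a t| ≤ L) (hb : ∀ t, |b t| ≤ L) (x y : Fin (m + 2) → ℝ) :
    rdist (gmet m a b) x y ≤ √(1 + 2 * L ^ 2) * √(∑ i, (y i - x i) ^ 2) := by
  apply rdist_le_seg (contMetric_gmet hac hbc)
  intro z
  exact gnorm_gmet_le ha hb z (y - x)

theorem rdist_gmet_le (hac : Continuous a) (hbc : Continuous b) {L : ℝ}
    (ha : ∀ t, |a t| ≤ L) (hb : ∀ t, |b t| ≤ L) (x y : Fin (m + 2) → ℝ) :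
    rdist (gmet m a b) x y ≤ CL m L * dist x y := by
  refine (rdist_gmet_le_euclid hac hbc ha hb x y).trans ?_
  unfold CL
  rw [mul_assoc]
  apply mul_le_mul_of_nonneg_left _ (Real.sqrt_nonneg _)
  have := sqrt_sum_sq_le (y - x)
  rw [dist_comm, dist_eq_norm]
  exact this

theorem isCompleteMetric_of_biLipschitz {n : ℕ} {g : MetricField n} {C : ℝ}
    (hlow : ∀ x y, dist x y ≤ rdist g x y) (hup : ∀ x y, rdist g x y ≤ C * dist x y) :
    IsCompleteMetric g := by
  intro u hu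
  have hc : CauchySeq u := by
    rw [Metric.cauchySeq_iff]
    intro ε hε
    obtain ⟨N, hN⟩ := hu ε hε
    exact ⟨N, fun m hm k hk => (hlow _ _).trans_lt (hN m hm k hk)⟩
  obtain ⟨a, ha⟩ := cauchySeq_tendsto_of_complete hc
  refine ⟨a, ?_⟩
  have h1 : Tendsto (fun m => C * dist (u m) a) atTop (𝓝 (C * 0)) :=
    (tendsto_iff_dist_tendsto_zero.mp ha).const_mul C
  rw [mul_zero] at h1
  exact squeeze_zero (fun m => rdist_nonneg g _ _) (fun m => hup _ _) h1

/-- The rdist-distance to the origin is continuous. -/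
theorem continuous_rdist_zero {n : ℕ} {g : MetricField n} (hg : ContMetric g) {C : ℝ}
    (hup : ∀ x y, rdist g x y ≤ C * dist x y) : Continuous fun y => rdist g 0 y := by
  have h : ∀ x y, |rdist g 0 x - rdist g 0 y| ≤ C * dist x y := by
    intro x y
    have h1 := rdist_triangle hg 0 y x
    have h2 := rdist_triangle hg 0 x y
    have h3 := rdist_comm g x y
    have h4 := hup x y
    rw [abs_le]
    constructor <;> linarith
  rw [continuous_iff_continuousAt]
  intro x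
  rw [ContinuousAt, tendsto_iff_dist_tendsto_zero]
  have h1 : Tendsto (fun y => C * dist y x) (𝓝 x) (𝓝 (C * 0)) := by
    apply Tendsto.const_mul
    exact tendsto_iff_dist_tendsto_zero.mp tendsto_id
  rw [mul_zero] at h1
  apply squeeze_zero (fun y => dist_nonneg) (fun y => ?_) h1
  rw [Real.dist_eq]
  exact h y x

theorem measurableSet_rball {n : ℕ} {g : MetricField n} (hg : ContMetric g) {C : ℝ}
    (hup : ∀ x y, rdist g x y ≤ C * dist x y) (r : ℝ) : MeasurableSet (rball g 0 r) :=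
  (isOpen_lt (continuous_rdist_zero hg hup) continuous_const).measurableSet

/-- The Euclidean ball in coordinate space. -/
def eball (n : ℕ) (r : ℝ) : Set (Fin n → ℝ) := {y | ∑ i, y i ^ 2 < r ^ 2}

theorem eball_eq_smul {n : ℕ} {r : ℝ} (hr : 0 < r) : eball n r = r • eball n 1 := by
  ext y
  rw [mem_smul_set_iff_inv_smul_mem₀ hr.ne']
  simp only [eball, mem_ofPred_eq, Pi.smul_apply, smul_eq_mul, mul_pow, one_pow]
  rw [← Finset.mul_sum]
  constructor
  · intro h
    calc r⁻¹ ^ 2 * ∑ i, y i ^ 2 < r⁻¹ ^ 2 * r ^ 2 := by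
          apply mul_lt_mul_of_pos_left h; positivity
      _ = 1 := by field_simp
  · intro h
    calc ∑ i, y i ^ 2 = r ^ 2 * (r⁻¹ ^ 2 * ∑ i, y i ^ 2) := by field_simp
      _ < r ^ 2 * 1 := by
          apply mul_lt_mul_of_pos_left h; positivity
      _ = r ^ 2 := mul_one _

theorem volume_eball {n : ℕ} {r : ℝ} (hr : 0 < r) :
    volume (eball n r) = ENNReal.ofReal (r ^ n) * volume (eball n 1) := by
  rw [eball_eq_smul hr, Measure.addHaar_smul]
  simp [abs_of_pos (pow_pos hr n)]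

theorem volume_eball_one_lt_top (n : ℕ) : volume (eball n 1) < ⊤ := by
  have h : eball n 1 ⊆ Metric.closedBall 0 1 := by
    intro y hy
    rw [Metric.mem_closedBall, dist_zero_right, pi_norm_le_iff_of_nonneg zero_le_one]
    intro i
    have h1 : y i ^ 2 ≤ ∑ i, y i ^ 2 :=
      Finset.single_le_sum (f := fun i => y i ^ 2) (fun j _ => sq_nonneg (y j)) (Finset.mem_univ i)
    have h2 : ∑ i, y i ^ 2 < 1 ^ 2 := hy
    rw [Real.norm_eq_abs]
    have h3 : y i ^ 2 ≤ 1 ^ 2 := by linarith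
    exact abs_le.mpr (abs_le_of_sq_le_sq' h3 zero_le_one)
  exact (measure_mono h).trans_lt (isCompact_closedBall _ _).measure_lt_top

theorem exists_radius {n : ℕ} {v : ℝ} (hv : ENNReal.ofReal v < volume (eball n 1)) :
    ∃ r : ℝ, 0 < r ∧ r < 1 ∧ ENNReal.ofReal v ≤ volume (eball n r) := by
  have hfin := (volume_eball_one_lt_top n).ne
  set om := (volume (eball n 1)).toReal with hom
  have home : volume (eball n 1) = ENNReal.ofReal om := (ENNReal.ofReal_toReal hfin).symm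
  have hvom : v < om ∨ v ≤ 0 := by
    rcases le_or_gt v 0 with h | h
    · right; exact h
    · left
      rw [home] at hv
      exact (ENNReal.ofReal_lt_ofReal_iff_of_nonneg h.le).mp hv
  rcases hvom with h | h
  · have ht : Tendsto (fun r : ℝ => r ^ n * om) (𝓝[<] 1) (𝓝 (1 ^ n * om)) := by
      apply Tendsto.mono_left _ nhdsWithin_le_nhds
      exact ((continuous_pow n).mul continuous_const).tendsto 1
    rw [one_pow, one_mul] at ht
    have h1 : ∀ᶠ r : ℝ in 𝓝[<] 1, v < r ^ n * om := ht.eventually (lt_mem_nhds h)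
    have h2 : ∀ᶠ r : ℝ in 𝓝[<] 1, 0 < r :=
      nhdsWithin_le_nhds (lt_mem_nhds (by norm_num : (0 : ℝ) < 1))
    have h3 : ∀ᶠ r : ℝ in 𝓝[<] 1, r < 1 := self_mem_nhdsWithin
    obtain ⟨r, hr1, hr2, hr3⟩ := (h1.and (h2.and h3)).exists
    refine ⟨r, hr2, hr3, ?_⟩
    rw [volume_eball hr2, home, ← ENNReal.ofReal_mul (by positivity)]
    exact ENNReal.ofReal_le_ofReal hr1.le
  · refine ⟨1 / 2, by norm_num, by norm_num, ?_⟩
    rw [ENNReal.ofReal_of_nonpos h]
    exact bot_le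

theorem rvol_gmet_ge (hac : Continuous a) (hbc : Continuous b) {L r : ℝ}
    (ha : ∀ t, |a t| ≤ L) (hb : ∀ t, |b t| ≤ L) (hr : 0 < r)
    (hLr : (1 + 2 * L ^ 2) * r ^ 2 ≤ 1) :
    volume (eball (m + 2) r) ≤ rvol (gmet m a b) (rball (gmet m a b) 0 1) := by
  have hsub : eball (m + 2) r ⊆ rball (gmet m a b) 0 1 := by
    intro y hy
    have h1 := rdist_gmet_le_euclid hac hbc ha hb 0 y
    simp only [Pi.zero_apply, sub_zero] at h1
    have h2 : √(∑ i, y i ^ 2) < r := by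
      rw [Real.sqrt_lt' hr]; exact hy
    have h3 : √(1 + 2 * L ^ 2) * r ≤ 1 := by
      rw [← Real.sqrt_sq hr.le, ← Real.sqrt_mul (by positivity)]
      have := Real.sqrt_le_sqrt hLr
      rwa [Real.sqrt_one] at this
    have h4 : 0 < √(1 + 2 * L ^ 2) := Real.sqrt_pos.mpr (by positivity)
    calc rdist (gmet m a b) 0 y ≤ _ := h1
      _ < √(1 + 2 * L ^ 2) * r := mul_lt_mul_of_pos_left h2 h4
      _ ≤ 1 := h3
  have hmono : ∫⁻ x in eball (m + 2) r, 1 ≤
      ∫⁻ x in rball (gmet m a b) 0 1, ENNReal.ofReal (√(gmet m a b x).det) := by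
    calc ∫⁻ x in eball (m + 2) r, 1 ≤ ∫⁻ x in rball (gmet m a b) 0 1, 1 :=
          lintegral_mono_set hsub
      _ ≤ _ := by
          apply lintegral_mono
          intro x
          simp only
          rw [gmet_det]
          simp only [ENNReal.one_le_ofReal, Real.one_le_sqrt]
          exact one_le_W2 x
  simpa [rvol] using hmono

end

end Pool.Agent.Lib.Pe3602a
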