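import Mathlib

/-!
# A singular continuous probability measure on the line
-/

open MeasureTheory Filter Topology Set
open scoped ContDiff ENNReal Pointwise

namespace Pool.Agent.Lib.Pe3602a

theorem continuous_cantorFunction_third :
    Continuous (Cardinal.cantorFunction (1 / 3 : ℝ)) := by
  unfold Cardinal.cantorFunction
  apply continuous_tsum (u := fun n : ℕ => (1 / 3 : ℝ) ^ n)
  · intro n
    unfold Cardinal.cantorFunctionAux
    have : Continuous fun b : Bool => cond b ((1 / 3 : ℝ) ^ n) 0 := continuous_of_discreteTopology
    exact this.comp (continuous_apply n)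
  · exact summable_geometric_of_lt_one (by norm_num) (by norm_num)
  · intro n f
    unfold Cardinal.cantorFunctionAux
    cases f n
    · simp
    · simp

/-- The range of the ternary Cantor function parametrisation is a null set. -/
theorem volume_range_cantorFunction :
    volume (range (Cardinal.cantorFunction (1 / 3 : ℝ))) = 0 := by
  set K := range (Cardinal.cantorFunction (1 / 3 : ℝ)) with hK
  have hcomp : IsCompact K := isCompact_range continuous_cantorFunction_third
  have hfin : volume K ≠ ⊤ := hcomp.measure_lt_top.ne
  have hsub : K ⊆ ((1 / 3 : ℝ) • K) ∪ ((fun x => 1 + x) '' ((1 / 3 : ℝ) • K)) := by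
    rintro _ ⟨f, rfl⟩
    rw [Cardinal.cantorFunction_succ f (by norm_num) (by norm_num)]
    cases h : f 0
    · left
      refine ⟨_, ⟨fun n => f (n + 1), rfl⟩, ?_⟩
      simp
    · right
      refine ⟨_, ⟨_, ⟨fun n => f (n + 1), rfl⟩, rfl⟩, ?_⟩
      simp
  have h1 : volume ((1 / 3 : ℝ) • K) = ENNReal.ofReal (1 / 3) * volume K := by
    rw [Measure.addHaar_smul]
    simp [abs_of_pos]
  have h2 : volume ((fun x => 1 + x) '' ((1 / 3 : ℝ) • K)) = ENNReal.ofReal (1 / 3) * volume K := by
    rw [image_add_left, measure_preimage_add, h1]
  have h3 : volume K ≤ ENNReal.ofReal (2 / 3) * volume K := by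
    calc volume K ≤ _ := measure_mono hsub
      _ ≤ _ := measure_union_le _ _
      _ = ENNReal.ofReal (2 / 3) * volume K := by
        rw [h1, h2, ← add_mul, ← ENNReal.ofReal_add (by norm_num) (by norm_num)]
        norm_num
  by_contra hne
  have hr : (volume K).toReal ≤ 2 / 3 * (volume K).toReal := by
    have := (ENNReal.toReal_le_toReal hfin (ENNReal.mul_ne_top ENNReal.ofReal_ne_top hfin)).mpr h3
    rwa [ENNReal.toReal_mul, ENNReal.toReal_ofReal (by norm_num)] at this
  have hpos : 0 < (volume K).toReal := ENNReal.toReal_pos hne hfin
  linarith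

theorem cantorFunction_mem (f : ℕ → Bool) :
    Cardinal.cantorFunction (1 / 3 : ℝ) f ∈ Icc (0 : ℝ) 2 := by
  constructor
  · exact tsum_nonneg (fun n => Cardinal.cantorFunctionAux_nonneg (by norm_num))
  · have h1 : Cardinal.cantorFunction (1 / 3 : ℝ) f ≤ ∑' n : ℕ, (1 / 3 : ℝ) ^ n := by
      apply (Cardinal.summable_cantor_function f (by norm_num) (by norm_num)).tsum_le_tsum _
        (summable_geometric_of_lt_one (by norm_num) (by norm_num))
      intro n
      unfold Cardinal.cantorFunctionAux
      cases f n
      · simp
      · simp
    rw [tsum_geometric_of_lt_one (by norm_num) (by norm_num)] at h1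
    norm_num at h1
    linarith

/-- There is a probability measure on the line without atoms which is concentrated on a Lebesgue
null set. -/
theorem exists_singular_measure : ∃ (ν : Measure ℝ) (K : Set ℝ), IsProbabilityMeasure ν ∧
    (∀ x, ν {x} = 0) ∧ ν (Icc 0 2)ᶜ = 0 ∧ MeasurableSet K ∧ volume K = 0 ∧ ν Kᶜ = 0 := by
  have hunc : ¬ Countable (unitInterval) := by
    intro h
    have h2 : (Icc (0 : ℝ) 1).Countable := h
    have h3 := h2.measure_zero volume
    simp at h3
  have hunc2 : ¬ Countable (ℕ → Bool) := by
    intro h
    have := Cardinal.mk_le_aleph0_iff.mpr h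
    simp only [Cardinal.mk_pi, Cardinal.mk_fintype, Fintype.card_bool, Cardinal.prod_const,
      Cardinal.lift_id, Cardinal.mk_nat] at this
    exact absurd this (not_le.mpr (by simpa using Cardinal.cantor Cardinal.aleph0))
  let e : unitInterval ≃ᵐ (ℕ → Bool) := PolishSpace.measurableEquivOfNotCountable hunc hunc2
  set T : unitInterval → ℝ := fun s => Cardinal.cantorFunction (1 / 3 : ℝ) (e s) with hT
  have hTm : Measurable T := continuous_cantorFunction_third.measurable.comp e.measurable
  have hTi : Function.Injective T :=
    (Cardinal.cantorFunction_injective (by norm_num) (by norm_num)).comp e.injective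
  refine ⟨Measure.map T volume, range (Cardinal.cantorFunction (1 / 3 : ℝ)),
    Measure.isProbabilityMeasure_map hTm.aemeasurable, ?_, ?_, ?_, volume_range_cantorFunction, ?_⟩
  · intro x
    rw [Measure.map_apply hTm (measurableSet_singleton x)]
    have : (T ⁻¹' {x}).Subsingleton := by
      intro s hs t ht
      exact hTi (hs.trans ht.symm)
    exact this.measure_zero volume
  · rw [Measure.map_apply hTm measurableSet_Icc.compl]
    have : T ⁻¹' (Icc 0 2)ᶜ = ∅ := by
      ext s
      simp only [mem_preimage, mem_compl_iff, mem_empty_iff_false, iff_false, not_not]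
      exact cantorFunction_mem _
    rw [this, measure_empty]
  · exact (isCompact_range continuous_cantorFunction_third).measurableSet
  · rw [Measure.map_apply hTm
      (isCompact_range continuous_cantorFunction_third).measurableSet.compl]
    have : T ⁻¹' (range (Cardinal.cantorFunction (1 / 3 : ℝ)))ᶜ = ∅ := by
      ext s
      simp only [mem_preimage, mem_compl_iff, mem_range, not_exists, mem_empty_iff_false,
        iff_false, not_forall, not_not]
      exact ⟨e s, rfl⟩
    rw [this, measure_empty]

end Pool.Agent.Lib.Pe3602a
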