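import Pool.Agent.Lib.Pe3602a.Weak

/-!
# The product of a continuous singular measure with Lebesgue measure does not charge sets
of finite codimension one Hausdorff measure
-/

open MeasureTheory Measure Filter Topology Set
open scoped ContDiff ENNReal

namespace Pool.Agent.Lib.Pe3602a

variable {m : ℕ}

theorem isometry_consMap (z : ℝ) : Isometry fun y : Fin m → ℝ => consMap (z, y) := by
  apply Isometry.of_dist_eq
  intro y y'
  apply le_antisymm
  · rw [dist_pi_le_iff dist_nonneg]
    intro i
    refine Fin.cases ?_ (fun j => ?_) i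
    · simp [consMap]
    · exact dist_le_pi_dist y y' j
  · rw [dist_pi_le_iff dist_nonneg]
    intro j
    exact dist_le_pi_dist (consMap (z, y)) (consMap (z, y')) j.succ

theorem lam_eq_zero_of_hausdorff_finite (ν : Measure ℝ) [IsProbabilityMeasure ν]
    (hν : ∀ x, ν {x} = 0) {A : Set (Fin (m + 1) → ℝ)} (hA : MeasurableSet A)
    (hfin : μH[(m : ℝ)] A ≠ ⊤) : lam ν A = 0 := by
  unfold lam
  rw [map_apply continuous_consMap.measurable hA,
    prod_apply (continuous_consMap.measurable hA)]
  set S : ℝ → Set (Fin (m + 1) → ℝ) := fun z => A ∩ {x | x 0 = z} with hS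
  have hSm : ∀ z, MeasurableSet (S z) := fun z =>
    hA.inter (measurableSet_eq_fun (measurable_pi_apply 0) measurable_const)
  have hdisj : Pairwise (Function.onFun Disjoint S) := by
    intro z z' hzz'
    rw [Function.onFun, Set.disjoint_left]
    rintro x ⟨_, h1⟩ ⟨_, h2⟩
    exact hzz' (h1.symm.trans h2)
  have hU : (⋃ z, S z) ⊆ A := iUnion_subset (fun z => inter_subset_left)
  have hUfin : μH[(m : ℝ)] (⋃ z, S z) ≠ ⊤ := ((measure_mono hU).trans_lt hfin.lt_top).ne
  have hc : Set.Countable {z : ℝ | 0 < μH[(m : ℝ)] (S z)} :=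
    countable_meas_pos_of_disjoint_of_meas_iUnion_ne_top _ hSm hdisj hUfin
  have hνc : ν {z : ℝ | 0 < μH[(m : ℝ)] (S z)} = 0 := by
    rw [← biUnion_of_singleton {z : ℝ | 0 < μH[(m : ℝ)] (S z)}]
    exact (measure_biUnion_null_iff hc).mpr (fun z _ => hν z)
  have key : ∀ z, volume (Prod.mk z ⁻¹' (consMap ⁻¹' A)) = μH[(m : ℝ)] (S z) := by
    intro z
    have h1 : (fun y : Fin m → ℝ => consMap (z, y)) '' (Prod.mk z ⁻¹' (consMap ⁻¹' A)) = S z := by
      ext x
      constructor
      · rintro ⟨y, hy, rfl⟩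
        exact ⟨hy, rfl⟩
      · rintro ⟨hx, hxz⟩
        refine ⟨Fin.tail x, ?_, ?_⟩
        · have : consMap (z, Fin.tail x) = x := by
            rw [← hxz]; exact Fin.cons_self_tail x
          change consMap (z, Fin.tail x) ∈ A
          rw [this]; exact hx
        · rw [← hxz]; exact Fin.cons_self_tail x
    rw [← h1, (isometry_consMap z).hausdorffMeasure_image (Or.inl (by positivity))]
    have := hausdorffMeasure_pi_real (ι := Fin m)
    rw [Fintype.card_fin] at this
    rw [this]
  simp only [key]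
  rw [lintegral_eq_zero_iff']
  · filter_upwards [compl_mem_ae_iff.mpr hνc] with z hz
    simpa using hz
  · have : Measurable fun z => volume (Prod.mk z ⁻¹' (consMap ⁻¹' A)) :=
      measurable_measure_prodMk_left (continuous_consMap.measurable hA)
    simp only [key] at this
    exact this.aemeasurable

theorem lam_compl_eq_zero (ν : Measure ℝ) [IsProbabilityMeasure ν] {K : Set ℝ}
    (hK : MeasurableSet K) (hν : ν Kᶜ = 0) :
    lam ν {x : Fin (m + 1) → ℝ | x 0 ∉ K} = 0 := by
  unfold lam
  have hm : MeasurableSet {x : Fin (m + 1) → ℝ | x 0 ∉ K} := by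
    have h0 : Measurable fun x : Fin (m + 1) → ℝ => x 0 := measurable_pi_apply 0
    exact h0 hK.compl
  rw [map_apply continuous_consMap.measurable hm]
  have : consMap ⁻¹' {x : Fin (m + 1) → ℝ | x 0 ∉ K} = Kᶜ ×ˢ (univ : Set (Fin m → ℝ)) := by
    ext p
    simp only [mem_preimage, mem_ofPred_eq, mem_prod, mem_compl_iff, mem_univ, and_true]
    rfl
  rw [this, prod_prod, hν, zero_mul]

theorem volume_slab_eq_zero {K : Set ℝ} (hK : volume K = 0) :
    volume {x : Fin (m + 1) → ℝ | x 0 ∈ K} = 0 := by
  have h : {x : Fin (m + 1) → ℝ | x 0 ∈ K} = (Function.eval 0) ⁻¹' K := rfl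
  rw [h]
  exact (quasiMeasurePreserving_eval (fun _ : Fin (m + 1) => (volume : Measure ℝ)) 0).preimage_null
    hK

theorem lam_closedBall_lt_top (ν : Measure ℝ) [IsProbabilityMeasure ν] (R : ℝ) :
    lam ν (Metric.closedBall (0 : Fin (m + 1) → ℝ) R) < ⊤ := by
  unfold lam
  rw [map_apply continuous_consMap.measurable measurableSet_closedBall]
  have : consMap ⁻¹' (Metric.closedBall (0 : Fin (m + 1) → ℝ) R) ⊆
      univ ×ˢ (Metric.closedBall (0 : Fin m → ℝ) R) := by
    intro p hp
    rw [mem_preimage, Metric.mem_closedBall, dist_zero_right, norm_consMap] at hp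
    rw [mem_prod, Metric.mem_closedBall, dist_zero_right]
    exact ⟨mem_univ _, (le_max_right _ _).trans hp⟩
  refine (measure_mono this).trans_lt ?_
  rw [prod_prod, measure_univ, one_mul]
  exact measure_closedBall_lt_top

theorem lam_univ_ne_zero (ν : Measure ℝ) [IsProbabilityMeasure ν] :
    lam ν (univ : Set (Fin (m + 1) → ℝ)) ≠ 0 := by
  unfold lam
  rw [map_apply continuous_consMap.measurable MeasurableSet.univ, preimage_univ, ← univ_prod_univ,
    prod_prod, measure_univ, one_mul]
  exact (isOpen_univ.measure_pos volume univ_nonempty).ne'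

end Pool.Agent.Lib.Pe3602a
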