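import Pool.Agent.Lib.Pe3602a.Geo
import Pool.Agent.Lib.Pe3602a.GH
import Pool.Agent.Lib.Pe3602a.Form
import Pool.Agent.Lib.Pe3602a.Slice
import Pool.Agent.Lib.Pe3602a.Sing

/-!
# Assembling the counterexample
-/

open MeasureTheory Measure Filter Topology Set
open scoped ContDiff ENNReal NNReal

namespace Pool.Agent.Lib.Pe3602a

/-- The function `δ arctan`. -/
noncomputable def bfun (δ : ℝ) (t : ℝ) : ℝ := δ * Real.arctan t

/-- The function `δ c_j`. -/
noncomputable def afun (ν : Measure ℝ) (δ : ℝ) (j : ℕ) (t : ℝ) : ℝ := δ * cs ν ((j : ℝ) + 1) t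

/-- The function `δ c`. -/
noncomputable def ainf (ν : Measure ℝ) (δ : ℝ) (t : ℝ) : ℝ := δ * cdf' ν t

/-- The metrics of the counterexample. -/
noncomputable def gseq (m : ℕ) (ν : Measure ℝ) (δ : ℝ) (j : ℕ) : MetricField (m + 2) :=
  gmet m (afun ν δ j) (bfun δ)

section basic

variable {δ : ℝ}

theorem contDiff_bfun : ContDiff ℝ ∞ (bfun δ) := by
  unfold bfun
  exact contDiff_const.mul Real.contDiff_arctan

theorem continuous_bfun : Continuous (bfun δ) := (contDiff_bfun (δ := δ)).continuous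

theorem deriv_bfun (t : ℝ) : deriv (bfun δ) t = δ * (1 / (1 + t ^ 2)) := by
  unfold bfun
  exact ((Real.hasDerivAt_arctan t).const_mul δ).deriv

theorem abs_bfun_le (hδ : 0 ≤ δ) (t : ℝ) : |bfun δ t| ≤ 2 * δ := by
  unfold bfun
  rw [abs_mul, abs_of_nonneg hδ, mul_comm]
  apply mul_le_mul_of_nonneg_right _ hδ
  rw [abs_le]
  have h1 := Real.arctan_lt_pi_div_two t
  have h2 := Real.neg_pi_div_two_lt_arctan t
  have h3 := Real.pi_lt_four
  constructor <;> linarith

variable (ν : Measure ℝ) [IsProbabilityMeasure ν]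

theorem contDiff_afun (j : ℕ) : ContDiff ℝ ∞ (afun ν δ j) := by
  unfold afun
  exact contDiff_const.mul (contDiff_cs ν (by positivity))

theorem continuous_afun (j : ℕ) : Continuous (afun ν δ j) :=
  (contDiff_afun (δ := δ) ν j).continuous

theorem deriv_afun (j : ℕ) (t : ℝ) : deriv (afun ν δ j) t = δ * dcs ν ((j : ℝ) + 1) t := by
  unfold afun
  exact ((hasDerivAt_cs ν (by positivity) t).const_mul δ).deriv

theorem abs_afun_le (hδ : 0 ≤ δ) (j : ℕ) (t : ℝ) : |afun ν δ j t| ≤ 2 * δ := by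
  unfold afun
  have h1 := cs_nonneg ν (κ := (j : ℝ) + 1) t
  have h2 := cs_le_one ν (κ := (j : ℝ) + 1) (by positivity) t
  rw [abs_mul, abs_of_nonneg hδ, abs_of_nonneg h1, mul_comm]
  apply mul_le_mul_of_nonneg_right _ hδ
  linarith

theorem abs_ainf_le (hδ : 0 ≤ δ) (t : ℝ) : |ainf ν δ t| ≤ 2 * δ := by
  unfold ainf
  have h1 := cdf_nonneg ν t
  have h2 := cdf_le_one ν t
  rw [abs_mul, abs_of_nonneg hδ, abs_of_nonneg h1, mul_comm]
  apply mul_le_mul_of_nonneg_right _ hδ
  linarith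

theorem continuous_ainf (hν : ∀ x, ν {x} = 0) : Continuous (ainf ν δ) := by
  unfold ainf
  exact continuous_const.mul (continuous_cdf ν hν)

variable {m : ℕ}

theorem gseq_riemannian (j : ℕ) : IsRiemannianMetric (gseq m ν δ j) :=
  gmet_isRiemannianMetric (contDiff_afun ν j) contDiff_bfun

theorem gseq_low (j : ℕ) (x y : Fin (m + 2) → ℝ) : dist x y ≤ rdist (gseq m ν δ j) x y :=
  dist_le_rdist_gmet (continuous_afun ν j) continuous_bfun x y

theorem gseq_up (hδ : 0 ≤ δ) (j : ℕ) (x y : Fin (m + 2) → ℝ) :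
    rdist (gseq m ν δ j) x y ≤ CL m (2 * δ) * dist x y :=
  rdist_gmet_le (continuous_afun ν j) continuous_bfun (abs_afun_le ν hδ j) (abs_bfun_le hδ) x y

theorem differentiable_of_contDiff {a : ℝ → ℝ} (ha : ContDiff ℝ ∞ a) :
    Differentiable ℝ a ∧ Differentiable ℝ (deriv a) := by
  have h := (contDiff_infty_iff_deriv.mp ha)
  exact ⟨h.1, (contDiff_infty_iff_deriv.mp h.2).1⟩

theorem gseq_ricci (hδ : 0 ≤ δ) (j : ℕ) {lam : ℝ} (hlam : 0 ≤ lam) :
    RicciGe (gseq m ν δ j) lam := by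
  obtain ⟨ha, ha'⟩ := differentiable_of_contDiff (contDiff_afun (δ := δ) ν j)
  obtain ⟨hb, hb'⟩ := differentiable_of_contDiff (contDiff_bfun (δ := δ))
  apply ricciGe_gmet ha hb ha' hb' _ _ lam hlam
  · intro t
    rw [deriv_afun]
    exact mul_nonneg hδ (dcs_nonneg ν (by positivity) t)
  · intro t
    rw [deriv_bfun]
    positivity

/-- The density of the curvature measure apart from the factor `c_j'`. -/
noncomputable def wfun (δ : ℝ) (a : ℝ → ℝ) (x : Fin (m + 2) → ℝ) : ℝ :=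
  δ * (2 * (δ * (1 / (1 + x 1 ^ 2))) / (W2 a (bfun δ) x * √(W2 a (bfun δ) x)))

theorem gseq_scal (j : ℕ) (x : Fin (m + 2) → ℝ) :
    scal (gseq m ν δ j) x * √(gseq m ν δ j x).det =
      wfun δ (afun ν δ j) x * dcs ν ((j : ℝ) + 1) (x 0) := by
  obtain ⟨ha, ha'⟩ := differentiable_of_contDiff (contDiff_afun (δ := δ) ν j)
  obtain ⟨hb, hb'⟩ := differentiable_of_contDiff (contDiff_bfun (δ := δ))
  unfold gseq
  rw [scal_mul_sqrt_det ha hb ha' hb', deriv_afun, deriv_bfun, wfun]
  ring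

omit ν [IsProbabilityMeasure ν] in
theorem wfun_nonneg (hδ : 0 ≤ δ) (a : ℝ → ℝ) (x : Fin (m + 2) → ℝ) : 0 ≤ wfun δ a x := by
  unfold wfun
  have := W2_pos (a := a) (b := bfun δ) x
  positivity

omit ν [IsProbabilityMeasure ν] in
theorem wfun_pos (hδ : 0 < δ) (a : ℝ → ℝ) (x : Fin (m + 2) → ℝ) : 0 < wfun δ a x := by
  unfold wfun
  have := W2_pos (a := a) (b := bfun δ) x
  have h2 : 0 < √(W2 a (bfun δ) x) := Real.sqrt_pos.mpr this
  positivity

omit ν [IsProbabilityMeasure ν] in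
theorem wfun_le (hδ : 0 ≤ δ) (a : ℝ → ℝ) (x : Fin (m + 2) → ℝ) :
    wfun δ a x ≤ 2 * δ ^ 2 := by
  unfold wfun
  have h1 := one_le_W2 (a := a) (b := bfun δ) x
  have h2 : 1 ≤ √(W2 a (bfun δ) x) := by rw [Real.one_le_sqrt]; exact h1
  have h3 : 1 ≤ W2 a (bfun δ) x * √(W2 a (bfun δ) x) := one_le_mul_of_one_le_of_one_le h1 h2
  have h4 : 1 / (1 + x 1 ^ 2) ≤ 1 := by
    rw [div_le_one (by positivity)]
    nlinarith [sq_nonneg (x 1)]
  have h5 : 2 * (δ * (1 / (1 + x 1 ^ 2))) / (W2 a (bfun δ) x * √(W2 a (bfun δ) x)) ≤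
      2 * (δ * 1) := by
    rw [div_le_iff₀ (by linarith)]
    have h6 : 2 * (δ * (1 / (1 + x 1 ^ 2))) ≤ 2 * (δ * 1) := by
      apply mul_le_mul_of_nonneg_left _ (by norm_num)
      exact mul_le_mul_of_nonneg_left h4 hδ
    have h7 : 2 * (δ * 1) * 1 ≤ 2 * (δ * 1) * (W2 a (bfun δ) x * √(W2 a (bfun δ) x)) :=
      mul_le_mul_of_nonneg_left h3 (by positivity)
    linarith
  calc _ ≤ δ * (2 * (δ * 1)) := mul_le_mul_of_nonneg_left h5 hδ
    _ = 2 * δ ^ 2 := by ring

omit ν [IsProbabilityMeasure ν] in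
theorem continuous_wfun {a : ℝ → ℝ} (ha : Continuous a) :
    Continuous (wfun δ a : (Fin (m + 2) → ℝ) → ℝ) := by
  unfold wfun
  have hW : Continuous fun x : Fin (m + 2) → ℝ => W2 a (bfun δ) x := by
    unfold W2
    exact (continuous_const.add ((ha.comp (continuous_apply 0)).pow 2)).add
      ((continuous_bfun.comp (continuous_apply 1)).pow 2)
  apply continuous_const.mul
  apply Continuous.div
  · apply continuous_const.mul
    apply continuous_const.mul
    apply Continuous.div continuous_const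
    · exact continuous_const.add ((continuous_apply 1).pow 2)
    · intro x; positivity
  · exact hW.mul hW.sqrt
  · intro x
    have h1 := one_le_W2 (a := a) (b := bfun δ) x
    have h2 : 1 ≤ √(W2 a (bfun δ) x) := by rw [Real.one_le_sqrt]; exact h1
    have h3 : 1 ≤ W2 a (bfun δ) x * √(W2 a (bfun δ) x) := one_le_mul_of_one_le_of_one_le h1 h2
    linarith

omit ν [IsProbabilityMeasure ν] in
/-- Continuity of `wfun` in both the function and the point. -/
theorem tendsto_wfun {a : ℕ → ℝ → ℝ} {a' : ℝ → ℝ} {u : ℕ → (Fin (m + 2) → ℝ)}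
    {x : Fin (m + 2) → ℝ} (hu : Tendsto u atTop (𝓝 x))
    (ha : Tendsto (fun i => a i (u i 0)) atTop (𝓝 (a' (x 0)))) :
    Tendsto (fun i => wfun δ (a i) (u i)) atTop (𝓝 (wfun δ a' x)) := by
  unfold wfun
  have hu1 : Tendsto (fun i => u i 1) atTop (𝓝 (x 1)) := (tendsto_pi_nhds.mp hu) 1
  have hW : Tendsto (fun i => W2 (a i) (bfun δ) (u i)) atTop (𝓝 (W2 a' (bfun δ) x)) := by
    unfold W2
    exact (tendsto_const_nhds.add (ha.pow 2)).add
      (((continuous_bfun.tendsto _).comp hu1).pow 2)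
  apply Tendsto.const_mul
  apply Tendsto.div
  · apply Tendsto.const_mul
    apply Tendsto.const_mul
    apply Tendsto.div tendsto_const_nhds
    · exact tendsto_const_nhds.add (hu1.pow 2)
    · positivity
  · exact hW.mul hW.sqrt
  · have h1 := one_le_W2 (a := a') (b := bfun δ) x
    have h2 : 1 ≤ √(W2 a' (bfun δ) x) := by rw [Real.one_le_sqrt]; exact h1
    have h3 : 1 ≤ W2 a' (bfun δ) x * √(W2 a' (bfun δ) x) := one_le_mul_of_one_le_of_one_le h1 h2
    linarith

end basic

section limit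

variable {m : ℕ} {δ : ℝ} (ν : Measure ℝ) [IsProbabilityMeasure ν]
  {X : Type} [MetricSpace X] [CompleteSpace X] [MeasurableSpace X] [BorelSpace X] {q : X}
  {φ : ℕ → (Fin (m + 2) → ℝ) → X} {ε : ℕ → ℝ}

/-- The curvature measures converge along a subsequence, with an explicit limit. -/
theorem curvature_limit (hδ : 0 < δ) (hν : ∀ x, ν {x} = 0) (hI : ν (Icc 0 2)ᶜ = 0)
    {k : ℕ → ℕ} (hk : StrictMono k)
    (H : IsGHApprox (fun j => gseq m ν δ (k j)) q φ ε) :
    ∃ l : ℕ → ℕ, StrictMono l ∧ ∃ Ψ : (Fin (m + 2) → ℝ) → X,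
      (∀ a b, dist a b ≤ dist (Ψ a) (Ψ b) ∧ dist (Ψ a) (Ψ b) ≤ CL m (2 * δ) * dist a b) ∧
      ∀ f : X → ℝ, Continuous f → HasCompactSupport f →
        Tendsto (fun i => ∫ a in rball (gseq m ν δ (k (l i))) 0 (1 / ε (l i)),
          f (φ (l i) a) * (scal (gseq m ν δ (k (l i))) a * √(gseq m ν δ (k (l i)) a).det))
          atTop (𝓝 (∫ x, f (Ψ x) * wfun δ (ainf ν δ) x ∂(lam ν))) := by
  have hC := CL_pos m (2 * δ)
  obtain ⟨l, hl, Ψ, hΨ, hconv⟩ := gh_limit (fun j => gseq_low ν (k j))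
    (fun j => gseq_up ν hδ.le (k j)) hC H
  refine ⟨l, hl, Ψ, hΨ, ?_⟩
  intro f hf hfc
  obtain ⟨τ, hτ0, hτlim, hτ⟩ := exists_tau ν hν hI
  obtain ⟨F, hF⟩ := hfc.exists_bound_of_continuous hf
  have hF0 : 0 ≤ F := (norm_nonneg _).trans (hF q)
  -- the support of `f` is bounded
  obtain ⟨ρ, hρ⟩ : ∃ ρ : ℝ, ∀ y, f y ≠ 0 → dist y q ≤ ρ := by
    obtain ⟨ρ, hρ⟩ := hfc.isCompact.isBounded.subset_closedBall q
    exact ⟨ρ, fun y hy => hρ (subset_tsupport f hy)⟩
  -- uniform bound for the errors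
  obtain ⟨E, hE⟩ : ∃ E : ℝ, ∀ j, ε j ≤ E := by
    obtain ⟨E, hE⟩ := H.eps_lim.bddAbove_range
    exact ⟨E, fun j => hE (mem_range_self j)⟩
  set h : ℕ → (Fin (m + 2) → ℝ) → ℝ := fun i =>
    (rball (gseq m ν δ (k (l i))) 0 (1 / ε (l i))).indicator
      (fun a => f (φ (l i) a) * wfun δ (afun ν δ (k (l i))) a) with hh
  have hball : ∀ i, MeasurableSet (rball (gseq m ν δ (k (l i))) 0 (1 / ε (l i))) := fun i =>
    measurableSet_rball (contMetric_gmet (continuous_afun ν _) continuous_bfun)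
      (gseq_up ν hδ.le _) _
  have e1 : ∀ i, ∫ a in rball (gseq m ν δ (k (l i))) 0 (1 / ε (l i)),
      f (φ (l i) a) * (scal (gseq m ν δ (k (l i))) a * √(gseq m ν δ (k (l i)) a).det) =
      ∫ x, h i x * dcs ν ((k (l i) : ℝ) + 1) (x 0) := by
    intro i
    rw [← integral_indicator (hball i)]
    congr 1
    funext x
    by_cases hx : x ∈ rball (gseq m ν δ (k (l i))) 0 (1 / ε (l i))
    · simp only [hh, indicator_of_mem hx, gseq_scal]
      ring
    · simp only [hh, indicator_of_notMem hx, zero_mul]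
  simp only [e1]
  have hκt : Tendsto (fun i => (k (l i) : ℝ) + 1) atTop atTop := by
    apply tendsto_atTop_add_const_right
    exact tendsto_natCast_atTop_atTop.comp (hk.tendsto_atTop.comp hl.tendsto_atTop)
  refine tendsto_integral_dcs ν (κ := fun i => (k (l i) : ℝ) + 1) (fun i => by positivity) hκt
    (h := h) (hlim := fun x => f (Ψ x) * wfun δ (ainf ν δ) x) (B := F * (2 * δ ^ 2))
    (R := ρ + 2 * E) ?_ ?_ ?_ ?_
  · intro i
    apply Measurable.indicator _ (hball i)
    exact (hf.measurable.comp (H.borel (l i))).mul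
      (continuous_wfun (continuous_afun ν _)).measurable
  · intro i x
    by_cases hx : x ∈ rball (gseq m ν δ (k (l i))) 0 (1 / ε (l i))
    · simp only [hh, indicator_of_mem hx, abs_mul]
      apply mul_le_mul (hF _) _ (abs_nonneg _) hF0
      rw [abs_of_nonneg (wfun_nonneg hδ.le _ _)]
      exact wfun_le hδ.le _ _
    · simp only [hh, indicator_of_notMem hx, abs_zero]
      positivity
  · intro i x hx
    by_cases hxb : x ∈ rball (gseq m ν δ (k (l i))) 0 (1 / ε (l i))
    · simp only [hh, indicator_of_mem hxb]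
      by_cases hfx : f (φ (l i) x) = 0
      · rw [hfx, zero_mul]
      · exfalso
        have h1 := hρ _ hfx
        have h0 : (0 : Fin (m + 2) → ℝ) ∈ rball (gseq m ν δ (k (l i))) 0 (1 / ε (l i)) := by
          have hself : rdist (gseq m ν δ (k (l i))) 0 0 = 0 :=
            rdist_self (contMetric_gmet (continuous_afun ν _) continuous_bfun) 0
          change rdist (gseq m ν δ (k (l i))) 0 0 < _
          rw [hself]
          exact one_div_pos.mpr (H.eps_pos _)
        have h2 := (abs_le.mp (H.distortion (l i) 0 h0 x hxb)).1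
        have h3 := H.base (l i)
        have h4 := gseq_low (m := m) (δ := δ) ν (k (l i)) 0 x
        rw [dist_zero_left] at h4
        have h5 := dist_triangle (φ (l i) 0) q (φ (l i) x)
        rw [dist_comm q] at h5
        have h6 := hE (l i)
        linarith
    · simp only [hh, indicator_of_notMem hxb]
  · intro x u hu
    -- eventually in the ball
    have hbd : ∀ᶠ i in atTop, u i ∈ rball (gseq m ν δ (k (l i))) 0 (1 / ε (l i)) := by
      have h1 := eventually_mem_rball (fun j => gseq_up ν hδ.le (k j)) hC.le H (‖x‖ + 1)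
      have h2 := hl.tendsto_atTop.eventually h1
      have h3 : ∀ᶠ i in atTop, ‖u i‖ < ‖x‖ + 1 := hu.norm.eventually (gt_mem_nhds (by linarith))
      filter_upwards [h2, h3] with i hi2 hi3
      exact hi2 _ hi3.le
    have ha : Tendsto (fun i => afun ν δ (k (l i)) (u i 0)) atTop (𝓝 (ainf ν δ (x 0))) := by
      have hu0 : Tendsto (fun i => u i 0) atTop (𝓝 (x 0)) := (tendsto_pi_nhds.mp hu) 0
      have h1 : Tendsto (fun i => ainf ν δ (u i 0)) atTop (𝓝 (ainf ν δ (x 0))) :=
        ((continuous_ainf ν hν).tendsto _).comp hu0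
      have h2 : Tendsto (fun i => afun ν δ (k (l i)) (u i 0) - ainf ν δ (u i 0)) atTop (𝓝 0) := by
        have h3 : Tendsto (fun i => δ * τ (k (l i))) atTop (𝓝 (δ * 0)) :=
          (hτlim.comp (hk.tendsto_atTop.comp hl.tendsto_atTop)).const_mul δ
        rw [mul_zero] at h3
        apply squeeze_zero_norm _ h3
        intro i
        unfold afun ainf
        rw [← mul_sub, norm_mul, Real.norm_eq_abs, Real.norm_eq_abs, abs_of_pos hδ]
        exact mul_le_mul_of_nonneg_left (hτ _ _) hδ.le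
      have h4 := h2.add h1
      simp only [sub_add_cancel, zero_add] at h4
      exact h4
    have hfl : Tendsto (fun i => f (φ (l i) (u i)) * wfun δ (afun ν δ (k (l i))) (u i)) atTop
        (𝓝 (f (Ψ x) * wfun δ (ainf ν δ) x)) :=
      ((hf.tendsto _).comp (hconv x u hu)).mul (tendsto_wfun hu ha)
    apply hfl.congr'
    filter_upwards [hbd] with i hi
    simp only [hh, indicator_of_mem hi]

end limit

end Pool.Agent.Lib.Pe3602a
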