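import Pool.Agent.Lib.Pe3602a.Main

/-!
# The limit measure is not of the required form, and the limit space exists
-/

open MeasureTheory Measure Filter Topology Set
open scoped ContDiff ENNReal NNReal

namespace Pool.Agent.Lib.Pe3602a

section form

variable {m : ℕ} {δ : ℝ} (ν : Measure ℝ) [IsProbabilityMeasure ν]
  {X : Type} [MetricSpace X] [ProperSpace X] [MeasurableSpace X] [BorelSpace X]

/-- The limit measure on `X`. -/
noncomputable def limM (δ : ℝ) (Ψ : (Fin (m + 2) → ℝ) → X) : Measure X :=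
  Measure.map Ψ ((lam ν : Measure (Fin (m + 2) → ℝ)).withDensity
    fun x => ENNReal.ofReal (wfun δ (ainf ν δ) x))

theorem limit_not_form (hδ : 0 < δ) (hν : ∀ x, ν {x} = 0) {K : Set ℝ} (hKm : MeasurableSet K)
    (hK0 : volume K = 0) (hKν : ν Kᶜ = 0) (q : X) {C : ℝ} (hC : 0 < C)
    {Ψ : (Fin (m + 2) → ℝ) → X}
    (hΨ : ∀ a b, dist a b ≤ dist (Ψ a) (Ψ b) ∧ dist (Ψ a) (Ψ b) ≤ C * dist a b)
    {R θ w : X → ℝ} {S T : Set X}
    (hR : LocallyIntegrable R (μH[((m + 2 : ℕ) : ℝ)]))
    (hθ : LocallyIntegrable θ ((μH[((m + 2 : ℕ) : ℝ) - 1]).restrict S))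
    (hw : LocallyIntegrable w ((μH[((m + 2 : ℕ) : ℝ) - 2]).restrict T)) :
    ¬ ∀ f : X → ℝ, Continuous f → HasCompactSupport f →
      ∫ x, f (Ψ x) * wfun δ (ainf ν δ) x ∂(lam ν) =
        ∫ y, f y * R y ∂(μH[((m + 2 : ℕ) : ℝ)]) +
        ∫ y in S, f y * θ y ∂(μH[((m + 2 : ℕ) : ℝ) - 1]) +
        ∫ y in T, f y * w y ∂(μH[((m + 2 : ℕ) : ℝ) - 2]) := by
  have hlip : LipschitzWith (Real.toNNReal C) Ψ := by
    apply LipschitzWith.of_dist_le_mul
    intro a b
    rw [Real.coe_toNNReal C hC.le]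
    exact (hΨ a b).2
  have hanti : AntilipschitzWith 1 Ψ := by
    apply AntilipschitzWith.of_le_mul_dist
    intro a b
    rw [NNReal.coe_one, one_mul]
    exact (hΨ a b).1
  have hΨc : Continuous Ψ := hlip.continuous
  have hΨm : Measurable Ψ := hΨc.measurable
  have hwc : Continuous (wfun δ (ainf ν δ) : (Fin (m + 2) → ℝ) → ℝ) :=
    continuous_wfun (continuous_ainf ν hν)
  set D : Measure (Fin (m + 2) → ℝ) := (lam ν : Measure (Fin (m + 2) → ℝ)).withDensity
    fun x => ENNReal.ofReal (wfun δ (ainf ν δ) x) with hD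
  have hDac : D ≪ lam ν := withDensity_absolutelyContinuous _ _
  have hMac : ∀ A : Set X, MeasurableSet A → lam ν (Ψ ⁻¹' A) = 0 → limM ν δ Ψ A = 0 := by
    intro A hA h0
    unfold limM
    rw [map_apply hΨm hA]
    exact hDac h0
  -- integrals against the limit measure
  have hint : ∀ f : X → ℝ, Continuous f →
      ∫ y, f y ∂(limM ν δ Ψ) = ∫ x, f (Ψ x) * wfun δ (ainf ν δ) x ∂(lam ν) := by
    intro f hf
    unfold limM
    rw [integral_map hΨm.aemeasurable hf.aestronglyMeasurable,
      integral_withDensity_eq_integral_toReal_smul]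
    · congr 1
      funext x
      rw [ENNReal.toReal_ofReal (wfun_nonneg hδ.le _ x), smul_eq_mul, mul_comm]
    · exact (hwc.measurable).ennreal_ofReal
    · filter_upwards with x
      exact ENNReal.ofReal_lt_top
  -- finiteness on compact sets
  haveI hfc : IsFiniteMeasureOnCompacts (limM ν δ Ψ) := by
    refine ⟨fun A hA => ?_⟩
    unfold limM
    rw [map_apply hΨm hA.measurableSet]
    have hbd : Bornology.IsBounded (Ψ ⁻¹' A) := by
      exact hanti.isBounded_preimage hA.isBounded
    obtain ⟨r, hr⟩ := hbd.subset_closedBall 0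
    calc D (Ψ ⁻¹' A) ≤ D (Metric.closedBall 0 r) := measure_mono hr
      _ ≤ ∫⁻ x in Metric.closedBall 0 r, ENNReal.ofReal (2 * δ ^ 2) ∂(lam ν) := by
          rw [hD, withDensity_apply _ measurableSet_closedBall]
          apply lintegral_mono
          intro x
          exact ENNReal.ofReal_le_ofReal (wfun_le hδ.le _ _)
      _ < ⊤ := by
          rw [lintegral_const, restrict_apply MeasurableSet.univ, univ_inter]
          exact ENNReal.mul_lt_top ENNReal.ofReal_lt_top (lam_closedBall_lt_top ν r)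
  -- the limit measure is not zero
  have hM0 : limM ν δ Ψ ≠ 0 := by
    intro h0
    have h1 : limM ν δ Ψ univ = 0 := by rw [h0]; rfl
    unfold limM at h1
    rw [map_apply hΨm MeasurableSet.univ, preimage_univ, withDensity_apply _ MeasurableSet.univ,
      restrict_univ, lintegral_eq_zero_iff (hwc.measurable.ennreal_ofReal)] at h1
    have h2 : lam ν (univ : Set (Fin (m + 2) → ℝ)) = 0 := by
      have h3 : ∀ᵐ x ∂(lam ν : Measure (Fin (m + 2) → ℝ)), False := by
        filter_upwards [h1] with x hx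
        have := wfun_pos (m := m) hδ (ainf ν δ) x
        simp only [Pi.zero_apply, ENNReal.ofReal_eq_zero] at hx
        linarith
      rw [ae_iff] at h3
      simpa using h3
    exact lam_univ_ne_zero ν h2
  have hn1 : ((m + 2 : ℕ) : ℝ) - 1 = ((m + 1 : ℕ) : ℝ) := by push_cast; ring
  -- sets of finite codimension one measure are null
  have hkey : ∀ N : Set X, MeasurableSet N → μH[((m + 2 : ℕ) : ℝ) - 1] N ≠ ⊤ →
      limM ν δ Ψ N = 0 := by
    intro N hN hfin
    apply hMac N hN
    apply lam_eq_zero_of_hausdorff_finite ν hν (hΨm hN)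
    rw [hn1] at hfin
    have h1 := hanti.hausdorffMeasure_preimage_le (d := ((m + 1 : ℕ) : ℝ)) (by positivity) N
    simp only [ENNReal.coe_one, ENNReal.one_rpow, one_mul] at h1
    exact (h1.trans_lt hfin.lt_top).ne
  have main := not_form (M := limM ν δ Ψ) (μ₀ := μH[((m + 2 : ℕ) : ℝ)])
    (μ₁ := (μH[((m + 2 : ℕ) : ℝ) - 1]).restrict S)
    (μ₂ := (μH[((m + 2 : ℕ) : ℝ) - 2]).restrict T) hM0 q ?_ ?_ ?_ hR hθ hw
  · intro H
    apply main
    intro f hf hfc
    rw [hint f hf]
    exact H f hf hfc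
  · -- the singular set
    have h0 : μH[((m + 2 : ℕ) : ℝ)] (Ψ '' {x | x 0 ∈ K}) = 0 := by
      have h1 := hlip.hausdorffMeasure_image_le (d := ((m + 2 : ℕ) : ℝ)) (by positivity)
        {x : Fin (m + 2) → ℝ | x 0 ∈ K}
      have h2 : μH[((m + 2 : ℕ) : ℝ)] {x : Fin (m + 2) → ℝ | x 0 ∈ K} = 0 := by
        have := hausdorffMeasure_pi_real (ι := Fin (m + 2))
        rw [Fintype.card_fin] at this
        rw [this]
        exact volume_slab_eq_zero hK0
      rw [h2, mul_zero] at h1
      exact le_antisymm h1 bot_le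
    refine ⟨toMeasurable μH[((m + 2 : ℕ) : ℝ)] (Ψ '' {x | x 0 ∈ K}),
      measurableSet_toMeasurable _ _, ?_, ?_⟩
    · rw [measure_toMeasurable, h0]
    · apply hMac _ (measurableSet_toMeasurable _ _).compl
      apply measure_mono_null _ (lam_compl_eq_zero (m := m + 1) ν hKm hKν)
      intro x hx hxK
      exact hx (subset_toMeasurable _ _ ⟨x, hxK, rfl⟩)
  · intro A hA hfin
    rw [restrict_apply hA] at hfin
    refine ⟨toMeasurable μH[((m + 2 : ℕ) : ℝ) - 1] (A ∩ S), measurableSet_toMeasurable _ _,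
      ?_, ?_⟩
    · apply hkey _ (measurableSet_toMeasurable _ _)
      rw [measure_toMeasurable]
      exact hfin.ne
    · rw [restrict_apply (hA.diff (measurableSet_toMeasurable _ _))]
      have : (A \ toMeasurable μH[((m + 2 : ℕ) : ℝ) - 1] (A ∩ S)) ∩ S = ∅ := by
        ext y
        simp only [mem_inter_iff, mem_diff, mem_empty_iff_false, iff_false, not_and]
        rintro ⟨hyA, hy⟩ hyS
        exact hy (subset_toMeasurable _ _ ⟨hyA, hyS⟩)
      rw [this, measure_empty]
  · intro A hA hfin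
    rw [restrict_apply hA] at hfin
    refine ⟨toMeasurable μH[((m + 2 : ℕ) : ℝ) - 2] (A ∩ T), measurableSet_toMeasurable _ _,
      ?_, ?_⟩
    · apply hkey _ (measurableSet_toMeasurable _ _)
      have h1 := hausdorffMeasure_zero_or_top (d₁ := ((m + 2 : ℕ) : ℝ) - 2)
        (d₂ := ((m + 2 : ℕ) : ℝ) - 1) (by linarith)
        (toMeasurable μH[((m + 2 : ℕ) : ℝ) - 2] (A ∩ T))
      rcases h1 with h1 | h1
      · rw [h1]; exact ENNReal.zero_ne_top
      · exfalso
        rw [measure_toMeasurable] at h1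
        exact hfin.ne h1
    · rw [restrict_apply (hA.diff (measurableSet_toMeasurable _ _))]
      have : (A \ toMeasurable μH[((m + 2 : ℕ) : ℝ) - 2] (A ∩ T)) ∩ T = ∅ := by
        ext y
        simp only [mem_inter_iff, mem_diff, mem_empty_iff_false, iff_false, not_and]
        rintro ⟨hyA, hy⟩ hyS
        exact hy (subset_toMeasurable _ _ ⟨hyA, hyS⟩)
      rw [this, measure_empty]

end form

end Pool.Agent.Lib.Pe3602a
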