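import Mathlib

/-!
# Smoothing the distribution function of a measure on the line
-/

open MeasureTheory Filter Topology Set
open scoped ContDiff ENNReal

namespace Pool.Agent.Lib.Pe3602a

/-- The derivative of the smooth step. -/
noncomputable def stepD (s : ℝ) : ℝ := deriv Real.smoothTransition s

theorem contDiff_stepD {n : ℕ∞} : ContDiff ℝ n stepD := by
  have h : ContDiff ℝ ∞ Real.smoothTransition := Real.smoothTransition.contDiff
  have h2 : ContDiff ℝ ∞ (deriv Real.smoothTransition) := by
    exact (contDiff_infty_iff_deriv.mp h).2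
  exact h2.of_le (by exact_mod_cast le_top)

theorem continuous_stepD : Continuous stepD := (contDiff_stepD (n := 0)).continuous

theorem hasDerivAt_smoothTransition (s : ℝ) :
    HasDerivAt Real.smoothTransition (stepD s) s :=
  (((Real.smoothTransition.contDiff (n := 1)).differentiable one_ne_zero) s).hasDerivAt

theorem stepD_nonneg (s : ℝ) : 0 ≤ stepD s := Real.smoothTransition.monotone.deriv_nonneg

theorem stepD_of_neg {s : ℝ} (hs : s < 0) : stepD s = 0 := by
  have : Real.smoothTransition =ᶠ[𝓝 s] fun _ => 0 := by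
    filter_upwards [Iio_mem_nhds hs] with t ht
    exact Real.smoothTransition.zero_of_nonpos (le_of_lt ht)
  unfold stepD
  rw [this.deriv_eq, deriv_const]

theorem stepD_of_one_lt {s : ℝ} (hs : 1 < s) : stepD s = 0 := by
  have : Real.smoothTransition =ᶠ[𝓝 s] fun _ => 1 := by
    filter_upwards [Ioi_mem_nhds hs] with t ht
    exact Real.smoothTransition.one_of_one_le (le_of_lt ht)
  unfold stepD
  rw [this.deriv_eq, deriv_const]

theorem stepD_zero : stepD 0 = 0 := by
  have h := continuous_stepD.tendsto 0
  have h2 : Tendsto stepD (𝓝[<] 0) (𝓝 (stepD 0)) := h.mono_left nhdsWithin_le_nhds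
  have h3 : Tendsto stepD (𝓝[<] 0) (𝓝 0) := by
    apply tendsto_const_nhds.congr'
    filter_upwards [self_mem_nhdsWithin] with s hs
    exact (stepD_of_neg hs).symm
  exact tendsto_nhds_unique h2 h3

theorem support_stepD : Function.support stepD ⊆ Ioc 0 1 := by
  intro s hs
  rw [Function.mem_support] at hs
  constructor
  · by_contra h
    push Not at h
    rcases h.lt_or_eq with h | h
    · exact hs (stepD_of_neg h)
    · rw [h] at hs; exact hs stepD_zero
  · by_contra h
    push Not at h
    exact hs (stepD_of_one_lt h)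

theorem hasCompactSupport_stepD : HasCompactSupport stepD := by
  apply HasCompactSupport.of_support_subset_isCompact (isCompact_Icc (a := (0 : ℝ)) (b := 1))
  exact support_stepD.trans Ioc_subset_Icc_self

theorem integrable_stepD : Integrable stepD :=
  continuous_stepD.integrable_of_hasCompactSupport hasCompactSupport_stepD

theorem integral_stepD : ∫ s, stepD s = 1 := by
  rw [← intervalIntegral.integral_eq_integral_of_support_subset support_stepD]
  unfold stepD
  rw [intervalIntegral.integral_deriv_eq_sub]
  · rw [Real.smoothTransition.one, Real.smoothTransition.zero, sub_zero]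
  · intro x _
    exact (hasDerivAt_smoothTransition x).differentiableAt
  · exact continuous_stepD.intervalIntegrable _ _

theorem exists_stepD_le : ∃ B : ℝ, 0 ≤ B ∧ ∀ s, stepD s ≤ B := by
  obtain ⟨B, hB⟩ := hasCompactSupport_stepD.exists_bound_of_continuous continuous_stepD
  exact ⟨B, (norm_nonneg _).trans (hB 0), fun s => (le_abs_self _).trans (hB s)⟩

/-- The smoothed distribution function of `ν` at scale `1 / κ`. -/
noncomputable def cs (ν : Measure ℝ) (κ x : ℝ) : ℝ :=
  ∫ z, Real.smoothTransition (κ * (x - z)) ∂ν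

/-- Its derivative. -/
noncomputable def dcs (ν : Measure ℝ) (κ x : ℝ) : ℝ :=
  ∫ z, κ * stepD (κ * (x - z)) ∂ν

section

variable (ν : Measure ℝ) [IsProbabilityMeasure ν] {κ : ℝ}

theorem hasDerivAt_cs (hκ : 0 < κ) (x : ℝ) : HasDerivAt (cs ν κ) (dcs ν κ x) x := by
  obtain ⟨B, hB0, hB⟩ := exists_stepD_le
  unfold cs dcs
  refine (hasDerivAt_integral_of_dominated_loc_of_deriv_le (𝕜 := ℝ) (μ := ν) (s := univ)
    (F := fun x z => Real.smoothTransition (κ * (x - z)))
    (F' := fun x z => κ * stepD (κ * (x - z))) univ_mem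
    (bound := fun _ => κ * B) ?_ ?_ ?_ ?_ ?_ ?_).2
  · filter_upwards with y
    exact (Real.smoothTransition.continuous.comp
      (continuous_const.mul (continuous_const.sub continuous_id))).aestronglyMeasurable
  · apply Integrable.mono' (integrable_const (1 : ℝ))
    · exact (Real.smoothTransition.continuous.comp
        (continuous_const.mul (continuous_const.sub continuous_id))).aestronglyMeasurable
    · filter_upwards with z
      rw [Real.norm_eq_abs, abs_of_nonneg (Real.smoothTransition.nonneg _)]
      exact Real.smoothTransition.le_one _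
  · exact (continuous_const.mul (continuous_stepD.comp
      (continuous_const.mul (continuous_const.sub continuous_id)))).aestronglyMeasurable
  · filter_upwards with z y _
    rw [Real.norm_eq_abs, abs_of_nonneg (mul_nonneg hκ.le (stepD_nonneg _))]
    exact mul_le_mul_of_nonneg_left (hB _) hκ.le
  · exact integrable_const _
  · filter_upwards with z y _
    have h1 : HasDerivAt (fun y : ℝ => κ * (y - z)) κ y := by
      simpa using ((hasDerivAt_id y).sub_const z).const_mul κ
    have h2 := (hasDerivAt_smoothTransition (κ * (y - z))).comp y h1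
    rw [mul_comm] at h2
    exact h2

theorem deriv_cs (hκ : 0 < κ) : deriv (cs ν κ) = dcs ν κ := by
  funext x; exact (hasDerivAt_cs ν hκ x).deriv

theorem differentiable_cs (hκ : 0 < κ) : Differentiable ℝ (cs ν κ) :=
  fun x => (hasDerivAt_cs ν hκ x).differentiableAt

theorem contDiff_dcs (hκ : 0 < κ) : ContDiff ℝ ∞ (dcs ν κ) := by
  have h1 : ContDiff ℝ ∞ (fun t : ℝ => κ * stepD (κ * t)) := by
    have h := (contDiff_stepD (n := ⊤))
    exact contDiff_const.mul (h.comp (contDiff_const.mul contDiff_id))
  have h2 : HasCompactSupport (fun t : ℝ => κ * stepD (κ * t)) := by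
    have h3 : HasCompactSupport (fun t : ℝ => stepD (κ * t)) := by
      have := hasCompactSupport_stepD.comp_homeomorph (Homeomorph.mulLeft₀ κ hκ.ne')
      exact this
    exact h3.mul_left
  have h3 : LocallyIntegrable (fun _ : ℝ => (1 : ℝ)) ν := locallyIntegrable_const _
  have h4 := h2.contDiff_convolution_right (𝕜 := ℝ) (ContinuousLinearMap.lsmul ℝ ℝ) h3 h1
  convert! h4 using 1
  funext x
  simp [dcs, convolution]

theorem contDiff_cs (hκ : 0 < κ) : ContDiff ℝ ∞ (cs ν κ) := by
  rw [contDiff_infty_iff_deriv]
  refine ⟨differentiable_cs ν hκ, ?_⟩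
  rw [deriv_cs ν hκ]
  exact contDiff_dcs ν hκ

theorem dcs_nonneg (hκ : 0 < κ) (x : ℝ) : 0 ≤ dcs ν κ x :=
  integral_nonneg (fun _ => mul_nonneg hκ.le (stepD_nonneg _))

theorem cs_nonneg (x : ℝ) : 0 ≤ cs ν κ x :=
  integral_nonneg (fun _ => Real.smoothTransition.nonneg _)

theorem integrable_cs_integrand (κ x : ℝ) :
    Integrable (fun z => Real.smoothTransition (κ * (x - z))) ν := by
  apply Integrable.mono' (integrable_const (1 : ℝ))
  · exact (Real.smoothTransition.continuous.comp
      (continuous_const.mul (continuous_const.sub continuous_id))).aestronglyMeasurable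
  · filter_upwards with z
    rw [Real.norm_eq_abs, abs_of_nonneg (Real.smoothTransition.nonneg _)]
    exact Real.smoothTransition.le_one _

/-- The distribution function. -/
noncomputable def cdf' (ν : Measure ℝ) (x : ℝ) : ℝ := (ν (Iic x)).toReal

theorem cs_le_cdf (hκ : 0 < κ) (x : ℝ) : cs ν κ x ≤ cdf' ν x := by
  have h : cdf' ν x = ∫ z, (Iic x).indicator (fun _ => (1 : ℝ)) z ∂ν := by
    rw [integral_indicator measurableSet_Iic]
    simp [cdf', Measure.real]
  rw [h]
  apply integral_mono (integrable_cs_integrand ν κ x)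
  · exact (integrable_const (1 : ℝ)).indicator measurableSet_Iic
  · intro z
    simp only [indicator, mem_Iic]
    split_ifs with hz
    · exact Real.smoothTransition.le_one _
    · apply le_of_eq
      apply Real.smoothTransition.zero_of_nonpos
      push Not at hz
      nlinarith

theorem cdf_le_cs (hκ : 0 < κ) (x : ℝ) : cdf' ν (x - 1 / κ) ≤ cs ν κ x := by
  have h : cdf' ν (x - 1 / κ) = ∫ z, (Iic (x - 1 / κ)).indicator (fun _ => (1 : ℝ)) z ∂ν := by
    rw [integral_indicator measurableSet_Iic]
    simp [cdf', Measure.real]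
  rw [h]
  apply integral_mono _ (integrable_cs_integrand ν κ x)
  · intro z
    simp only [indicator, mem_Iic]
    split_ifs with hz
    · apply le_of_eq
      symm
      apply Real.smoothTransition.one_of_one_le
      have : 1 / κ ≤ x - z := by linarith
      rw [div_le_iff₀ hκ] at this
      linarith
    · exact Real.smoothTransition.nonneg _
  · exact (integrable_const (1 : ℝ)).indicator measurableSet_Iic

theorem cdf_le_one (x : ℝ) : cdf' ν x ≤ 1 := by
  unfold cdf'
  have := prob_le_one (μ := ν) (s := Iic x)
  exact ENNReal.toReal_le_of_le_ofReal zero_le_one (by simpa using this)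

theorem cdf_nonneg (x : ℝ) : 0 ≤ cdf' ν x := ENNReal.toReal_nonneg

theorem cs_le_one (hκ : 0 < κ) (x : ℝ) : cs ν κ x ≤ 1 := (cs_le_cdf ν hκ x).trans (cdf_le_one ν x)

theorem cdf_mono : Monotone (cdf' ν) := by
  intro x y h
  exact ENNReal.toReal_mono (measure_ne_top _ _) (measure_mono (Iic_subset_Iic.mpr h))

theorem cdf_eq_integral (x : ℝ) :
    cdf' ν x = ∫ z, (Iic x).indicator (fun _ => (1 : ℝ)) z ∂ν := by
  rw [integral_indicator measurableSet_Iic]
  simp [cdf', Measure.real]

theorem continuous_cdf (hν : ∀ x, ν {x} = 0) : Continuous (cdf' ν) := by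
  rw [continuous_iff_continuousAt]
  intro x
  have e : cdf' ν = fun x => ∫ z, (Iic x).indicator (fun _ => (1 : ℝ)) z ∂ν := by
    funext y; exact cdf_eq_integral ν y
  rw [e]
  apply continuousAt_of_dominated (bound := fun _ => (1 : ℝ))
  · filter_upwards with y
    exact (measurable_const.indicator measurableSet_Iic).aestronglyMeasurable
  · filter_upwards with y
    filter_upwards with z
    simp only [indicator]
    split_ifs <;> simp
  · exact integrable_const _
  · have : ∀ᵐ z ∂ν, z ≠ x := by
      rw [ae_iff]
      simpa using hν x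
    filter_upwards [this] with z hz
    have hc : (fun _ : ℝ => (Iic x).indicator (fun _ => (1 : ℝ)) z) =ᶠ[𝓝 x]
        fun y => (Iic y).indicator (fun _ => (1 : ℝ)) z := by
      rcases lt_or_gt_of_ne hz with h | h
      · filter_upwards [Ioi_mem_nhds h] with y hy
        simp only [indicator, mem_Iic]
        rw [if_pos h.le, if_pos (le_of_lt hy)]
      · filter_upwards [Iio_mem_nhds h] with y hy
        simp only [indicator, mem_Iic]
        rw [if_neg (not_le.mpr h), if_neg (not_le.mpr hy)]
    exact continuousAt_const.congr hc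

/-- If `ν` is concentrated on `[0, 2]` and has no atoms, its distribution function is uniformly
continuous. -/
theorem uniformContinuous_cdf (hν : ∀ x, ν {x} = 0) (hK : ν (Icc 0 2)ᶜ = 0) :
    UniformContinuous (cdf' ν) := by
  have hc := continuous_cdf ν hν
  have h1 : ∀ x, cdf' ν x = cdf' ν (projIcc (0 : ℝ) 2 (by norm_num) x) := by
    intro x
    rcases lt_or_ge x 0 with hx | hx
    · rw [projIcc_of_le_left _ hx.le]
      have e1 : ν (Iic x) = 0 := by
        apply measure_mono_null _ hK
        intro z hz
        simp only [mem_compl_iff, mem_Icc, not_and_or, not_le]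
        left; exact lt_of_le_of_lt hz hx
      have e2 : ν (Iic (0 : ℝ)) = 0 := by
        have : Iic (0 : ℝ) ⊆ (Icc 0 2)ᶜ ∪ {0} := by
          intro z hz
          rcases (mem_Iic.mp hz).lt_or_eq with h | h
          · left
            simp only [mem_compl_iff, mem_Icc, not_and_or, not_le]
            left; exact h
          · right; exact h
        apply measure_mono_null this
        rw [measure_union_null_iff]
        exact ⟨hK, hν 0⟩
      simp [cdf', e1, e2]
    · rcases le_or_gt x 2 with hx2 | hx2
      · rw [projIcc_of_mem _ ⟨hx, hx2⟩]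
      · rw [projIcc_of_right_le _ hx2.le]
        have e1 : ν (Iic x) = ν (Iic (2 : ℝ)) := by
          apply le_antisymm
          · have : Iic x ⊆ Iic (2 : ℝ) ∪ (Icc 0 2)ᶜ := by
              intro z _
              by_cases h : z ≤ 2
              · left; exact h
              · right
                simp only [mem_compl_iff, mem_Icc, not_and_or]
                right; exact h
            calc ν (Iic x) ≤ ν (Iic (2 : ℝ) ∪ (Icc 0 2)ᶜ) := measure_mono this
              _ ≤ ν (Iic (2 : ℝ)) + ν (Icc 0 2)ᶜ := measure_union_le _ _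
              _ = ν (Iic (2 : ℝ)) := by rw [hK, add_zero]
          · exact measure_mono (Iic_subset_Iic.mpr hx2.le)
        simp [cdf', e1]
  have h2 : UniformContinuous fun p : Icc (0 : ℝ) 2 => cdf' ν p :=
    CompactSpace.uniformContinuous_of_continuous (hc.comp continuous_subtype_val)
  have h3 : UniformContinuous (projIcc (0 : ℝ) 2 (by norm_num)) :=
    (LipschitzWith.projIcc _).uniformContinuous
  have h4 := h2.comp h3
  convert h4 using 1
  funext x
  exact h1 x

/-- The smoothed distribution functions converge uniformly. -/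
theorem exists_tau (hν : ∀ x, ν {x} = 0) (hK : ν (Icc 0 2)ᶜ = 0) :
    ∃ τ : ℕ → ℝ, (∀ j, 0 ≤ τ j) ∧ Tendsto τ atTop (𝓝 0) ∧
      ∀ (j : ℕ) (x : ℝ), |cs ν ((j : ℝ) + 1) x - cdf' ν x| ≤ τ j := by
  have huc := uniformContinuous_cdf ν hν hK
  have hb : ∀ j : ℕ, ∀ x, |cs ν ((j : ℝ) + 1) x - cdf' ν x| ≤
      cdf' ν x - cdf' ν (x - 1 / ((j : ℝ) + 1)) := by
    intro j x
    have hj : (0 : ℝ) < (j : ℝ) + 1 := by positivity
    have h1 := cs_le_cdf ν hj x
    have h2 := cdf_le_cs ν hj x
    rw [abs_le]
    constructor <;> linarith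
  have hbdd : ∀ j : ℕ, BddAbove (range fun x => |cs ν ((j : ℝ) + 1) x - cdf' ν x|) := by
    intro j
    refine ⟨1, ?_⟩
    rintro _ ⟨x, rfl⟩
    have := hb j x
    have h1 := cdf_le_one ν x
    have h2 := cdf_nonneg ν (x - 1 / ((j : ℝ) + 1))
    simp only
    linarith
  refine ⟨fun j => ⨆ x, |cs ν ((j : ℝ) + 1) x - cdf' ν x|, ?_, ?_, ?_⟩
  · intro j
    exact Real.iSup_nonneg (fun x => abs_nonneg _)
  · rw [Metric.tendsto_atTop]
    intro ε hε
    obtain ⟨δ, hδ, h⟩ := Metric.uniformContinuous_iff.mp huc (ε / 2) (by linarith)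
    obtain ⟨N, hN⟩ := exists_nat_gt (1 / δ)
    refine ⟨N, fun j hj => ?_⟩
    have hj0 : (0 : ℝ) < (j : ℝ) + 1 := by positivity
    have hjδ : 1 / ((j : ℝ) + 1) < δ := by
      rw [div_lt_iff₀ hj0]
      have : (N : ℝ) ≤ j := by exact_mod_cast hj
      have h5 : 1 / δ < (j : ℝ) + 1 := by linarith
      rw [div_lt_iff₀ hδ] at h5
      linarith
    have hle : (⨆ x, |cs ν ((j : ℝ) + 1) x - cdf' ν x|) ≤ ε / 2 := by
      apply ciSup_le
      intro x
      refine (hb j x).trans ?_
      have h6 : dist x (x - 1 / ((j : ℝ) + 1)) < δ := by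
        rw [Real.dist_eq]
        have : x - (x - 1 / ((j : ℝ) + 1)) = 1 / ((j : ℝ) + 1) := by ring
        rw [this, abs_of_pos (by positivity)]
        exact hjδ
      have h7 := h h6
      rw [Real.dist_eq] at h7
      exact (le_abs_self _).trans h7.le
    have h0 : 0 ≤ (⨆ x, |cs ν ((j : ℝ) + 1) x - cdf' ν x|) :=
      Real.iSup_nonneg (fun x => abs_nonneg _)
    rw [Real.dist_eq, sub_zero, abs_of_nonneg h0]
    linarith
  · intro j x
    exact le_ciSup (hbdd j) x

end

end Pool.Agent.Lib.Pe3602a
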