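import Pool.Agent.Lib.Pe3602a.Smooth

/-!
# Weak convergence of the smoothed measures
-/

open MeasureTheory Filter Topology Set
open scoped ContDiff ENNReal

namespace Pool.Agent.Lib.Pe3602a

section

variable (ν : Measure ℝ) [IsProbabilityMeasure ν] {κ : ℝ}

theorem integrable_kernel (hκ : 0 < κ) {h : ℝ → ℝ} (hm : Measurable h) {B R : ℝ}
    (hB : ∀ t, |h t| ≤ B) (hR : ∀ t, R < |t| → h t = 0) :
    Integrable (Function.uncurry fun t z => h t * (κ * stepD (κ * (t - z)))) (volume.prod ν) := by
  obtain ⟨C, hC0, hC⟩ := exists_stepD_le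
  have hB0 : 0 ≤ B := (abs_nonneg _).trans (hB 0)
  have hg : Integrable (fun p : ℝ × ℝ =>
      (Icc (-R) R).indicator (fun _ => B * (κ * C)) p.1 * 1) (volume.prod ν) := by
    apply Integrable.mul_prod (f := (Icc (-R) R).indicator (fun _ => B * (κ * C)))
      (g := fun _ => (1 : ℝ))
    · apply IntegrableOn.integrable_indicator _ measurableSet_Icc
      exact integrableOn_const (by simp)
    · exact integrable_const _
  apply hg.mono'
  · apply Measurable.aestronglyMeasurable
    apply (hm.comp measurable_fst).mul
    apply measurable_const.mul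
    apply continuous_stepD.measurable.comp
    exact measurable_const.mul (measurable_fst.sub measurable_snd)
  · filter_upwards with p
    simp only [Function.uncurry, mul_one, indicator]
    split_ifs with hp
    · rw [norm_mul, norm_mul, Real.norm_eq_abs, Real.norm_eq_abs, Real.norm_eq_abs,
        abs_of_pos hκ, abs_of_nonneg (stepD_nonneg _)]
      exact mul_le_mul (hB _) (mul_le_mul_of_nonneg_left (hC _) hκ.le)
        (mul_nonneg hκ.le (stepD_nonneg _)) hB0
    · have : R < |p.1| := by
        by_contra hcon
        push Not at hcon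
        exact hp (abs_le.mp hcon)
      rw [hR _ this]; simp

/-- One-dimensional change of variables. -/
theorem integral_mul_dcs (hκ : 0 < κ) {h : ℝ → ℝ} (hm : Measurable h) {B R : ℝ}
    (hB : ∀ t, |h t| ≤ B) (hR : ∀ t, R < |t| → h t = 0) :
    ∫ t, h t * dcs ν κ t = ∫ z, ∫ s, h (z + s / κ) * stepD s ∂volume ∂ν := by
  have h1 : ∀ t, h t * dcs ν κ t = ∫ z, h t * (κ * stepD (κ * (t - z))) ∂ν := by
    intro t; rw [integral_const_mul]; rfl
  simp only [h1]
  rw [integral_integral_swap (integrable_kernel ν hκ hm hB hR)]
  congr 1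
  funext z
  rw [← integral_add_left_eq_self (fun t => h t * (κ * stepD (κ * (t - z)))) z]
  have h2 := Measure.integral_comp_mul_left (fun y => h (z + y / κ) * (κ * stepD y)) κ
  have h3 : ∀ x, h (z + x) * (κ * stepD (κ * (z + x - z))) =
      (fun y => h (z + y / κ) * (κ * stepD y)) (κ * x) := by
    intro x
    simp only [add_sub_cancel_left]
    rw [mul_div_cancel_left₀ _ hκ.ne']
  simp only [h3]
  rw [h2, abs_of_pos (inv_pos.mpr hκ), smul_eq_mul, ← integral_const_mul]
  congr 1
  funext y
  field_simp

end

section

variable {m : ℕ}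

/-- Adding a first coordinate. -/
def consMap (p : ℝ × (Fin m → ℝ)) : Fin (m + 1) → ℝ := Fin.cons p.1 p.2

theorem consMap_eq (p : ℝ × (Fin m → ℝ)) :
    (MeasurableEquiv.piFinSuccAbove (fun _ : Fin (m + 1) => ℝ) 0).symm p = consMap p := by
  change Fin.insertNth (α := fun _ : Fin (m + 1) => ℝ) 0 p.1 p.2 =
    Fin.cons (α := fun _ : Fin (m + 1) => ℝ) p.1 p.2
  exact Fin.insertNth_zero' p.1 p.2

theorem continuous_consMap : Continuous (consMap (m := m)) := by
  unfold consMap
  apply continuous_pi
  intro i
  refine Fin.cases ?_ (fun j => ?_) i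
  · exact continuous_fst
  · exact (continuous_apply j).comp continuous_snd

theorem norm_consMap (p : ℝ × (Fin m → ℝ)) : ‖consMap p‖ = max |p.1| ‖p.2‖ := by
  apply le_antisymm
  · rw [pi_norm_le_iff_of_nonneg (by positivity)]
    intro i
    refine Fin.cases ?_ (fun j => ?_) i
    · exact le_max_left _ _
    · exact (norm_le_pi_norm p.2 j).trans (le_max_right _ _)
  · apply max_le
    · exact norm_le_pi_norm (consMap p) 0
    · rw [pi_norm_le_iff_of_nonneg (by positivity)]
      intro j
      exact norm_le_pi_norm (consMap p) j.succ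

theorem integral_consMap (F : (Fin (m + 1) → ℝ) → ℝ) :
    ∫ x, F x = ∫ p : ℝ × (Fin m → ℝ), F (consMap p) ∂(volume.prod volume) := by
  have h := (volume_preserving_piFinSuccAbove (fun _ : Fin (m + 1) => ℝ) 0).symm
  have h2 := h.integral_comp' (f := (MeasurableEquiv.piFinSuccAbove
    (fun _ : Fin (m + 1) => ℝ) 0).symm) F
  rw [← h2]
  simp only [consMap_eq]
  rfl

/-- The limit measure before multiplication by a density. -/
noncomputable def lam (ν : Measure ℝ) : Measure (Fin (m + 1) → ℝ) :=
  Measure.map consMap (ν.prod volume)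

variable (ν : Measure ℝ) [IsProbabilityMeasure ν] {κ : ℝ}

theorem bound_integrable (B R : ℝ) :
    Integrable (fun p : (Fin m → ℝ) × (ℝ × ℝ) =>
      (Metric.closedBall (0 : Fin m → ℝ) R).indicator (fun _ => B) p.1 * ((1 : ℝ) * stepD p.2.2))
      (volume.prod (ν.prod volume)) := by
  apply Integrable.mul_prod (f := (Metric.closedBall (0 : Fin m → ℝ) R).indicator (fun _ => B))
    (g := fun q : ℝ × ℝ => (1 : ℝ) * stepD q.2)
  · apply IntegrableOn.integrable_indicator _ measurableSet_closedBall
    exact integrableOn_const (isCompact_closedBall _ _).measure_lt_top.ne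
  · exact Integrable.mul_prod (f := fun _ : ℝ => (1 : ℝ)) (g := stepD) (integrable_const _)
      integrable_stepD

theorem integrand_measurable {h : (Fin (m + 1) → ℝ) → ℝ} (hm : Measurable h) :
    Measurable fun p : (Fin m → ℝ) × (ℝ × ℝ) =>
      h (consMap (p.2.1 + p.2.2 / κ, p.1)) * stepD p.2.2 := by
  apply Measurable.mul
  · apply hm.comp
    apply continuous_consMap.measurable.comp
    apply Measurable.prodMk
    · exact (measurable_fst.comp measurable_snd).add
        ((measurable_snd.comp measurable_snd).div_const κ)
    · exact measurable_fst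
  · exact continuous_stepD.measurable.comp (measurable_snd.comp measurable_snd)

theorem integrand_bound {h : (Fin (m + 1) → ℝ) → ℝ} {B R : ℝ}
    (hB : ∀ x, |h x| ≤ B) (hR : ∀ x, R < ‖x‖ → h x = 0) (p : (Fin m → ℝ) × (ℝ × ℝ)) (t : ℝ) :
    ‖h (consMap (t, p.1)) * stepD p.2.2‖ ≤
      (Metric.closedBall (0 : Fin m → ℝ) R).indicator (fun _ => B) p.1 *
        ((1 : ℝ) * stepD p.2.2) := by
  rw [norm_mul, Real.norm_eq_abs, Real.norm_eq_abs, abs_of_nonneg (stepD_nonneg _), one_mul]
  apply mul_le_mul_of_nonneg_right _ (stepD_nonneg _)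
  simp only [indicator]
  split_ifs with hp
  · exact hB _
  · rw [hR _, abs_zero]
    rw [norm_consMap]
    rw [Metric.mem_closedBall, dist_zero_right, not_le] at hp
    exact lt_of_lt_of_le hp (le_max_right _ _)

theorem integral_mul_dcs_pi (hκ : 0 < κ) {h : (Fin (m + 1) → ℝ) → ℝ} (hm : Measurable h)
    {B R : ℝ} (hB : ∀ x, |h x| ≤ B) (hR : ∀ x, R < ‖x‖ → h x = 0) :
    ∫ x, h x * dcs ν κ (x 0) =
      ∫ p : (Fin m → ℝ) × (ℝ × ℝ), h (consMap (p.2.1 + p.2.2 / κ, p.1)) * stepD p.2.2
        ∂(volume.prod (ν.prod volume)) := by
  have hB0 : 0 ≤ B := (abs_nonneg _).trans (hB 0)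
  have hint : Integrable (fun p : (Fin m → ℝ) × (ℝ × ℝ) =>
      h (consMap (p.2.1 + p.2.2 / κ, p.1)) * stepD p.2.2) (volume.prod (ν.prod volume)) := by
    apply (bound_integrable ν B R).mono' (integrand_measurable hm).aestronglyMeasurable
    filter_upwards with p
    exact integrand_bound hB hR p _
  obtain ⟨C, hC0, hC⟩ := exists_stepD_le
  have hdc : ∀ t, |dcs ν κ t| ≤ κ * C := by
    intro t
    rw [abs_of_nonneg (dcs_nonneg ν hκ t)]
    have : dcs ν κ t ≤ ∫ _, κ * C ∂ν := by
      apply integral_mono_of_nonneg
      · filter_upwards with z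
        exact mul_nonneg hκ.le (stepD_nonneg _)
      · exact integrable_const _
      · filter_upwards with z
        exact mul_le_mul_of_nonneg_left (hC _) hκ.le
    simpa using this
  have hmd : Measurable (dcs ν κ) := (contDiff_dcs ν hκ).continuous.measurable
  have hint2 : Integrable (fun p : ℝ × (Fin m → ℝ) => h (consMap p) * dcs ν κ (consMap p 0))
      (volume.prod volume) := by
    have hg : Integrable (fun p : ℝ × (Fin m → ℝ) =>
        (Icc (-R) R).indicator (fun _ => B * (κ * C)) p.1 *
          (Metric.closedBall (0 : Fin m → ℝ) R).indicator (fun _ => (1 : ℝ)) p.2)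
        (volume.prod volume) := by
      apply Integrable.mul_prod
      · apply IntegrableOn.integrable_indicator _ measurableSet_Icc
        exact integrableOn_const (by simp)
      · apply IntegrableOn.integrable_indicator _ measurableSet_closedBall
        exact integrableOn_const (isCompact_closedBall _ _).measure_lt_top.ne
    apply hg.mono'
    · apply Measurable.aestronglyMeasurable
      exact (hm.comp continuous_consMap.measurable).mul (hmd.comp measurable_fst)
    · filter_upwards with p
      rw [norm_mul, Real.norm_eq_abs, Real.norm_eq_abs]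
      simp only [indicator]
      split_ifs with h1 h2 h2
      · rw [mul_one]
        exact mul_le_mul (hB _) (hdc _) (abs_nonneg _) hB0
      · rw [hR]
        · simp
        · rw [norm_consMap]
          rw [Metric.mem_closedBall, dist_zero_right, not_le] at h2
          exact lt_of_lt_of_le h2 (le_max_right _ _)
      · rw [hR]
        · simp
        · rw [norm_consMap]
          apply lt_of_lt_of_le _ (le_max_left _ _)
          by_contra hcon
          push Not at hcon
          exact h1 (abs_le.mp hcon)
      · rw [hR]
        · simp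
        · rw [norm_consMap]
          apply lt_of_lt_of_le _ (le_max_left _ _)
          by_contra hcon
          push Not at hcon
          exact h1 (abs_le.mp hcon)
  rw [integral_consMap, integral_prod_symm _ hint2, integral_prod _ hint]
  congr 1
  funext y
  have hint3 : ∀ y : Fin m → ℝ, Integrable (fun q : ℝ × ℝ =>
      h (consMap (q.1 + q.2 / κ, y)) * stepD q.2) (ν.prod volume) := by
    intro y
    have hg : Integrable (fun q : ℝ × ℝ => B * ((1 : ℝ) * stepD q.2)) (ν.prod volume) := by
      apply Integrable.const_mul
      exact Integrable.mul_prod (f := fun _ : ℝ => (1 : ℝ)) (g := stepD) (integrable_const _)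
        integrable_stepD
    apply hg.mono'
    · apply Measurable.aestronglyMeasurable
      apply Measurable.mul
      · apply hm.comp
        apply continuous_consMap.measurable.comp
        exact (measurable_fst.add (measurable_snd.div_const κ)).prodMk measurable_const
      · exact continuous_stepD.measurable.comp measurable_snd
    · filter_upwards with q
      rw [norm_mul, Real.norm_eq_abs, Real.norm_eq_abs, abs_of_nonneg (stepD_nonneg _), one_mul]
      exact mul_le_mul_of_nonneg_right (hB _) (stepD_nonneg _)
  rw [integral_prod _ (hint3 y)]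
  have hcm : Measurable fun t : ℝ => consMap (t, y) :=
    continuous_consMap.measurable.comp (measurable_id.prodMk measurable_const)
  have := integral_mul_dcs ν hκ (h := fun t => h (consMap (t, y))) (hm.comp hcm) (B := B) (R := R)
    (fun t => hB _) (fun t ht => hR _ (by
      rw [norm_consMap]; exact lt_of_lt_of_le ht (le_max_left _ _)))
  exact this

/-- The main weak convergence statement. -/
theorem tendsto_integral_dcs {κ : ℕ → ℝ} (hκ : ∀ i, 0 < κ i) (hκt : Tendsto κ atTop atTop)
    {h : ℕ → (Fin (m + 1) → ℝ) → ℝ} {hlim : (Fin (m + 1) → ℝ) → ℝ}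
    (hm : ∀ i, Measurable (h i)) {B R : ℝ} (hB : ∀ i x, |h i x| ≤ B)
    (hR : ∀ i x, R < ‖x‖ → h i x = 0)
    (hconv : ∀ (x : Fin (m + 1) → ℝ) (u : ℕ → (Fin (m + 1) → ℝ)), Tendsto u atTop (𝓝 x) →
      Tendsto (fun i => h i (u i)) atTop (𝓝 (hlim x))) :
    Tendsto (fun i => ∫ x, h i x * dcs ν (κ i) (x 0)) atTop (𝓝 (∫ x, hlim x ∂(lam ν))) := by
  have hlm : Measurable hlim := by
    apply measurable_of_tendsto_metrizable hm
    rw [tendsto_pi_nhds]
    intro x
    exact hconv x (fun _ => x) tendsto_const_nhds
  have hlB : ∀ x, |hlim x| ≤ B := by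
    intro x
    exact le_of_tendsto ((hconv x (fun _ => x) tendsto_const_nhds).abs)
      (Eventually.of_forall fun i => hB i x)
  have hlR : ∀ x, R < ‖x‖ → hlim x = 0 := by
    intro x hx
    have h1 := hconv x (fun _ => x) tendsto_const_nhds
    simp only [hR _ x hx] at h1
    exact (tendsto_nhds_unique h1 tendsto_const_nhds)
  have e : ∫ x, hlim x ∂(lam ν) =
      ∫ p : (Fin m → ℝ) × (ℝ × ℝ), hlim (consMap (p.2.1, p.1)) * stepD p.2.2
        ∂(volume.prod (ν.prod volume)) := by
    unfold lam
    rw [integral_map continuous_consMap.measurable.aemeasurable hlm.aestronglyMeasurable]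
    have hi1 : Integrable (fun p : ℝ × (Fin m → ℝ) => hlim (consMap p)) (ν.prod volume) := by
      have hg : Integrable (fun p : ℝ × (Fin m → ℝ) => (1 : ℝ) *
          (Metric.closedBall (0 : Fin m → ℝ) R).indicator (fun _ => B) p.2)
          (ν.prod volume) := by
        apply Integrable.mul_prod (f := fun _ : ℝ => (1 : ℝ)) (integrable_const _)
        apply IntegrableOn.integrable_indicator _ measurableSet_closedBall
        exact integrableOn_const (isCompact_closedBall _ _).measure_lt_top.ne
      apply hg.mono' (hlm.comp continuous_consMap.measurable).aestronglyMeasurable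
      filter_upwards with p
      rw [Real.norm_eq_abs, one_mul]
      simp only [indicator]
      change |hlim (consMap p)| ≤ _
      split_ifs with hp
      · exact hlB _
      · rw [hlR, abs_zero]
        rw [norm_consMap]
        rw [Metric.mem_closedBall, dist_zero_right, not_le] at hp
        exact lt_of_lt_of_le hp (le_max_right _ _)
    have hi2 : Integrable (fun p : (Fin m → ℝ) × (ℝ × ℝ) =>
        hlim (consMap (p.2.1, p.1)) * stepD p.2.2) (volume.prod (ν.prod volume)) := by
      apply (bound_integrable ν B R).mono'
      · apply Measurable.aestronglyMeasurable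
        apply Measurable.mul
        · apply hlm.comp
          apply continuous_consMap.measurable.comp
          exact (measurable_fst.comp measurable_snd).prodMk measurable_fst
        · exact continuous_stepD.measurable.comp (measurable_snd.comp measurable_snd)
      · filter_upwards with p
        exact integrand_bound hlB hlR p _
    rw [integral_prod_symm _ hi1, integral_prod _ hi2]
    congr 1
    funext y
    have := integral_prod_mul (μ := ν) (ν := volume) (fun z => hlim (consMap (z, y))) stepD
    rw [this, integral_stepD, mul_one]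
  rw [e]
  have e2 : ∀ i, ∫ x, h i x * dcs ν (κ i) (x 0) =
      ∫ p : (Fin m → ℝ) × (ℝ × ℝ), h i (consMap (p.2.1 + p.2.2 / κ i, p.1)) * stepD p.2.2
        ∂(volume.prod (ν.prod volume)) := fun i =>
    integral_mul_dcs_pi ν (hκ i) (hm i) (hB i) (hR i)
  simp only [e2]
  apply tendsto_integral_of_dominated_convergence (fun p : (Fin m → ℝ) × (ℝ × ℝ) =>
      (Metric.closedBall (0 : Fin m → ℝ) R).indicator (fun _ => B) p.1 * ((1 : ℝ) * stepD p.2.2))
  · intro i
    exact (integrand_measurable (hm i)).aestronglyMeasurable
  · exact bound_integrable ν B R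
  · intro i
    filter_upwards with p
    exact integrand_bound (hB i) (hR i) p _
  · filter_upwards with p
    apply Tendsto.mul_const
    apply hconv
    apply (continuous_consMap.tendsto _).comp
    apply Tendsto.prodMk_nhds
    · have h0 : Tendsto (fun i => p.2.2 / κ i) atTop (𝓝 0) := hκt.const_div_atTop p.2.2
      simpa using tendsto_const_nhds.add h0
    · exact tendsto_const_nhds

end

end Pool.Agent.Lib.Pe3602a
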